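import Pool.Agent.SawHalf.Main

open scoped ENNReal
open Filter Topology
open Pool.Agent.SawTree

namespace Pool.Agent.SawHalf

lemma Ex_swp {p q L : ℝ} {u : Wd} (h : Ex p q L u) : Ex q p L (u.map swp) := by
  intro a b c e
  have e' : u = a.map swp ++ b.map swp ++ c.map swp := by
    rw [← swp_swp u, e]; simp
  have := h _ _ _ e'
  rwa [hh_swp] at this

/-- strips in an arbitrary direction -/
theorem Sr_fin' {z : ℝ≥0∞} (hz0 : 0 < z) (hz : z ≤ crit) {p q : ℝ} (hpq : ¬ (p = 0 ∧ q = 0))
    (L : ℝ) : Wt z (Sr p q L) ≠ ⊤ := by
  by_cases hq : q = 0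
  · have hp : p ≠ 0 := fun h => hpq ⟨h, hq⟩
    apply ne_top_of_le_ne_top (Sr_fin (p := q) (q := p) hz0 hz hp L)
    apply Wt_inj (fun u : Sr p q L => (⟨(u : Wd).map swp, u.2.1.swp', Ex_swp u.2.2⟩ : Sr q p L))
    · intro a b hab
      have h : (a : Wd).map swp = (b : Wd).map swp := congrArg (fun t : Sr q p L => (t : Wd)) hab
      apply Subtype.ext
      rw [← swp_swp (a : Wd), h, swp_swp]
    · intro u; simp
  · exact Sr_fin hz0 hz hq L

section
variable {P Q : ℤ}

lemma Hs_left (a c : Wd) : Hs P Q a <+: Hs P Q (a ++ c) := by
  induction c using List.reverseRecOn with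
  | nil => simp
  | append_singleton c d ih =>
    rw [← List.append_assoc, Hs_snoc]
    exact ih.trans (List.prefix_append _ _)

/-- words with a bounded word of sides lie in a strip -/
lemma Hs_strip {w : Wd} (hS : Saw w) {N : ℕ} (h : (Hs P Q w).length ≤ N) :
    w ∈ Sr (P : ℝ) (Q : ℝ) ((N : ℝ) + 1) := by
  refine ⟨hS, ?_⟩
  intro a b c e
  rw [← Hz_cast]
  have h1 := le_Tp (P := P) (Q := Q) a (b ++ c)
  have h2 := Bt_le (P := P) (Q := Q) a (b ++ c)
  have h3 := le_Tp (P := P) (Q := Q) (a ++ b) c
  have h4 := Bt_le (P := P) (Q := Q) (a ++ b) c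
  rw [← List.append_assoc, ← e] at h1 h2
  rw [← e, Hz_append] at h3 h4
  have h5 := Hs_length (P := P) (Q := Q) w
  have h6 : |Hz P Q b| < (N : ℤ) + 1 := by
    rw [abs_lt]
    constructor <;> omega
  exact_mod_cast h6

/-- first passage and side words -/
lemma px_iff {u : Wd} {d : Fin 4} {x : List Bool} (hS : Saw (u ++ [d])) :
    u ++ [d] ∈ Px P Q x ↔ (x <+: Hs P Q (u ++ [d]) ∧ ¬ x <+: Hs P Q u) := by
  constructor
  · rintro ⟨_, u', d', e, h1, h2⟩
    have e2 := List.append_inj' e rfl
    have hu : u = u' := e2.1
    subst hu
    refine ⟨h2, ?_⟩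
    intro h3
    have := h3.length_le
    omega
  · rintro ⟨h1, h2⟩
    refine ⟨hS, u, d, rfl, ?_, h1⟩
    by_contra hcon
    push Not at hcon
    exact h2 (List.prefix_of_prefix_length_le h1 (Hs_left u [d]) hcon)

end

/-- flow through the words of length `n` whose word of sides begins with `x` -/
noncomputable def Gn (P Q : ℤ) (θ : Wd → ℝ) (n : ℕ) (x : List Bool) : ℝ := by
  classical exact ∑ w ∈ wordsF n, if x <+: Hs P Q w then θ w else 0

/-- flow through the first passage words of length `n` -/
noncomputable def gn (P Q : ℤ) (θ : Wd → ℝ) (n : ℕ) (x : List Bool) : ℝ := by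
  classical exact ∑ w ∈ wordsF n, if w ∈ Px P Q x then θ w else 0

/-- flow through the words of length `n` whose word of sides is `x` -/
noncomputable def Nn (P Q : ℤ) (θ : Wd → ℝ) (n : ℕ) (x : List Bool) : ℝ := by
  classical exact ∑ w ∈ wordsF n, if Hs P Q w = x then θ w else 0

section
variable {P Q : ℤ} {θ : Wd → ℝ}

lemma Gn_succ (hS : ∀ w, θ w ≠ 0 → Saw w) (hflow : ∀ u, θ u = ∑ d : Fin 4, θ (u ++ [d]))
    (n : ℕ) (x : List Bool) : Gn P Q θ (n + 1) x = Gn P Q θ n x + gn P Q θ (n + 1) x := by
  classical
  unfold Gn gn
  rw [sum_wordsF_succ, sum_wordsF_succ, ← Finset.sum_add_distrib]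
  apply Finset.sum_congr rfl
  intro u _
  by_cases hx : x <+: Hs P Q u
  · rw [if_pos hx]
    have e1 : ∀ d : Fin 4, (if x <+: Hs P Q (u ++ [d]) then θ (u ++ [d]) else 0)
        = θ (u ++ [d]) := by
      intro d
      rw [if_pos (hx.trans (Hs_left u [d]))]
    have e2 : ∀ d : Fin 4, (if u ++ [d] ∈ Px P Q x then θ (u ++ [d]) else 0) = 0 := by
      intro d
      by_cases h0 : θ (u ++ [d]) = 0
      · rw [h0]; simp
      · rw [if_neg]
        intro h
        exact ((px_iff (hS _ h0)).mp h).2 hx
    simp_rw [e1, e2]
    rw [← hflow u]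
    simp
  · rw [if_neg hx, zero_add]
    apply Finset.sum_congr rfl
    intro d _
    by_cases h0 : θ (u ++ [d]) = 0
    · rw [h0]; simp
    · by_cases h1 : x <+: Hs P Q (u ++ [d])
      · rw [if_pos h1, if_pos ((px_iff (hS _ h0)).mpr ⟨h1, hx⟩)]
      · rw [if_neg h1, if_neg]
        intro h
        exact h1 ((px_iff (hS _ h0)).mp h).1

lemma Gn_split (n : ℕ) (x : List Bool) :
    Gn P Q θ n x = Nn P Q θ n x + (Gn P Q θ n (x ++ [true]) + Gn P Q θ n (x ++ [false])) := by
  classical
  unfold Gn Nn
  rw [← Finset.sum_add_distrib, ← Finset.sum_add_distrib]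
  apply Finset.sum_congr rfl
  intro w _
  by_cases hx : x <+: Hs P Q w
  · rw [if_pos hx]
    obtain ⟨t, ht⟩ := hx
    cases t with
    | nil =>
      rw [List.append_nil] at ht
      rw [if_pos ht.symm, if_neg, if_neg]
      · ring
      · intro h
        have := h.length_le
        rw [← ht, List.length_append] at this
        simp at this
      · intro h
        have := h.length_le
        rw [← ht, List.length_append] at this
        simp at this
    | cons s t =>
      have hne : ¬ Hs P Q w = x := by
        intro h
        rw [h] at ht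
        have := congrArg List.length ht
        simp at this
      have hcase : ∀ s' : Bool, x ++ [s'] <+: Hs P Q w ↔ s' = s := by
        intro s'
        rw [← ht]
        constructor
        · rintro ⟨t', h'⟩
          rw [List.append_assoc] at h'
          have := List.append_cancel_left h'
          simp at this
          exact this.1
        · rintro rfl
          exact ⟨t, by simp⟩
      rw [if_neg hne]
      cases s with
      | true =>
        rw [if_pos ((hcase true).mpr rfl), if_neg (by rw [hcase]; simp)]
        ring
      | false =>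
        rw [if_neg (by rw [hcase]; simp), if_pos ((hcase false).mpr rfl)]
        ring
  · rw [if_neg hx, if_neg, if_neg, if_neg]
    · ring
    · intro h; exact hx ((List.prefix_append _ _).trans h)
    · intro h; exact hx ((List.prefix_append _ _).trans h)
    · intro h; exact hx (by rw [h])

end

/-- **Transport of flows.** A unit flow of finite energy for the conductances
`c ^ (|w| + 1) * K (sides of w)` induces one on the binary tree with the conductances `K`. -/
theorem push_flow {c : ℝ} (hc : 0 < c) (hcrit : ENNReal.ofReal c ≤ crit) {P Q : ℤ}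
    (hPQ : ¬ (P = 0 ∧ Q = 0)) {K : List Bool → ℝ} (hK0 : ∀ x, 0 < K x)
    (hK1 : ∀ x y, K (x ++ y) ≤ K x) (θ : Wd → ℝ) (hS : ∀ w, θ w ≠ 0 → Saw w) (h1 : θ [] = 1)
    (hflow : ∀ u, θ u = ∑ d : Fin 4, θ (u ++ [d]))
    (hsum : Summable (fun w : Wd => θ w ^ 2 / (c ^ (w.length + 1) * K (Hs P Q w)))) :
    ∃ φ : List Bool → ℝ, (∀ x, φ x ≠ 0 → ∃ w, θ w ≠ 0 ∧ x <+: Hs P Q w) ∧ φ [] = 1 ∧
      (∀ x, φ x = φ (x ++ [true]) + φ (x ++ [false])) ∧
      Summable (fun x => φ x ^ 2 / K x) := by
  classical
  set z := ENNReal.ofReal c with hz
  have hz0 : 0 < z := ENNReal.ofReal_pos.mpr hc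
  set κ : Wd → ℝ := fun w => c ^ (w.length + 1) * K (Hs P Q w) with hκd
  have hκ : ∀ w, 0 < κ w := fun w => mul_pos (by positivity) (hK0 _)
  have hκn : ∀ w, 0 ≤ κ w := fun w => (hκ w).le
  set E : ℝ := ∑' w, θ w ^ 2 / κ w with hE
  have hterm : ∀ w, 0 ≤ θ w ^ 2 / κ w := fun w => div_nonneg (sq_nonneg _) (hκn w)
  have hEle : ∀ F : Finset Wd, ∑ w ∈ F, θ w ^ 2 / κ w ≤ E := fun F =>
    hsum.sum_le_tsum F (fun w _ => hterm w)
  have hE0 : 0 ≤ E := tsum_nonneg hterm
  have hPQ' : ¬ ((P : ℝ) = 0 ∧ (Q : ℝ) = 0) := by
    rintro ⟨g1, g2⟩
    exact hPQ ⟨by exact_mod_cast g1, by exact_mod_cast g2⟩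
  -- conversion of weights of finite sets
  have hconv : ∀ F : Finset Wd, ENNReal.ofReal (∑ w ∈ F, c ^ w.length) = ∑ w ∈ F, z ^ w.length := by
    intro F
    rw [ENNReal.ofReal_sum_of_nonneg (fun w _ => by positivity)]
    apply Finset.sum_congr rfl
    intro w _
    rw [hz, ENNReal.ofReal_pow hc.le]
  -- weight of finite sets of first passage words
  have hPw : ∀ (x : List Bool) (F : Finset Wd), (∀ w ∈ F, w ∈ Px P Q x) →
      ∑ w ∈ F, κ w ≤ c * K x := by
    intro x F hF
    have e1 : ∑ w ∈ F, c ^ w.length ≤ 1 := by
      have e2 : ENNReal.ofReal (∑ w ∈ F, c ^ w.length) ≤ ENNReal.ofReal 1 := by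
        rw [hconv, ENNReal.ofReal_one]
        exact le_trans (sum_le_Wt F hF) (Px_le hz0 hcrit P Q x)
      exact (ENNReal.ofReal_le_ofReal_iff (by norm_num)).mp e2
    calc ∑ w ∈ F, κ w ≤ ∑ w ∈ F, (c * K x) * c ^ w.length := by
          apply Finset.sum_le_sum
          intro w hw
          obtain ⟨_, _, _, _, _, t, ht⟩ := hF w hw
          have e3 : K (Hs P Q w) ≤ K x := by rw [← ht]; exact hK1 x t
          rw [hκd]
          simp only
          rw [pow_succ]
          have e4 : 0 ≤ c ^ w.length * c := by positivity
          calc c ^ w.length * c * K (Hs P Q w) ≤ c ^ w.length * c * K x :=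
                mul_le_mul_of_nonneg_left e3 e4
            _ = _ := by ring
      _ = (c * K x) * ∑ w ∈ F, c ^ w.length := by rw [Finset.mul_sum]
      _ ≤ (c * K x) * 1 := by
          apply mul_le_mul_of_nonneg_left e1
          exact (mul_pos hc (hK0 x)).le
      _ = _ := mul_one _
  -- weight of finite sets in a strip
  have hSw : ∀ x : List Bool, ∃ B : ℝ, ∀ F : Finset Wd, (∀ w ∈ F, Saw w ∧ Hs P Q w = x) →
      ∑ w ∈ F, κ w ≤ B := by
    intro x
    have hfin := Sr_fin' hz0 hcrit hPQ' ((x.length : ℝ) + 1)
    refine ⟨(c * K x) * (Wt z (Sr (P : ℝ) (Q : ℝ) ((x.length : ℝ) + 1))).toReal, ?_⟩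
    intro F hF
    have e1 : ∑ w ∈ F, c ^ w.length ≤
        (Wt z (Sr (P : ℝ) (Q : ℝ) ((x.length : ℝ) + 1))).toReal := by
      rw [← ENNReal.ofReal_le_iff_le_toReal hfin, hconv]
      apply sum_le_Wt
      intro w hw
      apply Hs_strip (hF w hw).1
      rw [(hF w hw).2]
    calc ∑ w ∈ F, κ w = (c * K x) * ∑ w ∈ F, c ^ w.length := by
          rw [Finset.mul_sum]
          apply Finset.sum_congr rfl
          intro w hw
          rw [hκd]
          simp only
          rw [(hF w hw).2, pow_succ]
          ring
      _ ≤ _ := by
          apply mul_le_mul_of_nonneg_left e1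
          exact (mul_pos hc (hK0 x)).le
  -- Cauchy-Schwarz on a finite set
  have hCS : ∀ F : Finset Wd, (∑ w ∈ F, θ w) ^ 2 ≤ (∑ w ∈ F, θ w ^ 2 / κ w) * ∑ w ∈ F, κ w := by
    intro F
    apply Finset.sum_sq_le_sum_mul_sum_of_sq_le_mul
    · intro w _; exact hterm w
    · intro w _; exact hκn w
    · intro w _
      have := (hκ w).ne'
      apply le_of_eq
      field_simp
  -- absolute bound by energy plus conductance
  have hab : ∀ w, |θ w| ≤ θ w ^ 2 / κ w + κ w := by
    intro w
    have g1 := hκ w
    rw [div_add' _ _ _ g1.ne', le_div_iff₀ g1]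
    nlinarith [sq_nonneg (|θ w| - κ w), sq_abs (θ w), abs_nonneg (θ w)]
  -- finite unions over lengths
  set U : ℕ → Finset Wd := fun n => (Finset.range n).biUnion (fun k => wordsF (k + 1)) with hU
  have hUsum : ∀ (f : Wd → ℝ) (n : ℕ), ∑ w ∈ U n, f w
      = ∑ k ∈ Finset.range n, ∑ w ∈ wordsF (k + 1), f w := by
    intro f n
    rw [hU]
    simp only
    rw [Finset.sum_biUnion]
    intro i _ j _ hij
    rw [Function.onFun, Finset.disjoint_left]
    intro u g1 g2
    apply hij
    have := (mem_wordsF.mp g1).symm.trans (mem_wordsF.mp g2)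
    omega
  -- summability of the increments
  have hgs : ∀ x, Summable (fun k => gn P Q θ (k + 1) x) := by
    intro x
    apply Summable.of_abs
    apply summable_of_sum_range_le (c := E + c * K x)
    · intro k; exact abs_nonneg _
    · intro n
      calc ∑ k ∈ Finset.range n, |gn P Q θ (k + 1) x|
          ≤ ∑ k ∈ Finset.range n, ∑ w ∈ wordsF (k + 1),
            (if w ∈ Px P Q x then θ w ^ 2 / κ w + κ w else 0) := by
            apply Finset.sum_le_sum
            intro k _
            unfold gn
            refine le_trans (Finset.abs_sum_le_sum_abs _ _) ?_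
            apply Finset.sum_le_sum
            intro w _
            split_ifs
            · exact hab w
            · simp
        _ = ∑ w ∈ (U n).filter (fun w => w ∈ Px P Q x), (θ w ^ 2 / κ w + κ w) := by
            rw [Finset.sum_filter, hUsum]
        _ = (∑ w ∈ (U n).filter (fun w => w ∈ Px P Q x), θ w ^ 2 / κ w) +
            ∑ w ∈ (U n).filter (fun w => w ∈ Px P Q x), κ w := Finset.sum_add_distrib
        _ ≤ E + c * K x := by
            apply add_le_add (hEle _)
            apply hPw
            intro w hw
            exact (Finset.mem_filter.mp hw).2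
  -- the partial sums
  have hGn : ∀ n x, Gn P Q θ n x = Gn P Q θ 0 x + ∑ k ∈ Finset.range n, gn P Q θ (k + 1) x := by
    intro n x
    induction n with
    | zero => simp
    | succ n ih =>
      rw [Gn_succ hS hflow, ih, Finset.sum_range_succ]
      ring
  set φ : List Bool → ℝ := fun x => Gn P Q θ 0 x + ∑' k, gn P Q θ (k + 1) x with hφ
  have hlim : ∀ x, Tendsto (fun n => Gn P Q θ n x) atTop (𝓝 (φ x)) := by
    intro x
    have h := (hgs x).hasSum.tendsto_sum_nat
    have h2 := h.const_add (Gn P Q θ 0 x)
    refine h2.congr ?_
    intro n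
    rw [hGn n x]
  -- the flow stays nowhere in a strip
  have hN : ∀ x, Tendsto (fun n => Nn P Q θ n x) atTop (𝓝 0) := by
    intro x
    obtain ⟨B, hB⟩ := hSw x
    have hsN : Summable (fun n => Nn P Q θ n x) := by
      apply Summable.of_abs
      apply summable_of_sum_range_le (c := E + B)
      · intro k; exact abs_nonneg _
      · intro n
        set W : Finset Wd := (Finset.range n).biUnion wordsF with hW
        have hWsum : ∀ f : Wd → ℝ, ∑ w ∈ W, f w = ∑ k ∈ Finset.range n, ∑ w ∈ wordsF k, f w := by
          intro f
          rw [hW, Finset.sum_biUnion]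
          intro i _ j _ hij
          rw [Function.onFun, Finset.disjoint_left]
          intro u g1 g2
          exact hij ((mem_wordsF.mp g1).symm.trans (mem_wordsF.mp g2))
        calc ∑ k ∈ Finset.range n, |Nn P Q θ k x|
            ≤ ∑ k ∈ Finset.range n, ∑ w ∈ wordsF k,
              (if Saw w ∧ Hs P Q w = x then θ w ^ 2 / κ w + κ w else 0) := by
              apply Finset.sum_le_sum
              intro k _
              unfold Nn
              refine le_trans (Finset.abs_sum_le_sum_abs _ _) ?_
              apply Finset.sum_le_sum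
              intro w _
              by_cases hx : Hs P Q w = x
              · rw [if_pos hx]
                by_cases h0 : θ w = 0
                · rw [h0, abs_zero]
                  split_ifs
                  · have g1 := hκn w
                    have g2 := hterm w
                    rw [h0] at g2
                    linarith
                  · exact le_refl _
                · rw [if_pos ⟨hS w h0, hx⟩]
                  exact hab w
              · rw [if_neg hx, abs_zero]
                split_ifs with h
                · exact absurd h.2 hx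
                · exact le_refl _
          _ = ∑ w ∈ W.filter (fun w => Saw w ∧ Hs P Q w = x), (θ w ^ 2 / κ w + κ w) := by
              rw [Finset.sum_filter, hWsum]
          _ = (∑ w ∈ W.filter (fun w => Saw w ∧ Hs P Q w = x), θ w ^ 2 / κ w) +
              ∑ w ∈ W.filter (fun w => Saw w ∧ Hs P Q w = x), κ w := Finset.sum_add_distrib
          _ ≤ E + B := by
              apply add_le_add (hEle _)
              apply hB
              intro w hw
              exact (Finset.mem_filter.mp hw).2
    exact hsN.tendsto_atTop_zero
  refine ⟨φ, ?_, ?_, ?_, ?_⟩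
  · -- support
    intro x hx
    by_contra hcon
    push Not at hcon
    apply hx
    have hz' : ∀ n, Gn P Q θ n x = 0 := by
      intro n
      unfold Gn
      apply Finset.sum_eq_zero
      intro w _
      split_ifs with h
      · by_contra h0
        exact hcon w h0 h
      · rfl
    have h2 := hlim x
    simp_rw [hz'] at h2
    exact tendsto_nhds_unique h2 tendsto_const_nhds
  · -- mass one
    have hz' : ∀ n, Gn P Q θ n [] = 1 := by
      intro n
      unfold Gn
      simp only [List.nil_prefix, if_true]
      induction n with
      | zero =>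
        have : wordsF 0 = {[]} := by
          ext u; rw [mem_wordsF, Finset.mem_singleton, List.length_eq_zero_iff]
        rw [this, Finset.sum_singleton, h1]
      | succ l ih =>
        rw [sum_wordsF_succ, ← ih]
        exact Finset.sum_congr rfl (fun u _ => (hflow u).symm)
    have h2 := hlim []
    simp_rw [hz'] at h2
    exact tendsto_nhds_unique h2 tendsto_const_nhds
  · -- conservation
    intro x
    have h2 := (hN x).add ((hlim (x ++ [true])).add (hlim (x ++ [false])))
    rw [zero_add] at h2
    have h3 : (fun n => Nn P Q θ n x + (Gn P Q θ n (x ++ [true]) + Gn P Q θ n (x ++ [false])))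
        = fun n => Gn P Q θ n x := by
      funext n
      exact (Gn_split n x).symm
    rw [h3] at h2
    exact tendsto_nhds_unique (hlim x) h2
  · -- energy
    set J : ℕ := P.natAbs + Q.natAbs with hJ
    -- multiplicity
    have hmult : ∀ (G : Finset (List Bool)) (w : Wd),
        ((G.filter (fun x => w ∈ Px P Q x)).card : ℝ) ≤ J := by
      intro G w
      have : (G.filter (fun x => w ∈ Px P Q x)).card ≤ J := by
        by_cases hw : w = []
        · have : G.filter (fun x => w ∈ Px P Q x) = ∅ := by
            apply Finset.filter_eq_empty_iff.mpr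
            rintro x _ ⟨_, u, d, e, _⟩
            rw [hw] at e
            simp at e
          rw [this]; simp
        · obtain ⟨u, d, e⟩ : ∃ u d, w = u ++ [d] :=
            ⟨w.dropLast, w.getLast hw, (List.dropLast_append_getLast hw).symm⟩
          have hsub : G.filter (fun x => w ∈ Px P Q x) ⊆
              (Finset.Ioc (Hs P Q u).length (Hs P Q w).length).image
                (fun L => (Hs P Q w).take L) := by
            intro x hx
            rw [Finset.mem_filter] at hx
            obtain ⟨_, _, u', d', e', h2, h3⟩ := hx
            have hu : u = u' := (List.append_inj' (e.symm.trans e') rfl).1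
            subst hu
            rw [Finset.mem_image]
            refine ⟨x.length, ?_, ?_⟩
            · rw [Finset.mem_Ioc]
              exact ⟨h2, h3.length_le⟩
            · exact (List.prefix_iff_eq_take.mp h3).symm
          refine le_trans (Finset.card_le_card hsub) (le_trans Finset.card_image_le ?_)
          rw [Nat.card_Ioc]
          have := (Hs_mono (P := P) (Q := Q) u d).2
          rw [← e, ← hJ] at this
          omega
      exact_mod_cast this
    apply summable_of_sum_le (c := 1 / K [] + c * J * E)
    · intro x; exact div_nonneg (sq_nonneg _) (hK0 x).le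
    · intro G
      -- the finite sums at length `n`
      have hfinite : ∀ n, ∑ x ∈ G, Gn P Q θ n x ^ 2 / K x ≤ 1 / K [] + c * J * E := by
        intro n
        have hx1 : ∀ x ∈ G, Gn P Q θ n x ^ 2 / K x ≤
            (if x = [] then 1 / K [] else 0) +
              c * ∑ w ∈ U n, (if w ∈ Px P Q x then θ w ^ 2 / κ w else 0) := by
          intro x _
          by_cases hx : x = []
          · subst hx
            rw [if_pos rfl]
            have hz' : Gn P Q θ n [] = 1 := by
              unfold Gn
              simp only [List.nil_prefix, if_true]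
              induction n with
              | zero =>
                have : wordsF 0 = {[]} := by
                  ext u; rw [mem_wordsF, Finset.mem_singleton, List.length_eq_zero_iff]
                rw [this, Finset.sum_singleton, h1]
              | succ l ih =>
                rw [sum_wordsF_succ, ← ih]
                exact Finset.sum_congr rfl (fun u _ => (hflow u).symm)
            rw [hz', one_pow]
            have : 0 ≤ c * ∑ w ∈ U n, (if w ∈ Px P Q [] then θ w ^ 2 / κ w else 0) := by
              apply mul_nonneg hc.le
              apply Finset.sum_nonneg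
              intro w _
              split_ifs
              · exact hterm w
              · exact le_refl _
            linarith
          · rw [if_neg hx, zero_add]
            have hG0 : Gn P Q θ 0 x = 0 := by
              unfold Gn
              have : wordsF 0 = {[]} := by
                ext u; rw [mem_wordsF, Finset.mem_singleton, List.length_eq_zero_iff]
              rw [this, Finset.sum_singleton, Hs_nil, if_neg]
              intro h
              exact hx (List.prefix_nil.mp h)
            have e1 : Gn P Q θ n x = ∑ w ∈ (U n).filter (fun w => w ∈ Px P Q x), θ w := by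
              rw [hGn, hG0, zero_add, Finset.sum_filter, hUsum]
              rfl
            rw [e1, div_le_iff₀ (hK0 x)]
            refine le_trans (hCS _) ?_
            have e2 : ∑ w ∈ (U n).filter (fun w => w ∈ Px P Q x), κ w ≤ c * K x := by
              apply hPw
              intro w hw
              exact (Finset.mem_filter.mp hw).2
            have e3 : ∑ w ∈ U n, (if w ∈ Px P Q x then θ w ^ 2 / κ w else 0)
                = ∑ w ∈ (U n).filter (fun w => w ∈ Px P Q x), θ w ^ 2 / κ w := by
              rw [Finset.sum_filter]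
            rw [e3]
            calc (∑ w ∈ (U n).filter (fun w => w ∈ Px P Q x), θ w ^ 2 / κ w) *
                ∑ w ∈ (U n).filter (fun w => w ∈ Px P Q x), κ w
                ≤ (∑ w ∈ (U n).filter (fun w => w ∈ Px P Q x), θ w ^ 2 / κ w) * (c * K x) := by
                  apply mul_le_mul_of_nonneg_left e2
                  exact Finset.sum_nonneg (fun w _ => hterm w)
              _ = _ := by ring
        refine le_trans (Finset.sum_le_sum hx1) ?_
        rw [Finset.sum_add_distrib]
        apply add_le_add
        · rw [Finset.sum_ite_eq' G [] (fun _ => 1 / K [])]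
          split_ifs
          · exact le_refl _
          · exact (one_div_pos.mpr (hK0 _)).le
        · rw [← Finset.mul_sum, Finset.sum_comm, mul_assoc]
          apply mul_le_mul_of_nonneg_left _ hc.le
          calc ∑ w ∈ U n, ∑ x ∈ G, (if w ∈ Px P Q x then θ w ^ 2 / κ w else 0)
              = ∑ w ∈ U n, ((G.filter (fun x => w ∈ Px P Q x)).card : ℝ) * (θ w ^ 2 / κ w) := by
                apply Finset.sum_congr rfl
                intro w _
                rw [← Finset.sum_filter, Finset.sum_const, nsmul_eq_mul]
            _ ≤ ∑ w ∈ U n, (J : ℝ) * (θ w ^ 2 / κ w) := by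
                apply Finset.sum_le_sum
                intro w _
                exact mul_le_mul_of_nonneg_right (hmult G w) (hterm w)
            _ = (J : ℝ) * ∑ w ∈ U n, θ w ^ 2 / κ w := by rw [Finset.mul_sum]
            _ ≤ (J : ℝ) * E := mul_le_mul_of_nonneg_left (hEle _) (by positivity)
      have hl : Tendsto (fun n => ∑ x ∈ G, Gn P Q θ n x ^ 2 / K x) atTop
          (𝓝 (∑ x ∈ G, φ x ^ 2 / K x)) := by
        apply tendsto_finsetSum
        intro x _
        exact ((hlim x).pow 2).div_const _
      exact le_of_tendsto hl (Eventually.of_forall hfinite)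

end Pool.Agent.SawHalf
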