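import Pool.Agent.SawHalf.Main
import Pool.Agent.SawHalf.Push

open scoped ENNReal
open Filter Topology
open Pool.Agent.SawTree

namespace Pool.Agent.SawHalf

/-- height of a site in the direction `v` -/
def height (v p : ℤ × ℤ) : ℤ := v.1 * p.1 + v.2 * p.2

/-- greatest height of the sites of a walk, and of the origin -/
def top (v : ℤ × ℤ) : List (ℤ × ℤ) → ℤ
  | [] => 0
  | p :: w => max (height v p) (top v w)

/-- least height of the sites of a walk, and of the origin -/
def bot (v : ℤ × ℤ) : List (ℤ × ℤ) → ℤ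
  | [] => 0
  | p :: w => min (height v p) (bot v w)

/-- the word of sides of a walk (a list of sites, endpoint first): each unit by which a new site
raises the greatest height gives a letter `true`, each unit by which it lowers the least height a
letter `false`, in the order of the walk. -/
def sides (v : ℤ × ℤ) : List (ℤ × ℤ) → List Bool
  | [] => []
  | p :: w => sides v w ++ (List.replicate (height v p - top v w).toNat true ++
      List.replicate (bot v w - height v p).toNat false)

/-- there is a unit flow of finite energy on the walks of `S` for the conductances `κ` -/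
def Flows (S : Set (List (ℤ × ℤ))) (κ : List (ℤ × ℤ) → ℝ) : Prop :=
  ∃ θ : List (ℤ × ℤ) → ℝ, (∀ w, w ∉ S → θ w = 0) ∧ θ [((0 : ℤ), (0 : ℤ))] = 1 ∧
    (∀ w ∈ S, θ w =
      (([((1 : ℤ), (0 : ℤ)), ((-1 : ℤ), (0 : ℤ)), ((0 : ℤ), (1 : ℤ)), ((0 : ℤ), (-1 : ℤ))]
        : List (ℤ × ℤ)).map (fun d => θ ((w.headD ((0 : ℤ), (0 : ℤ)) + d) :: w))).sum) ∧
    Summable (fun w : List (ℤ × ℤ) => θ w ^ 2 / κ w)

/-- there is a unit flow of finite energy on the binary tree, carried by `T`, for the
conductances `K` -/
def BinFlows (T : Set (List Bool)) (K : List Bool → ℝ) : Prop :=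
  ∃ φ : List Bool → ℝ, (∀ x, x ∉ T → φ x = 0) ∧ φ [] = 1 ∧
    (∀ x, φ x = φ (x ++ [true]) + φ (x ++ [false])) ∧ Summable (fun x => φ x ^ 2 / K x)

/-- product of `g l` over the turns of the word: `l` is the number of letters before the turn -/
noncomputable def turns (g : ℕ → ℝ) (x : List Bool) : ℝ :=
  ∏ i ∈ Finset.range (x.length - 1), if x.getD i false = x.getD (i + 1) false then 1 else g (i + 1)

lemma tops_pr (v : ℤ × ℤ) (r : Wd) : top v (pr r) = tp v.1 v.2 r ∧ bot v (pr r) = bt v.1 v.2 r := by
  induction r with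
  | nil => simp [top, bot, tp, bt, height]
  | cons d r ih =>
    rw [pr_cons]
    simp only [top, bot, tp, bt]
    rw [ih.1, ih.2]
    exact ⟨rfl, rfl⟩

lemma sides_pr (v : ℤ × ℤ) (r : Wd) : sides v (pr r) = hs v.1 v.2 r := by
  induction r with
  | nil => simp [sides, hs, top, bot, height]
  | cons d r ih =>
    rw [pr_cons]
    simp only [sides, hs]
    rw [ih, (tops_pr v r).1, (tops_pr v r).2]
    rfl

/-- **Comparison.** -/
theorem binFlows_of_flows {c : ℝ} (hc : 0 < c) (hcrit : ENNReal.ofReal c ≤ crit) {v : ℤ × ℤ}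
    (hv : v ≠ (0, 0)) {K : List Bool → ℝ} (hK0 : ∀ x, 0 < K x) (hK1 : ∀ x y, K (x ++ y) ≤ K x)
    {S : Set (List (ℤ × ℤ))} (hS : ∀ w ∈ S, IsWalk w)
    (hT : ∀ (p : ℤ × ℤ) (w : List (ℤ × ℤ)), w ≠ [] → p :: w ∈ S → w ∈ S)
    (h : Flows S (fun w => c ^ w.length * K (sides v w))) :
    BinFlows {x | ∃ w ∈ S, x <+: sides v w} K := by
  classical
  obtain ⟨θ, h0, h1, h2, h3⟩ := h
  have hinj : Function.Injective (fun u : Wd => pr u.reverse) := by
    intro u v h
    exact List.reverse_injective (pr_injective h)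
  have hflow : ∀ u : Wd, θ (pr u.reverse) = ∑ d : Fin 4, θ (pr (u ++ [d]).reverse) := by
    intro u
    by_cases hu : pr u.reverse ∈ S
    · rw [h2 _ hu, sum_dirs (fun d => θ (((pr u.reverse).headD ((0 : ℤ), (0 : ℤ)) + d)
        :: pr u.reverse))]
      apply Finset.sum_congr rfl
      intro d _
      rw [pr_step, List.reverse_append, List.reverse_singleton, List.singleton_append]
    · rw [h0 _ hu]
      symm
      apply Finset.sum_eq_zero
      intro d _
      apply h0
      intro hd
      apply hu
      rw [List.reverse_append, List.reverse_singleton, List.singleton_append, pr_cons] at hd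
      exact hT _ _ (pr_ne_nil _) hd
  have hPQ : ¬ (v.1 = 0 ∧ v.2 = 0) := by
    rintro ⟨g1, g2⟩
    exact hv (Prod.ext g1 g2)
  have hSaw : ∀ u : Wd, θ (pr u.reverse) ≠ 0 → Saw u := by
    intro u hu
    have hu1 : pr u.reverse ∈ S := by
      by_contra hS'
      exact hu (h0 _ hS')
    have hu2 := (isWalk_pr _).mp (hS _ hu1)
    rwa [List.reverse_reverse] at hu2
  have hone : θ (pr ([] : Wd).reverse) = 1 := by simpa using h1
  have hsum : Summable (fun u : Wd => θ (pr u.reverse) ^ 2 /
      (c ^ (u.length + 1) * K (Hs v.1 v.2 u))) := by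
    refine (h3.comp_injective hinj).congr ?_
    intro u
    simp only [Function.comp]
    rw [pr_length, List.length_reverse, sides_pr]
    rfl
  obtain ⟨φ, g0, g1, g2, g3⟩ := push_flow hc hcrit hPQ hK0 hK1 (fun u => θ (pr u.reverse)) hSaw
    hone hflow hsum
  refine ⟨φ, ?_, g1, g2, g3⟩
  intro x hx
  by_contra hne
  obtain ⟨w, hw, hxw⟩ := g0 x hne
  apply hx
  refine ⟨pr w.reverse, ?_, ?_⟩
  · by_contra hS'
    exact hw (h0 _ hS')
  · rw [sides_pr]
    exact hxw

lemma sum_wc_prod {g : ℕ → ℝ} (hg : ∀ i, 0 ≤ g i) (l : ℕ) :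
    ∑ x ∈ lb l, wc g x ≤ 2 * ∏ i ∈ Finset.range l, (1 + g i) := by
  induction l with
  | zero =>
    have : lb 0 = {[]} := by
      ext u; rw [mem_lb, Finset.mem_singleton, List.length_eq_zero_iff]
    rw [this, Finset.sum_singleton]
    simp [wc]
  | succ l ih =>
    rw [sum_lb_succ]
    rcases Nat.eq_zero_or_pos l with hl | hl
    · subst hl
      have : lb 0 = {[]} := by
        ext u; rw [mem_lb, Finset.mem_singleton, List.length_eq_zero_iff]
      rw [this, Finset.sum_singleton]
      have h1 : ∀ s : Bool, wc g ([] ++ [s]) = 1 := by intro s; simp [wc]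
      simp_rw [h1]
      simp only [Finset.sum_const, Finset.card_univ, Fintype.card_bool, nsmul_eq_mul,
        Finset.prod_range_succ, Finset.prod_range_zero, one_mul]
      push_cast
      linarith [hg 0]
    · have h1 : ∀ y ∈ lb l, ∑ s : Bool, wc g (y ++ [s]) = wc g y * (1 + g l) := by
        intro y hy
        rw [mem_lb] at hy
        have hne : y ≠ [] := by intro h0; rw [h0] at hy; simp at hy; omega
        simp_rw [wc_snoc g y hne, hy]
        rw [← Finset.mul_sum]
        congr 1
        rw [Fintype.sum_bool]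
        cases y.getLast hne <;> simp
        ring
      rw [Finset.sum_congr rfl h1, ← Finset.sum_mul, Finset.prod_range_succ]
      have h3 := hg l
      nlinarith

/-- Nash-Williams criterion on the binary tree -/
lemma no_binFlows {K : List Bool → ℝ} (hK0 : ∀ x, 0 < K x) {C : ℕ → ℝ}
    (hC : ∀ l, ∑ x ∈ lb l, K x ≤ C l) (hdiv : ¬ Summable (fun l => (C l)⁻¹))
    (T : Set (List Bool)) : ¬ BinFlows T K := by
  classical
  rintro ⟨φ, _, h1, h2, h3⟩
  apply hdiv
  have hne : ∀ l, (lb l).Nonempty := by
    intro l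
    exact ⟨List.replicate l true, mem_lb.mpr (by simp)⟩
  have hCpos : ∀ l, 0 < C l := fun l => lt_of_lt_of_le
    (Finset.sum_pos (fun x _ => hK0 x) (hne l)) (hC l)
  have hone : ∀ l, ∑ x ∈ lb l, φ x = 1 := by
    intro l
    induction l with
    | zero =>
      have : lb 0 = {[]} := by
        ext u; rw [mem_lb, Finset.mem_singleton, List.length_eq_zero_iff]
      rw [this, Finset.sum_singleton, h1]
    | succ l ih =>
      rw [sum_lb_succ, ← ih]
      apply Finset.sum_congr rfl
      intro y _
      rw [Fintype.sum_bool]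
      exact (h2 y).symm
  have hlev : ∀ l, (C l)⁻¹ ≤ ∑ x ∈ lb l, φ x ^ 2 / K x := by
    intro l
    have hcs := Finset.sq_sum_div_le_sum_sq_div (lb l) φ (fun x _ => hK0 x)
    rw [hone l] at hcs
    refine le_trans ?_ hcs
    rw [one_pow, one_div]
    exact inv_anti₀ (Finset.sum_pos (fun x _ => hK0 x) (hne l)) (hC l)
  refine summable_of_sum_range_le (c := ∑' x, φ x ^ 2 / K x)
    (fun l => (inv_pos.mpr (hCpos l)).le) ?_
  intro n
  have hdisj : ∀ l ∈ (Finset.range n : Finset ℕ), ∀ l' ∈ (Finset.range n : Finset ℕ), l ≠ l' →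
      Disjoint (lb l) (lb l') := by
    intro l _ l' _ hll
    rw [Finset.disjoint_left]
    intro x hx hx'
    rw [mem_lb] at hx hx'
    exact hll (hx.symm.trans hx')
  calc ∑ l ∈ Finset.range n, (C l)⁻¹ ≤ ∑ l ∈ Finset.range n, ∑ x ∈ lb l, φ x ^ 2 / K x :=
        Finset.sum_le_sum (fun l _ => hlev l)
    _ = ∑ x ∈ (Finset.range n).biUnion lb, φ x ^ 2 / K x := (Finset.sum_biUnion hdisj).symm
    _ ≤ _ := h3.sum_le_tsum _ (fun x _ => div_nonneg (sq_nonneg _) (hK0 x).le)

lemma turns_mono {g : ℕ → ℝ} (hg : ∀ i, 0 < g i ∧ g i ≤ 1) (x y : List Bool) :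
    turns g (x ++ y) ≤ turns g x := by
  unfold turns
  rcases eq_or_ne x [] with rfl | hx
  · simp only [List.nil_append, List.length_nil, zero_tsub, Finset.range_zero, Finset.prod_empty]
    apply Finset.prod_le_one
    · intro i _; split_ifs
      · exact zero_le_one
      · exact (hg _).1.le
    · intro i _; split_ifs
      · exact le_refl _
      · exact (hg _).2
  · have hl : 0 < x.length := List.length_pos_iff.mpr hx
    obtain ⟨k, hk⟩ : ∃ k, (x ++ y).length - 1 = (x.length - 1) + k :=
      ⟨y.length, by rw [List.length_append]; omega⟩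
    rw [hk, Finset.prod_range_add]
    have e1 : (∏ i ∈ Finset.range (x.length - 1),
        if (x ++ y).getD i false = (x ++ y).getD (i + 1) false then 1 else g (i + 1))
        = ∏ i ∈ Finset.range (x.length - 1),
          if x.getD i false = x.getD (i + 1) false then 1 else g (i + 1) := by
      apply Finset.prod_congr rfl
      intro i hi
      rw [Finset.mem_range] at hi
      rw [List.getD_append _ _ _ _ (by omega), List.getD_append _ _ _ _ (by omega)]
    rw [e1]
    have h0 : 0 ≤ ∏ i ∈ Finset.range (x.length - 1),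
          if x.getD i false = x.getD (i + 1) false then 1 else g (i + 1) := by
      apply Finset.prod_nonneg
      intro i _; split_ifs
      · exact zero_le_one
      · exact (hg _).1.le
    apply mul_le_of_le_one_right h0
    apply Finset.prod_le_one
    · intro i _; split_ifs
      · exact zero_le_one
      · exact (hg _).1.le
    · intro i _; split_ifs
      · exact le_refl _
      · exact (hg _).2

lemma turns_pos {g : ℕ → ℝ} (hg : ∀ i, 0 < g i ∧ g i ≤ 1) (x : List Bool) : 0 < turns g x := by
  apply Finset.prod_pos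
  intro i _; split_ifs
  · exact zero_lt_one
  · exact (hg _).1

/-- **Weights of turns.** -/
theorem no_flows_turns {c : ℝ} (hc : 0 < c) (hcrit : ENNReal.ofReal c ≤ crit) {v : ℤ × ℤ}
    (hv : v ≠ (0, 0)) {g : ℕ → ℝ} (hg : ∀ i, 0 < g i ∧ g i ≤ 1)
    (hdiv : ¬ Summable (fun l : ℕ => (∏ i ∈ Finset.range l, (1 + g i))⁻¹)) :
    ¬ Flows {w | IsWalk w} (fun w => c ^ w.length * turns g (sides v w)) := by
  intro h
  have h1 := binFlows_of_flows hc hcrit hv (turns_pos hg) (turns_mono hg) (fun w hw => hw) ?_ h
  · refine no_binFlows (turns_pos hg) (C := fun l => 2 * ∏ i ∈ Finset.range l, (1 + g i)) ?_ ?_ _ h1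
    · intro l
      exact sum_wc_prod (fun i => (hg i).1.le) l
    · intro hs
      apply hdiv
      have := hs.mul_left 2
      refine this.congr ?_
      intro l
      have : 0 < ∏ i ∈ Finset.range l, (1 + g i) :=
        Finset.prod_pos (fun i _ => by linarith [(hg i).1])
      field_simp
  · intro p w hw hp
    obtain ⟨r, hr⟩ := isWalk_tr (show IsWalk (p :: w) from hp)
    cases r with
    | nil =>
      rw [pr_nil] at hr
      exact absurd (List.cons.inj hr).2 hw
    | cons d r =>
      have hsaw := (isWalk_pr (d :: r)).mp (hr ▸ hp)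
      have e : w = pr r := by
        rw [pr_cons] at hr
        exact (List.cons.inj hr).2
      show IsWalk w
      rw [e, isWalk_pr]
      rw [List.reverse_cons] at hsaw
      exact hsaw.left rfl

end Pool.Agent.SawHalf
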