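import Pool.Agent.SawHalf.Met

open scoped ENNReal
open Filter Topology
open Pool.Agent.SawTree

namespace Pool.Agent.SawHalf

/-- A tree of words of bounded branching with words of every length has an infinite word. -/
lemma exists_ray {D : Wd → Prop} (hD : ∀ a c, D (a ++ c) → D a)
    (h : ∀ m : ℕ, ∃ w, D w ∧ w.length = m) : ∃ γ : ℕ → Fin 4, ∀ n, D (pc γ n) := by
  classical
  let Big : Wd → Prop := fun w => ∀ m : ℕ, ∃ x : Wd, x.length = m ∧ D (w ++ x)
  have hroot : Big [] := by
    intro m
    obtain ⟨w, h1, h2⟩ := h m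
    exact ⟨w, h2, by simpa using h1⟩
  have hstep : ∀ w, Big w → ∃ d : Fin 4, Big (w ++ [d]) := by
    intro w hw
    by_contra hcon
    push Not at hcon
    have hcon' : ∀ d : Fin 4, ∃ m : ℕ, ∀ x : Wd, x.length = m → ¬ D (w ++ [d] ++ x) := by
      intro d
      have := hcon d
      simp only [Big] at this
      push Not at this
      exact this
    choose m hm using hcon'
    set M := ∑ d, m d with hM
    obtain ⟨x, hx1, hx2⟩ := hw (M + 1)
    cases x with
    | nil => simp at hx1
    | cons d x =>
      simp only [List.length_cons, Nat.add_right_cancel_iff] at hx1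
      have hle : m d ≤ x.length := by
        rw [hx1, hM]
        exact Finset.single_le_sum (f := m) (fun _ _ => Nat.zero_le _) (Finset.mem_univ d)
      apply hm d (x.take (m d)) (by simp [hle])
      apply hD _ (x.drop (m d))
      have : w ++ [d] ++ x.take (m d) ++ x.drop (m d) = w ++ d :: x := by simp
      rw [this]; exact hx2
  choose nx hnx using hstep
  let sq : ℕ → {w : Wd // Big w} := fun n =>
    Nat.rec ⟨[], hroot⟩ (fun _ w => ⟨w.1 ++ [nx w.1 w.2], hnx w.1 w.2⟩) n
  have hsq : ∀ n, (sq (n + 1)).1 = (sq n).1 ++ [nx (sq n).1 (sq n).2] := fun n => rfl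
  refine ⟨fun n => nx (sq n).1 (sq n).2, ?_⟩
  have hpc : ∀ n, pc (fun n => nx (sq n).1 (sq n).2) n = (sq n).1 := by
    intro n
    induction n with
    | zero => simp [sq]
    | succ n ih => rw [pc_succ, ih, hsq]
  intro n
  rw [hpc]
  obtain ⟨x, hx1, hx2⟩ := (sq n).2 0
  exact hD _ x hx2

lemma sum_wordsF_succ (g : Wd → ℝ) (l : ℕ) :
    ∑ w ∈ wordsF (l + 1), g w = ∑ u ∈ wordsF l, ∑ d : Fin 4, g (u ++ [d]) := by
  classical
  have h1 : wordsF (l + 1) = ((wordsF l) ×ˢ (Finset.univ : Finset (Fin 4))).image
      (fun p => p.1 ++ [p.2]) := by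
    ext u
    rw [mem_wordsF, Finset.mem_image]
    constructor
    · intro h
      have hne : u ≠ [] := by intro h0; rw [h0] at h; simp at h
      refine ⟨(u.dropLast, u.getLast hne), ?_, List.dropLast_append_getLast hne⟩
      rw [Finset.mem_product]
      refine ⟨mem_wordsF.mpr ?_, Finset.mem_univ _⟩
      rw [List.length_dropLast]; omega
    · rintro ⟨⟨v, d⟩, hp, rfl⟩
      rw [Finset.mem_product, mem_wordsF] at hp
      simp only at hp
      simp [hp.1]
  rw [h1, Finset.sum_image, Finset.sum_product]
  rintro ⟨v, d⟩ _ ⟨v', d'⟩ _ h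
  simp only at h
  have h2 := List.append_inj' h rfl
  simp at h2
  exact Prod.ext h2.1 h2.2

/-- accumulated weights along a word -/
def acc (r : Wd → ℝ) (w : Wd) : ℝ := ∑ i ∈ Finset.range (w.length + 1), r (w.take i)

lemma acc_snoc (r : Wd → ℝ) (w : Wd) (d : Fin 4) :
    acc r (w ++ [d]) = acc r w + r (w ++ [d]) := by
  unfold acc
  have hl : (w ++ [d]).length + 1 = (w.length + 1) + 1 := by simp
  rw [hl, Finset.sum_range_succ]
  congr 1
  · apply Finset.sum_congr rfl
    intro i hi
    rw [Finset.mem_range] at hi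
    rw [List.take_append_of_le_length (by omega)]
  · rw [List.take_of_length_le (by simp)]

lemma acc_nonneg {r : Wd → ℝ} (hr : ∀ w, 0 ≤ r w) (w : Wd) : 0 ≤ acc r w :=
  Finset.sum_nonneg (fun _ _ => hr _)

lemma acc_mono {r : Wd → ℝ} (hr : ∀ w, 0 ≤ r w) (a c : Wd) : acc r a ≤ acc r (a ++ c) := by
  induction c using List.reverseRecOn with
  | nil => simp
  | append_singleton c d ih =>
    rw [← List.append_assoc, acc_snoc]
    have := hr (a ++ c ++ [d])
    linarith

/-- **Criterion.** If the infinite words of the tree form a null class, there is no unit flow of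
finite energy. -/
theorem no_flow_of_nul {b : ℝ} (hb : 0 < b) {T : Wd → Prop} (hT : ∀ a c, T (a ++ c) → T a)
    (θ : Wd → ℝ) (h0 : ∀ u, ¬ T u → θ u = 0) (h1 : θ [] = 1)
    (hflow : ∀ u, T u → θ u = ∑ d : Fin 4, θ (u ++ [d]))
    (hsum : Summable (fun u : Wd => θ u ^ 2 / b ^ (u.length + 1)))
    {C : Set (ℕ → Fin 4)} (hC : Nul (ENNReal.ofReal b) C)
    (hray : ∀ γ : ℕ → Fin 4, (∀ n, T (pc γ n)) → γ ∈ C) : False := by
  classical
  obtain ⟨ρ, hρ1, hρ2⟩ := hC
  set z := ENNReal.ofReal b with hz
  have hz0 : z ≠ 0 := (ENNReal.ofReal_pos.mpr hb).ne'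
  have hzt : z ≠ ⊤ := ENNReal.ofReal_ne_top
  have hflow' : ∀ u, θ u = ∑ d : Fin 4, θ (u ++ [d]) := by
    intro u
    by_cases hu : T u
    · exact hflow u hu
    · rw [h0 u hu]
      symm
      apply Finset.sum_eq_zero
      intro d _
      exact h0 _ (fun h => hu (hT _ _ h))
  -- finiteness of the weights
  have hρt : ∀ w, ρ w ≠ ⊤ := by
    intro w hw
    apply hρ1
    rw [eq_top_iff]
    calc ⊤ = ρ w ^ 2 * z ^ w.length := by
          rw [hw, ENNReal.top_pow (by norm_num), ENNReal.top_mul (pow_ne_zero _ hz0)]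
      _ ≤ _ := ENNReal.le_tsum w
  set r : Wd → ℝ := fun w => (ρ w).toReal with hr
  have hr0 : ∀ w, 0 ≤ r w := fun w => ENNReal.toReal_nonneg
  have hρr : ∀ w, ρ w = ENNReal.ofReal (r w) := fun w => (ENNReal.ofReal_toReal (hρt w)).symm
  -- energy of the weights
  obtain ⟨R, hR0, hR⟩ : ∃ R : ℝ, 0 ≤ R ∧ ∀ F : Finset Wd,
      ∑ w ∈ F, r w ^ 2 * b ^ w.length ≤ R := by
    refine ⟨(∑' w, ρ w ^ 2 * z ^ w.length).toReal, ENNReal.toReal_nonneg, ?_⟩
    intro F
    have e1 : ENNReal.ofReal (∑ w ∈ F, r w ^ 2 * b ^ w.length)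
        ≤ ∑' w, ρ w ^ 2 * z ^ w.length := by
      rw [ENNReal.ofReal_sum_of_nonneg (fun w _ => by positivity)]
      calc ∑ w ∈ F, ENNReal.ofReal (r w ^ 2 * b ^ w.length)
          = ∑ w ∈ F, ρ w ^ 2 * z ^ w.length := by
            apply Finset.sum_congr rfl
            intro w _
            rw [ENNReal.ofReal_mul (by positivity), ENNReal.ofReal_pow (hr0 w),
              ENNReal.ofReal_pow hb.le, ← hρr]
        _ ≤ _ := ENNReal.sum_le_tsum F
    exact (ENNReal.ofReal_le_iff_le_toReal hρ1).mp e1
  -- energy of the flow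
  obtain ⟨E, hE0, hE⟩ : ∃ E : ℝ, 0 ≤ E ∧ ∀ F : Finset Wd,
      ∑ w ∈ F, θ w ^ 2 / b ^ (w.length + 1) ≤ E :=
    ⟨∑' w, θ w ^ 2 / b ^ (w.length + 1), tsum_nonneg (fun w => by positivity),
      fun F => hsum.sum_le_tsum F (fun w _ => by positivity)⟩
  -- every long word is long for the weights
  have hkon : ∀ M : ℝ, ∃ m : ℕ, ∀ w, T w → w.length = m → M ≤ acc r w := by
    intro M
    by_contra hcon
    push Not at hcon
    obtain ⟨γ, hγ⟩ := exists_ray (D := fun w => T w ∧ acc r w < M) (by
      rintro a c ⟨g1, g2⟩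
      exact ⟨hT a c g1, lt_of_le_of_lt (acc_mono hr0 a c) g2⟩) (by
      intro m
      obtain ⟨w, g1, g2, g3⟩ := hcon m
      exact ⟨w, ⟨g1, g3⟩, g2⟩)
    have hin := hρ2 γ (hray γ (fun n => (hγ n).1))
    have hle : ∑' n, ρ (pc γ n) ≤ ENNReal.ofReal M := by
      apply ENNReal.tsum_le_of_sum_range_le
      intro n
      cases n with
      | zero => simp
      | succ n =>
        have e1 : ∑ i ∈ Finset.range (n + 1), ρ (pc γ i) = ENNReal.ofReal (acc r (pc γ n)) := by
          unfold acc
          rw [ENNReal.ofReal_sum_of_nonneg (fun w _ => hr0 _), pc_length]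
          apply Finset.sum_congr rfl
          intro i hi
          rw [Finset.mem_range] at hi
          rw [pc_take γ (by omega), ← hρr]
        rw [e1]
        exact ENNReal.ofReal_le_ofReal (hγ n).2.le
    rw [hin] at hle
    exact absurd (lt_of_le_of_lt hle ENNReal.ofReal_lt_top) (lt_irrefl _)
  -- main estimate
  have hmain : ∀ M : ℝ, 0 ≤ M → M ^ 2 ≤ E * (b * R) := by
    intro M hM
    obtain ⟨m, hm⟩ := hkon M
    set F : Wd → ℝ := fun w => min (acc r w) M with hF
    set D : Wd → ℝ := fun w => if w = [] then F [] else F w - F w.dropLast with hD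
    have hDsnoc : ∀ u d, D (u ++ [d]) = F (u ++ [d]) - F u := by
      intro u d
      rw [hD]
      simp
    have hDr : ∀ w, 0 ≤ D w ∧ D w ≤ r w := by
      intro w
      induction w using List.reverseRecOn with
      | nil =>
        rw [hD]
        simp only [if_true]
        have : acc r [] = r [] := by simp [acc]
        rw [hF]
        simp only
        rw [this]
        exact ⟨le_min (hr0 _) hM, min_le_left _ _⟩
      | append_singleton u d _ =>
        rw [hDsnoc, hF]
        simp only
        rw [acc_snoc]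
        have g1 := hr0 (u ++ [d])
        constructor
        · have : min (acc r u) M ≤ min (acc r u + r (u ++ [d])) M :=
            min_le_min_right _ (by linarith)
          linarith
        · rcases le_total (acc r u) M with g2 | g2
          · rw [min_eq_left g2]
            have := min_le_left (acc r u + r (u ++ [d])) M
            linarith
          · rw [min_eq_right g2]
            have := min_le_right (acc r u + r (u ++ [d])) M
            linarith
    have hlev : ∀ l, ∑ w ∈ wordsF l, θ w = 1 := by
      intro l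
      induction l with
      | zero =>
        have : wordsF 0 = {[]} := by
          ext u; rw [mem_wordsF, Finset.mem_singleton, List.length_eq_zero_iff]
        rw [this, Finset.sum_singleton, h1]
      | succ l ih =>
        rw [sum_wordsF_succ, ← ih]
        exact Finset.sum_congr rfl (fun u _ => (hflow' u).symm)
    have htel : ∀ l, ∑ w ∈ wordsF l, θ w * F w
        = ∑ i ∈ Finset.range (l + 1), ∑ w ∈ wordsF i, θ w * D w := by
      intro l
      induction l with
      | zero =>
        have : wordsF 0 = {[]} := by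
          ext u; rw [mem_wordsF, Finset.mem_singleton, List.length_eq_zero_iff]
        rw [Finset.sum_range_one, this, Finset.sum_singleton, Finset.sum_singleton]
        rw [hD]
        simp
      | succ l ih =>
        rw [Finset.sum_range_succ, ← ih, sum_wordsF_succ, sum_wordsF_succ, ← Finset.sum_add_distrib]
        apply Finset.sum_congr rfl
        intro u _
        rw [hflow' u, Finset.sum_mul, ← Finset.sum_add_distrib]
        apply Finset.sum_congr rfl
        intro d _
        rw [hDsnoc]
        ring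
    have hA : ∑ w ∈ wordsF m, θ w * F w = M := by
      calc ∑ w ∈ wordsF m, θ w * F w = ∑ w ∈ wordsF m, θ w * M := by
            apply Finset.sum_congr rfl
            intro w hw
            by_cases hTw : T w
            · have := hm w hTw (mem_wordsF.mp hw)
              rw [hF]
              simp only
              rw [min_eq_right this]
            · rw [h0 w hTw]; simp
        _ = M := by rw [← Finset.sum_mul, hlev, one_mul]
    set P : Finset Wd := (Finset.range (m + 1)).biUnion wordsF with hP
    have hPs : ∑ i ∈ Finset.range (m + 1), ∑ w ∈ wordsF i, θ w * D w = ∑ w ∈ P, θ w * D w := by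
      rw [hP, Finset.sum_biUnion]
      intro i _ j _ hij
      rw [Function.onFun, Finset.disjoint_left]
      intro u g1 g2
      exact hij ((mem_wordsF.mp g1).symm.trans (mem_wordsF.mp g2))
    have hMP : M = ∑ w ∈ P, θ w * D w := by rw [← hPs, ← htel, hA]
    have hcs : (∑ w ∈ P, θ w * D w) ^ 2 ≤ (∑ w ∈ P, θ w ^ 2 / b ^ (w.length + 1)) *
        (∑ w ∈ P, D w ^ 2 * b ^ (w.length + 1)) := by
      apply Finset.sum_sq_le_sum_mul_sum_of_sq_le_mul
      · intro v _; positivity
      · intro v _; positivity
      · intro v _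
        apply le_of_eq
        field_simp
    rw [hMP]
    refine le_trans hcs ?_
    apply mul_le_mul (hE P) _ (Finset.sum_nonneg (fun w _ => by positivity)) hE0
    calc ∑ w ∈ P, D w ^ 2 * b ^ (w.length + 1) ≤ ∑ w ∈ P, b * (r w ^ 2 * b ^ w.length) := by
          apply Finset.sum_le_sum
          intro w _
          have g1 := (hDr w).1
          have g2 := (hDr w).2
          have g3 : D w ^ 2 ≤ r w ^ 2 := pow_le_pow_left₀ g1 g2 2
          have g4 : 0 ≤ b ^ (w.length + 1) := by positivity
          calc D w ^ 2 * b ^ (w.length + 1) ≤ r w ^ 2 * b ^ (w.length + 1) :=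
                mul_le_mul_of_nonneg_right g3 g4
            _ = b * (r w ^ 2 * b ^ w.length) := by ring
      _ = b * ∑ w ∈ P, r w ^ 2 * b ^ w.length := by rw [Finset.mul_sum]
      _ ≤ b * R := mul_le_mul_of_nonneg_left (hR P) hb.le
  have hfin := hmain (E * (b * R) + 1) (by positivity)
  have hpos : 0 ≤ E * (b * R) := by positivity
  nlinarith

end Pool.Agent.SawHalf
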