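import Pool.Agent.SawHalf.Gen

open scoped ENNReal
open Filter Topology
open Pool.Agent.SawTree

namespace Pool.Agent.SawHalf

lemma brE_decomp {E : Wd → Prop} (hE : Cl E) : ∀ n : ℕ, ∀ u : Wd, u.length ≤ n → u ∈ BrE E →
    ∃ k, u ∈ Kf {u | Irr u ∧ E u} k := by
  intro n
  induction n with
  | zero =>
    intro u hu _
    refine ⟨0, ?_⟩
    exact List.length_eq_zero_iff.mp (by omega)
  | succ n ih =>
    intro u hu hB
    by_cases hne : u = []
    · exact ⟨0, hne⟩
    · obtain ⟨a, b, h1, h2, h3⟩ := exists_first hB.1 hne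
      have hapos : 0 < a.length := List.length_pos_iff.mpr h2.2.1
      have hlen : b.length ≤ n := by
        rw [h1, List.length_append] at hu
        omega
      obtain ⟨k, hk⟩ := ih b hlen ⟨h3, hE.right hB.2 h1⟩
      exact ⟨k + 1, a, ⟨h2, hE.left hB.2 h1⟩, b, hk, h1⟩

lemma BrE_fin {z : ℝ≥0∞} {E : Wd → Prop} (hE : Cl E) (hlt : Wt z {u | Irr u ∧ E u} < 1) :
    Wt z (BrE E) ≠ ⊤ := by
  have h1 : Wt z (BrE E) ≤ ∑' k, (Wt z {u | Irr u ∧ E u}) ^ k := by
    calc Wt z (BrE E) ≤ Wt z (⋃ k, Kf {u | Irr u ∧ E u} k) := by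
          apply Wt_mono
          intro u hu
          obtain ⟨k, hk⟩ := brE_decomp hE u.length u (le_refl _) hu
          exact Set.mem_iUnion.mpr ⟨k, hk⟩
      _ ≤ ∑' k, Wt z (Kf {u | Irr u ∧ E u} k) := Wt_iUnion_le _
      _ ≤ ∑' k, (Wt z {u | Irr u ∧ E u}) ^ k := ENNReal.tsum_le_tsum (fun k => Kf_le_pow k)
  rw [ENNReal.tsum_geometric] at h1
  apply ne_top_of_le_ne_top _ h1
  rw [ENNReal.inv_ne_top]
  exact (tsub_pos_of_lt hlt).ne'

/-- height in the direction `(p, q)` -/
noncomputable def hh (p q : ℝ) (u : Wd) : ℝ := p * (X u : ℝ) + q * (Y u : ℝ)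

section
variable {p q : ℝ}

@[simp] lemma hh_nil : hh p q [] = 0 := by simp [hh]

@[simp] lemma hh_append (u v : Wd) : hh p q (u ++ v) = hh p q u + hh p q v := by
  simp only [hh, X_append, Y_append]; push_cast; ring

@[simp] lemma hh_reverse (u : Wd) : hh p q u.reverse = hh p q u := by
  simp only [hh, X_reverse, Y_reverse]

@[simp] lemma hh_ng (u : Wd) : hh p q (u.map ng) = - hh p q u := by
  simp only [hh, X_ng, Y_ng]; push_cast; ring

lemma hh_cons (d : Fin 4) (u : Wd) : hh p q (d :: u) = hh p q [d] + hh p q u := by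
  have := hh_append (p := p) (q := q) [d] u
  simpa using this

lemma abs_step (d : Fin 4) : |hh p q [d]| ≤ |p| + |q| := by
  fin_cases d <;> simp [hh, X, Y, vx, vy]

lemma abs_hh_le (u : Wd) : |hh p q u| ≤ (|p| + |q|) * u.length := by
  induction u with
  | nil => simp
  | cons d u ih =>
    rw [hh_cons, List.length_cons]
    have h1 := abs_add_le (hh p q [d]) (hh p q u)
    have h2 := abs_step (p := p) (q := q) d
    push_cast
    nlinarith

/-- words of extent less than `L` in the direction `(p, q)` -/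
def Ex (p q L : ℝ) (u : Wd) : Prop := ∀ a b c, u = a ++ b ++ c → |hh p q b| < L

lemma cl_Ex (L : ℝ) : Cl (Ex p q L) := by
  refine ⟨?_, ?_, ?_⟩
  · intro u a b c h e a' b' c' e'
    apply h (a ++ a') b' (c' ++ c)
    rw [e, e']; simp [List.append_assoc]
  · intro u h a b c e
    have e' : u = c.reverse ++ b.reverse ++ a.reverse := by
      rw [← List.reverse_reverse u, e]; simp
    have := h _ _ _ e'
    rwa [hh_reverse] at this
  · intro u h a b c e
    have e' : u = a.map ng ++ b.map ng ++ c.map ng := by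
      rw [← ng_ng u, e]; simp
    have := h _ _ _ e'
    rwa [hh_ng, abs_neg] at this

lemma Ex_mono {L L' : ℝ} (hL : L ≤ L') {u : Wd} (h : Ex p q L u) : Ex p q L' u :=
  fun a b c e => lt_of_lt_of_le (h a b c e) hL

lemma Ex_cons {L : ℝ} {u : Wd} (h : Ex p q L u) : Ex p q (L + |p|) (0 :: u) := by
  intro a b c e
  rcases List.cons_eq_append_iff.mp (by rw [List.append_assoc] at e; exact e) with
    ⟨h3, h4⟩ | ⟨a', h3, h4⟩
  · rcases List.append_eq_cons_iff.mp h4 with ⟨h5, _⟩ | ⟨b', h5, h6⟩
    · rw [h5, hh_nil, abs_zero]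
      have h0 := h [] [] u (by simp)
      rw [hh_nil, abs_zero] at h0
      have := abs_nonneg p
      linarith
    · rw [h5, hh_cons]
      have h1 := h [] b' c (by simpa using h6)
      have h2 := abs_add_le (hh p q [0]) (hh p q b')
      have h3 : hh p q [0] = p := by simp [hh, X, Y, vx, vy]
      rw [h3] at h2 ⊢
      linarith
  · have h5 : u = a' ++ b ++ c := by rw [List.append_assoc]; exact h4
    have h1 := h a' b c h5
    have := abs_nonneg p
    linarith

lemma irrEx_lt_one {z : ℝ≥0∞} (hz0 : 0 < z) (hz : z ≤ crit) (hq : q ≠ 0) (L : ℝ) :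
    Wt z {u | Irr u ∧ Ex p q L u} < 1 := by
  obtain ⟨N, hN⟩ := exists_nat_gt (L / |q|)
  have hq' : 0 < |q| := abs_pos.mpr hq
  have hNL : L < |q| * N := by
    rw [div_lt_iff₀ hq'] at hN
    linarith
  have hnot : ¬ Ex p q L (tall N) := by
    intro h
    have h1 := h [] (List.replicate N 2) [0] (by simp [tall])
    have h2 : hh p q (List.replicate N 2) = q * N := by
      simp [hh, X, Y, vx, vy]
    rw [h2, abs_mul, Nat.abs_cast] at h1
    linarith
  have h1 : Wt z {u | Irr u ∧ Ex p q L u} + Wt z {tall N} ≤ Wt z {u | Irr u} := by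
    apply Wt_disj
    · rw [Set.disjoint_singleton_right]
      intro h
      exact hnot h.2
    · intro u hu; exact hu.1
    · intro u hu
      have : u = tall N := hu
      rw [this]; exact tall_irr N
  rw [Wt_singleton] at h1
  have h2 := le_trans h1 (irr_le_one hz0 hz)
  have hpos : 0 < z ^ (tall N).length := pos_iff_ne_zero.mpr (pow_ne_zero _ hz0.ne')
  have hfin : Wt z {u | Irr u ∧ Ex p q L u} ≠ ⊤ := by
    apply ne_top_of_le_ne_top ENNReal.one_ne_top
    exact le_trans le_self_add h2
  exact lt_of_lt_of_le (ENNReal.lt_add_right hfin hpos.ne') h2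

/-- self-avoiding words in a strip orthogonal to `(p, q)` -/
def Sr (p q L : ℝ) : Set Wd := {u | Saw u ∧ Ex p q L u}

theorem Sr_fin {z : ℝ≥0∞} (hz0 : 0 < z) (hz : z ≤ crit) (hq : q ≠ 0) (L : ℝ) :
    Wt z (Sr p q L) ≠ ⊤ := by
  apply StE_fin hz0 (cl_Ex L) (cl_Ex (L + |p|))
  · intro u hu
    exact Ex_mono (by have := abs_nonneg p; linarith) hu
  · intro u hu
    exact Ex_cons hu
  · exact BrE_fin (cl_Ex _) (irrEx_lt_one hz0 hz hq _)

/-- some late level of the strip has weight at most one -/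
lemma exists_levelR {z : ℝ≥0∞} (hz0 : 0 < z) (hz : z ≤ crit) (hq : q ≠ 0) (L : ℝ) (N : ℕ) :
    ∃ m, N ≤ m ∧ Wt z {u | u ∈ Sr p q L ∧ u.length = m} ≤ 1 := by
  by_contra hcon
  push Not at hcon
  have hsum : ∀ n : ℕ, ∑ m ∈ Finset.range n, Wt z {u | u ∈ Sr p q L ∧ u.length = N + m}
      ≤ Wt z {u | u ∈ Sr p q L ∧ u.length < N + n} := by
    intro n
    induction n with
    | zero => simp
    | succ n ih =>
      rw [Finset.sum_range_succ]
      refine le_trans (add_le_add_left ih _) ?_
      apply Wt_disj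
      · rw [Set.disjoint_left]
        rintro u ⟨_, h1⟩ ⟨_, h2⟩
        omega
      · rintro u ⟨h1, h2⟩
        exact ⟨h1, by omega⟩
      · rintro u ⟨h1, h2⟩
        exact ⟨h1, by omega⟩
  have hlow : ∀ n : ℕ, (n : ℝ≥0∞) ≤ Wt z (Sr p q L) := by
    intro n
    calc (n : ℝ≥0∞) = ∑ _m ∈ Finset.range n, (1 : ℝ≥0∞) := by simp
      _ ≤ ∑ m ∈ Finset.range n, Wt z {u | u ∈ Sr p q L ∧ u.length = N + m} :=
          Finset.sum_le_sum (fun m _ => (hcon (N + m) (by omega)).le)
      _ ≤ Wt z {u | u ∈ Sr p q L ∧ u.length < N + n} := hsum n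
      _ ≤ Wt z (Sr p q L) := Wt_mono (fun u hu => hu.1)
  have hfin := Sr_fin (p := p) hz0 hz hq L
  obtain ⟨n, hn⟩ := ENNReal.exists_nat_gt hfin
  exact absurd (hlow n) (not_le_of_gt hn)

/-- first passage words above height `L` which stay at nonnegative heights -/
def FR (p q L : ℝ) : Set Wd := {u | Saw u ∧ (∀ a b, u = a ++ b → 0 ≤ hh p q a) ∧ L ≤ hh p q u ∧
  ∀ a b, u = a ++ b → b ≠ [] → hh p q a < L}

/-- self-avoiding words of nonnegative heights -/
def NN (p q : ℝ) : Set Wd := {u | Saw u ∧ ∀ a b, u = a ++ b → 0 ≤ hh p q a}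

lemma FR_append {L : ℝ} {u v : Wd} (hu : u ∈ FR p q L) (hv : v ∈ NN p q) :
    u ++ v ∈ NN p q := by
  obtain ⟨h1, h2, h3, h4⟩ := hu
  obtain ⟨g1, g2⟩ := hv
  refine ⟨?_, ?_⟩
  · intro a b c h hb
    rcases infix_append h with ⟨c', e⟩ | ⟨a', e⟩ | ⟨b1, b2, e1, e2, e3, e4, e5⟩
    · exact h1 a b c' e hb
    · exact g1 a' b c e hb
    · rintro ⟨hx, hy⟩
      have h5 : hh p q b = 0 := by simp [hh, hx, hy]
      have h6 := h4 a b1 e2 e4
      have h7 : hh p q u = hh p q a + hh p q b1 := by rw [e2]; simp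
      have h8 := g2 b2 c e3
      rw [e1, hh_append] at h5
      linarith
  · intro a b h
    rcases List.append_eq_append_iff.mp h with ⟨a', h5, h6⟩ | ⟨c', h5, h6⟩
    · rw [h5, hh_append]
      have h7 := g2 a' b h6
      have h8 := h2 u [] (by simp)
      linarith
    · exact h2 a c' h5

lemma FR_unique {L : ℝ} {u v u' v' : Wd} (hu : u ∈ FR p q L) (hu' : u' ∈ FR p q L)
    (h : u ++ v = u' ++ v') : u = u' ∧ v = v' := by
  rcases List.append_eq_append_iff.mp h with ⟨c, h1, h2⟩ | ⟨c, h1, h2⟩
  · by_cases hc : c = []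
    · subst hc
      simp at h1 h2
      exact ⟨h1.symm, h2⟩
    · exfalso
      have h3 := hu'.2.2.2 u c h1 hc
      have h4 := hu.2.2.1
      linarith
  · by_cases hc : c = []
    · subst hc
      simp at h1 h2
      exact ⟨h1, h2.symm⟩
    · exfalso
      have h3 := hu.2.2.2 u' c h1 hc
      have h4 := hu'.2.2.1
      linarith

lemma Kf_NN {L : ℝ} (k : ℕ) : ∀ u ∈ Kf (FR p q L) k, u ∈ NN p q := by
  induction k with
  | zero =>
    intro u hu
    have : u = [] := hu
    rw [this]
    refine ⟨saw_nil, ?_⟩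
    intro a b h
    simp at h
    simp [h.1]
  | succ k ih =>
    rintro u ⟨a, ha, b, hb, rfl⟩
    exact FR_append ha (ih b hb)

lemma FR_pow_le {z : ℝ≥0∞} {L : ℝ} (k : ℕ) :
    (Wt z (FR p q L)) ^ k ≤ Wt z (Kf (FR p q L) k) := by
  induction k with
  | zero =>
    simp only [pow_zero, Kf]
    rw [Wt_singleton]; simp
  | succ k ih =>
    rw [pow_succ']
    refine le_trans (mul_le_mul_right ih _) ?_
    apply Wt_mul_le
    · intro u hu v hv
      exact ⟨u, hu, v, hv, rfl⟩
    · intro u hu v hv u' hu' v' hv' h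
      exact FR_unique hu hu' h

theorem FR_le {z : ℝ≥0∞} (hz0 : 0 < z) (hz : z ≤ crit) (L : ℝ) : Wt z (FR p q L) ≤ 1 := by
  apply Wt_crit_le hz0 hz
  intro z' hz'
  by_cases h0 : z' = 0
  · -- only the empty word has positive weight
    subst h0
    calc Wt 0 (FR p q L) ≤ Wt 0 ({[]} ∪ {u : Wd | u ≠ []}) := by
          apply Wt_mono
          intro u _
          by_cases h : u = []
          · left; exact h
          · right; exact h
      _ ≤ Wt 0 {([] : Wd)} + Wt 0 {u : Wd | u ≠ []} := Wt_union_le _ _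
      _ = 1 + 0 := by
          congr 1
          · rw [Wt_singleton]; simp
          · unfold Wt
            rw [ENNReal.tsum_eq_zero]
            rintro ⟨u, hu⟩
            have : u.length ≠ 0 := by
              intro h
              exact hu (List.length_eq_zero_iff.mp h)
            simp only
            exact zero_pow this
      _ = 1 := by simp
  · apply le_one_of_pow_le (Saw_fin (pos_iff_ne_zero.mpr h0) hz')
    intro k
    exact le_trans (FR_pow_le k) (Wt_mono (fun u hu => (Kf_NN k u hu).1))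

/-- words which stay at heights at least `-e` -/
def Dp (p q e : ℝ) (u : Wd) : Prop := Saw u ∧ ∀ a b, u = a ++ b → -e ≤ hh p q a

/-- first passage words above height `L` which stay at heights at least `-e` -/
def FD (p q e L : ℝ) : Set Wd := {u | Dp p q e u ∧ L ≤ hh p q u ∧
  ∀ a b, u = a ++ b → b ≠ [] → hh p q a < L}

lemma FD_le {z : ℝ≥0∞} (hz0 : 0 < z) (hz : z ≤ crit) {e L : ℝ} {d : Fin 4}
    (hd : e < hh p q [d]) (he : 0 ≤ e) (hL : 0 < L) : z * Wt z (FD p q e L) ≤ 1 := by
  refine le_trans ?_ (FR_le (p := p) (q := q) hz0 hz (L + hh p q [d]))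
  have : z = Wt z {([d] : Wd)} := by rw [Wt_singleton]; simp
  calc z * Wt z (FD p q e L) = Wt z {([d] : Wd)} * Wt z (FD p q e L) := by rw [← this]
    _ ≤ Wt z (FR p q (L + hh p q [d])) := by
      apply Wt_mul_le
      · intro u hu v hv
        have hu' : u = [d] := hu
        subst hu'
        obtain ⟨⟨g1, g2⟩, g3, g4⟩ := hv
        refine ⟨?_, ?_, ?_, ?_⟩
        · intro a b c h hb
          rcases List.cons_eq_append_iff.mp (by
            rw [List.append_assoc, List.singleton_append] at h; exact h) with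
            ⟨h3, h4⟩ | ⟨a', h3, h4⟩
          · rcases List.append_eq_cons_iff.mp h4 with ⟨h5, _⟩ | ⟨b', h5, h6⟩
            · exact absurd h5 hb
            · have h7 := g2 b' c h6
              rintro ⟨hx, hy⟩
              have h8 : hh p q b = 0 := by simp [hh, hx, hy]
              rw [h5, hh_cons] at h8
              linarith
          · have h5 : v = a' ++ b ++ c := by rw [List.append_assoc]; exact h4
            exact g1 a' b c h5 hb
        · intro a b h
          rcases List.cons_eq_append_iff.mp (by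
            rw [List.singleton_append] at h; exact h) with ⟨h3, h4⟩ | ⟨a', h3, h4⟩
          · rw [h3]; simp
          · rw [h3, hh_cons]
            have := g2 a' b h4
            linarith
        · rw [hh_append]; linarith
        · intro a b h hb
          rcases List.cons_eq_append_iff.mp (by
            rw [List.singleton_append] at h; exact h) with ⟨h3, h4⟩ | ⟨a', h3, h4⟩
          · rw [h3, hh_nil]; linarith
          · rw [h3, hh_cons]
            have := g4 a' b h4 hb
            linarith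
      · intro u hu v hv u' hu' v' hv' h
        have h1 : u = [d] := hu
        have h2 : u' = [d] := hu'
        rw [h1, h2] at h
        simp at h
        exact ⟨by rw [h1, h2], h⟩

end

end Pool.Agent.SawHalf
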