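import Pool.Agent.SawHalf.Link

open scoped ENNReal
open Filter Topology
open Pool.Agent.SawTree

namespace Pool.Agent.SawHalf

/-- all words of sides of length `l` -/
def lb (l : ℕ) : Finset (List Bool) := (Finset.univ : Finset (Fin l → Bool)).image List.ofFn

lemma mem_lb {l : ℕ} {x : List Bool} : x ∈ lb l ↔ x.length = l := by
  unfold lb
  rw [Finset.mem_image]
  constructor
  · rintro ⟨f, _, rfl⟩; simp
  · intro h
    subst h
    exact ⟨fun i => x.get i, Finset.mem_univ _, by simp⟩

lemma sum_lb_succ (g : List Bool → ℝ) (l : ℕ) :
    ∑ x ∈ lb (l + 1), g x = ∑ y ∈ lb l, ∑ s : Bool, g (y ++ [s]) := by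
  classical
  have h1 : lb (l + 1) = ((lb l) ×ˢ (Finset.univ : Finset Bool)).image
      (fun p => p.1 ++ [p.2]) := by
    ext u
    rw [mem_lb, Finset.mem_image]
    constructor
    · intro h
      have hne : u ≠ [] := by intro h0; rw [h0] at h; simp at h
      refine ⟨(u.dropLast, u.getLast hne), ?_, List.dropLast_append_getLast hne⟩
      rw [Finset.mem_product]
      refine ⟨mem_lb.mpr ?_, Finset.mem_univ _⟩
      rw [List.length_dropLast]; omega
    · rintro ⟨⟨v, d⟩, hp, rfl⟩
      rw [Finset.mem_product, mem_lb] at hp
      simp only at hp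
      simp [hp.1]
  rw [h1, Finset.sum_image, Finset.sum_product]
  rintro ⟨v, d⟩ _ ⟨v', d'⟩ _ h
  simp only at h
  have h2 := List.append_inj' h rfl
  simp at h2
  exact Prod.ext h2.1 h2.2

/-- weight of the changes of a word -/
noncomputable def wc (g : ℕ → ℝ) (x : List Bool) : ℝ :=
  ∏ i ∈ Finset.range (x.length - 1), if x.getD i false = x.getD (i + 1) false then 1 else g (i + 1)

lemma wc_snoc (g : ℕ → ℝ) (y : List Bool) (hy : y ≠ []) (s : Bool) :
    wc g (y ++ [s]) = wc g y * (if y.getLast hy = s then 1 else g y.length) := by
  unfold wc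
  have hl : 0 < y.length := List.length_pos_iff.mpr hy
  obtain ⟨n, hn⟩ := Nat.exists_eq_succ_of_ne_zero hl.ne'
  have e1 : (y ++ [s]).length - 1 = (y.length - 1) + 1 := by simp; omega
  rw [e1, Finset.prod_range_succ]
  congr 1
  · apply Finset.prod_congr rfl
    intro i hi
    rw [Finset.mem_range] at hi
    have e2 : (y ++ [s]).getD i false = y.getD i false := by
      rw [List.getD_append _ _ _ _ (by omega)]
    have e3 : (y ++ [s]).getD (i + 1) false = y.getD (i + 1) false := by
      rw [List.getD_append _ _ _ _ (by omega)]
    rw [e2, e3]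
  · have e2 : (y ++ [s]).getD (y.length - 1) false = y.getLast hy := by
      rw [List.getD_append _ _ _ _ (by omega), List.getLast_eq_getElem, List.getD_eq_getElem]
    have e4 : y.length - 1 + 1 = y.length := by omega
    have e3 : (y ++ [s]).getD (y.length - 1 + 1) false = s := by
      rw [e4, List.getD_append_right _ _ _ _ (le_refl _)]
      simp
    rw [e2, e3, e4]

lemma wc_nonneg {g : ℕ → ℝ} (hg : ∀ i, 0 ≤ g i) (x : List Bool) : 0 ≤ wc g x := by
  apply Finset.prod_nonneg
  intro i _
  split_ifs
  · exact zero_le_one
  · exact hg _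

lemma sum_wc_le {g : ℕ → ℝ} (hg : ∀ i, 0 ≤ g i) (l : ℕ) :
    ∑ x ∈ lb l, wc g x ≤ 2 * Real.exp (∑ i ∈ Finset.range l, g i) := by
  induction l with
  | zero =>
    have : lb 0 = {[]} := by
      ext u; rw [mem_lb, Finset.mem_singleton, List.length_eq_zero_iff]
    rw [this, Finset.sum_singleton]
    simp [wc]
  | succ l ih =>
    rw [sum_lb_succ]
    rcases Nat.eq_zero_or_pos l with hl | hl
    · subst hl
      have : lb 0 = {[]} := by
        ext u; rw [mem_lb, Finset.mem_singleton, List.length_eq_zero_iff]
      rw [this, Finset.sum_singleton]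
      have h1 : ∀ s : Bool, wc g ([] ++ [s]) = 1 := by intro s; simp [wc]
      simp_rw [h1]
      have : 1 ≤ Real.exp (∑ i ∈ Finset.range (0 + 1), g i) :=
        Real.one_le_exp (Finset.sum_nonneg (fun i _ => hg i))
      simp only [Finset.sum_const, Finset.card_univ, Fintype.card_bool, nsmul_eq_mul]
      push_cast
      linarith
    · have h1 : ∀ y ∈ lb l, ∑ s : Bool, wc g (y ++ [s]) = wc g y * (1 + g l) := by
        intro y hy
        rw [mem_lb] at hy
        have hne : y ≠ [] := by intro h0; rw [h0] at hy; simp at hy; omega
        simp_rw [wc_snoc g y hne, hy]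
        rw [← Finset.mul_sum]
        congr 1
        rw [Fintype.sum_bool]
        cases y.getLast hne <;> simp
        ring
      rw [Finset.sum_congr rfl h1, ← Finset.sum_mul, Finset.sum_range_succ, Real.exp_add]
      have h2 := Real.add_one_le_exp (g l)
      have h3 : 0 ≤ ∑ y ∈ lb l, wc g y := Finset.sum_nonneg (fun y _ => wc_nonneg hg y)
      calc (∑ y ∈ lb l, wc g y) * (1 + g l) ≤
          (2 * Real.exp (∑ i ∈ Finset.range l, g i)) * Real.exp (g l) := by
            apply mul_le_mul ih (by linarith) (by linarith [hg l]) (by positivity)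
        _ = _ := by ring

/-- Sequences of sides for which the product of the levels of change stays small infinitely often
form a set of zero capacity. -/
theorem logNull_turns (ε : ℝ) (hε : 0 < ε) :
    LogNull {a | ∃ᶠ L : ℕ in atTop,
      (∏ i ∈ (Finset.range L).filter (fun i => a i ≠ a (i + 1)), ((i : ℝ) + 1)) ^ (1 + ε) ≤ L} := by
  classical
  set δ : ℝ := ε / (2 + ε) with hδ
  have hδ0 : 0 < δ := by positivity
  have hδ1 : δ < 1 := by
    rw [hδ, div_lt_one (by positivity)]; linarith
  set g : ℕ → ℝ := fun i => (i : ℝ) ^ (-(1 + δ)) with hg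
  have hg0 : ∀ i, 0 ≤ g i := fun i => Real.rpow_nonneg (Nat.cast_nonneg i) _
  have hgs : Summable g := Real.summable_nat_rpow.mpr (by linarith)
  set S : ℝ := ∑' i, g i with hS
  have hS0 : 0 ≤ S := tsum_nonneg hg0
  have hm2 : ∀ x : List Bool, (√(wc g x * g x.length)) ^ 2 = wc g x * g x.length := fun x =>
    Real.sq_sqrt (mul_nonneg (wc_nonneg hg0 x) (hg0 _))
  refine ⟨fun x => √(wc g x * g x.length), fun x => Real.sqrt_nonneg _, ?_, ?_⟩
  · apply summable_of_sum_le (c := 2 * Real.exp S * S)
    · intro x; positivity
    · intro F
      simp_rw [hm2]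
      set M := F.sup List.length with hM
      calc ∑ x ∈ F, wc g x * g x.length
          ≤ ∑ l ∈ Finset.range (M + 1), ∑ x ∈ lb l, wc g x * g x.length := by
            rw [← Finset.sum_biUnion]
            · apply Finset.sum_le_sum_of_subset_of_nonneg
              · intro x hx
                rw [Finset.mem_biUnion]
                refine ⟨x.length, ?_, mem_lb.mpr rfl⟩
                rw [Finset.mem_range]
                have : x.length ≤ M := Finset.le_sup (f := List.length) hx
                omega
              · intro x _ _
                exact mul_nonneg (wc_nonneg hg0 x) (hg0 _)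
            · intro i _ j _ hij
              rw [Function.onFun, Finset.disjoint_left]
              intro u h1 h2
              exact hij ((mem_lb.mp h1).symm.trans (mem_lb.mp h2))
        _ ≤ ∑ l ∈ Finset.range (M + 1), 2 * Real.exp S * g l := by
            apply Finset.sum_le_sum
            intro l _
            have e1 : ∑ x ∈ lb l, wc g x * g x.length = (∑ x ∈ lb l, wc g x) * g l := by
              rw [Finset.sum_mul]
              apply Finset.sum_congr rfl
              intro x hx
              rw [mem_lb.mp hx]
            rw [e1]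
            apply mul_le_mul_of_nonneg_right _ (hg0 l)
            refine le_trans (sum_wc_le hg0 l) ?_
            apply mul_le_mul_of_nonneg_left _ (by norm_num)
            apply Real.exp_le_exp.mpr
            exact hgs.sum_le_tsum _ (fun i _ => hg0 i)
        _ = 2 * Real.exp S * ∑ l ∈ Finset.range (M + 1), g l := by rw [Finset.mul_sum]
        _ ≤ 2 * Real.exp S * S := by
            apply mul_le_mul_of_nonneg_left _ (by positivity)
            exact hgs.sum_le_tsum _ (fun i _ => hg0 i)
  · intro a ha hsum
    obtain ⟨s, hs⟩ := summable_iff_vanishing_norm.mp hsum (1 / 2) (by norm_num)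
    set N := s.sup id with hN
    obtain ⟨L, hLbig, hL⟩ := (Filter.frequently_atTop.mp ha) (2 * N + 2)
    have hL0 : (0 : ℝ) < L := by
      have : 0 < L := by omega
      exact_mod_cast this
    set p : ℝ := ∏ i ∈ (Finset.range L).filter (fun i => a i ≠ a (i + 1)), ((i : ℝ) + 1) with hp
    have hp1 : 1 ≤ p := by
      rw [hp]
      apply Finset.prod_induction _ (fun x : ℝ => 1 ≤ x)
        (fun a b ha hb => one_le_mul_of_one_le_of_one_le ha hb) le_rfl
      intro i _
      have : (0 : ℝ) ≤ i := Nat.cast_nonneg i
      linarith
    have hpe : p ^ (1 + δ) ≤ (L : ℝ) ^ (1 - δ) := by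
      have e1 : p ^ (1 + δ) = (p ^ (1 + ε)) ^ (1 - δ) := by
        rw [← Real.rpow_mul (by linarith)]
        congr 1
        rw [hδ]
        field_simp
        ring
      rw [e1]
      exact Real.rpow_le_rpow (by positivity) hL (by linarith)
    have hlow : ∀ l ∈ Finset.Ioc (L / 2) L,
        1 / (L : ℝ) ≤ √(wc g (List.ofFn fun i : Fin l => a i) *
          g (List.ofFn fun i : Fin l => a i).length) := by
      intro l hl
      rw [Finset.mem_Ioc] at hl
      have hl0 : 0 < l := by omega
      apply Real.le_sqrt_of_sq_le
      rw [List.length_ofFn]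
      have e1 : (L : ℝ) ^ (-(1 + δ)) ≤ g l := by
        rw [hg]
        simp only
        apply Real.rpow_le_rpow_of_nonpos (by exact_mod_cast hl0) (by exact_mod_cast hl.2)
        linarith
      have e2 : p ^ (-(1 + δ)) ≤ wc g (List.ofFn fun i : Fin l => a i) := by
        have f1 : wc g (List.ofFn fun i : Fin l => a i)
            = ∏ i ∈ Finset.range (l - 1), if a i = a (i + 1) then (1 : ℝ) else g (i + 1) := by
          unfold wc
          rw [List.length_ofFn]
          apply Finset.prod_congr rfl
          intro i hi
          rw [Finset.mem_range] at hi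
          have g1 : (List.ofFn fun i : Fin l => a i).getD i false = a i := by
            rw [List.getD_eq_getElem _ _ (by simp; omega)]; simp
          have g2 : (List.ofFn fun i : Fin l => a i).getD (i + 1) false = a (i + 1) := by
            rw [List.getD_eq_getElem _ _ (by simp; omega)]; simp
          rw [g1, g2]
        have f2 : p ^ (-(1 + δ))
            = ∏ i ∈ Finset.range L, if a i = a (i + 1) then (1 : ℝ) else g (i + 1) := by
          rw [hp, Finset.prod_filter, ← Real.finsetProd_rpow]
          · apply Finset.prod_congr rfl
            intro i _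
            by_cases h : a i = a (i + 1)
            · simp [h]
            · simp only [ne_eq, h, not_false_eq_true, if_true, if_false]
              rw [hg]
              push_cast
              rfl
          · intro i _
            split_ifs
            · positivity
            · norm_num
        rw [f1, f2]
        apply Finset.prod_le_prod_of_subset_of_le_one
        · intro i hi
          rw [Finset.mem_range] at hi ⊢
          omega
        · intro i _
          split_ifs
          · exact zero_le_one
          · exact hg0 _
        · intro i _ _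
          split_ifs
          · exact le_refl _
          · rw [hg]
            simp only
            apply Real.rpow_le_one_of_one_le_of_nonpos
            · push_cast
              have : (0 : ℝ) ≤ i := Nat.cast_nonneg i
              linarith
            · linarith
      calc (1 / (L : ℝ)) ^ 2 = (L : ℝ) ^ (-(1 - δ)) * (L : ℝ) ^ (-(1 + δ)) := by
            rw [← Real.rpow_add hL0, one_div, inv_pow, ← Real.rpow_natCast, ← Real.rpow_neg hL0.le]
            congr 1
            push_cast
            ring
        _ ≤ p ^ (-(1 + δ)) * (L : ℝ) ^ (-(1 + δ)) := by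
            apply mul_le_mul_of_nonneg_right _ (by positivity)
            rw [Real.rpow_neg hL0.le, Real.rpow_neg (by linarith)]
            exact inv_anti₀ (by positivity) hpe
        _ ≤ _ := mul_le_mul e2 e1 (by positivity) (wc_nonneg hg0 _)
    have hdis : Disjoint (Finset.Ioc (L / 2) L) s := by
      rw [Finset.disjoint_left]
      intro l hl hls
      rw [Finset.mem_Ioc] at hl
      have h3 : l ≤ N := Finset.le_sup (f := id) hls
      omega
    have htail := hs _ hdis
    rw [Real.norm_of_nonneg (Finset.sum_nonneg (fun l _ => Real.sqrt_nonneg _))] at htail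
    have hsumlow : (1 / 2 : ℝ) ≤ ∑ l ∈ Finset.Ioc (L / 2) L,
        √(wc g (List.ofFn fun i : Fin l => a i) *
          g (List.ofFn fun i : Fin l => a i).length) := by
      calc (1 / 2 : ℝ) ≤ ∑ _l ∈ Finset.Ioc (L / 2) L, 1 / (L : ℝ) := by
            rw [Finset.sum_const, Nat.card_Ioc, nsmul_eq_mul]
            have : (L : ℝ) / 2 ≤ ((L - L / 2 : ℕ) : ℝ) := by
              have h4 : L ≤ 2 * (L - L / 2) := by omega
              have h5 : (L : ℝ) ≤ 2 * ((L - L / 2 : ℕ) : ℝ) := by exact_mod_cast h4
              linarith
            calc (1 / 2 : ℝ) = (L : ℝ) / 2 * (1 / L) := by field_simp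
              _ ≤ _ := mul_le_mul_of_nonneg_right this (by positivity)
        _ ≤ _ := Finset.sum_le_sum hlow
    linarith

end Pool.Agent.SawHalf
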