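import Pool.Agent.SawHalf.Dir

open scoped ENNReal
open Filter Topology
open Pool.Agent.SawTree

namespace Pool.Agent.SawHalf

/-- Existence of finite cutsets: stop at the first word satisfying `stop`, or after `k` steps. -/
lemma exists_cutT {T : Wd → Prop} (θ : Wd → ℝ) (h0 : ∀ u, ¬ T u → θ u = 0)
    (hflow : ∀ u, T u → θ u = ∑ d : Fin 4, θ (u ++ [d])) (stop : Wd → Prop) (k : ℕ) :
    ∀ u : Wd, ∃ P : Finset Wd, (∀ v ∈ P, T v ∧ ∃ r, v = u ++ r ∧ r.length ≤ k ∧
      (stop v ∨ r.length = k) ∧ ∀ p q, r = p ++ q → q ≠ [] → ¬ stop (u ++ p)) ∧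
      ∑ v ∈ P, θ v = θ u := by
  classical
  induction k with
  | zero =>
    intro u
    by_cases hu : T u
    · refine ⟨{u}, ?_, by simp⟩
      intro v hv
      rw [Finset.mem_singleton] at hv
      subst hv
      refine ⟨hu, [], by simp, by simp, Or.inr rfl, ?_⟩
      intro p q hpq hq
      simp at hpq
      exact absurd hpq.2 hq
    · exact ⟨∅, by simp, by simp [h0 u hu]⟩
  | succ k ih =>
    intro u
    by_cases hu : T u
    · by_cases hs : stop u
      · refine ⟨{u}, ?_, by simp⟩
        intro v hv
        rw [Finset.mem_singleton] at hv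
        subst hv
        refine ⟨hu, [], by simp, by simp, Or.inl hs, ?_⟩
        intro p q hpq hq
        simp at hpq
        exact absurd hpq.2 hq
      · choose P hP1 hP2 using fun d : Fin 4 => ih (u ++ [d])
        refine ⟨Finset.univ.biUnion P, ?_, ?_⟩
        · intro v hv
          rw [Finset.mem_biUnion] at hv
          obtain ⟨d, _, hd⟩ := hv
          obtain ⟨h1, r, h2, h3, h4, h5⟩ := hP1 d v hd
          refine ⟨h1, d :: r, by rw [h2]; simp, by simp; omega, ?_, ?_⟩
          · rcases h4 with h4 | h4
            · exact Or.inl h4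
            · right; simp [h4]
          · intro p q hpq hq
            rcases List.append_eq_cons_iff.mp hpq.symm with ⟨h6, _⟩ | ⟨p', h6, h7⟩
            · rw [h6]; simpa using hs
            · have := h5 p' q h7 hq
              rw [h6]
              simpa using this
        · rw [Finset.sum_biUnion]
          · rw [hflow u hu]
            exact Finset.sum_congr rfl (fun d _ => hP2 d)
          · intro d _ d' _ hne
            rw [Function.onFun, Finset.disjoint_left]
            intro v hv hv'
            obtain ⟨_, r, h2, _⟩ := hP1 d v hv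
            obtain ⟨_, r', h2', _⟩ := hP1 d' v hv'
            rw [h2, List.append_assoc, List.append_assoc] at h2'
            have := List.append_cancel_left h2'
            simp at this
            exact hne this.1
    · exact ⟨∅, by simp, by simp [h0 u hu]⟩

/-- a step that increases the height the most -/
lemma exists_up (p q : ℝ) (h : ¬ (p = 0 ∧ q = 0)) : ∃ d : Fin 4, 0 < hh p q [d] := by
  by_contra hcon
  push Not at hcon
  apply h
  have h0 := hcon 0
  have h1 := hcon 1
  have h2 := hcon 2
  have h3 := hcon 3
  simp [hh, X, Y, vx, vy] at h0 h1 h2 h3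
  exact ⟨le_antisymm h0 h1, le_antisymm h2 h3⟩

/-- No finite-energy unit flow on words of small depth, at and below the critical point. -/
theorem no_flowD {b p q e : ℝ} {d : Fin 4} (hb : 0 < b) (hbc : ENNReal.ofReal b ≤ crit)
    (hq : q ≠ 0) (hd : e < hh p q [d]) (he : 0 ≤ e) (θ : Wd → ℝ)
    (h0 : ∀ u, ¬ Dp p q e u → θ u = 0) (h1 : θ [] = 1)
    (hflow : ∀ u, Dp p q e u → θ u = ∑ d : Fin 4, θ (u ++ [d]))
    (hsum : Summable (fun u : Wd => θ u ^ 2 / b ^ (u.length + 1))) : False := by
  classical
  set z := ENNReal.ofReal b with hz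
  have hz0 : 0 < z := ENNReal.ofReal_pos.mpr hb
  have hzt : z ≠ ⊤ := ENNReal.ofReal_ne_top
  set K : ℝ := 1 + b with hK
  have hK0 : 0 < K := by positivity
  obtain ⟨s, hs⟩ := summable_iff_vanishing_norm.mp hsum (1 / (2 * K)) (by positivity)
  set N := s.sup List.length with hN
  set A : ℝ := |p| + |q| with hA
  have hA0 : 0 < A := by
    have h1 := abs_nonneg p
    have h2 := abs_pos.mpr hq
    linarith
  set L : ℝ := A * (N + 1) with hL
  have hL0 : 0 < L := by positivity
  obtain ⟨m, hm1, hm2⟩ := exists_levelR (p := p) hz0 hbc hq (L + e) (N + 1)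
  obtain ⟨P, hP1, hP2⟩ := exists_cutT θ h0 hflow (fun v => L ≤ hh p q v) m []
  rw [h1] at hP2
  have hcl : ∀ v ∈ P, N < v.length ∧
      (v ∈ FD p q e L ∨ v ∈ {u | u ∈ Sr p q (L + e) ∧ u.length = m}) := by
    intro v hv
    obtain ⟨hT, r, hr1, hr2, hr3, hr4⟩ := hP1 v hv
    simp only [List.nil_append] at hr1 hr4
    subst hr1
    have hlt : ∀ a b, v = a ++ b → b ≠ [] → hh p q a < L := by
      intro a b hab hb
      have := hr4 a b hab hb
      push Not at this
      exact this
    by_cases hst : L ≤ hh p q v
    · refine ⟨?_, Or.inl ⟨hT, hst, hlt⟩⟩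
      have h2 := abs_hh_le (p := p) (q := q) v
      have h3 := le_abs_self (hh p q v)
      have h4 : A * (N + 1) ≤ A * v.length := by
        rw [← hL]; linarith
      have h5 : (N + 1 : ℝ) ≤ v.length := le_of_mul_le_mul_left h4 hA0
      have h6 : N + 1 ≤ v.length := by exact_mod_cast h5
      omega
    · have hlen : v.length = m := by
        rcases hr3 with h | h
        · exact absurd h hst
        · exact h
      push Not at hst
      refine ⟨by omega, Or.inr ⟨⟨hT.1, ?_⟩, hlen⟩⟩
      have hlt' : ∀ a b, v = a ++ b → hh p q a < L := by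
        intro a b hab
        by_cases hb : b = []
        · subst hb
          rw [List.append_nil] at hab
          rw [← hab]; exact hst
        · exact hlt a b hab hb
      intro a b c habc
      have e1 := hT.2 a (b ++ c) (by rw [habc]; simp)
      have e2 := hT.2 (a ++ b) c (by rw [habc])
      have e3 := hlt' a (b ++ c) (by rw [habc]; simp)
      have e4 := hlt' (a ++ b) c (by rw [habc])
      rw [hh_append] at e2 e4
      rw [abs_lt]
      constructor <;> linarith
  have hw2 : ∑ v ∈ P, b ^ (v.length + 1) ≤ K := by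
    have e1 : ∑ v ∈ P, z ^ (v.length + 1) ≤ 1 + z := by
      calc ∑ v ∈ P, z ^ (v.length + 1) = z * ∑ v ∈ P, z ^ v.length := by
            rw [Finset.mul_sum]
            exact Finset.sum_congr rfl (fun v _ => by ring)
        _ ≤ z * Wt z (FD p q e L ∪ {u | u ∈ Sr p q (L + e) ∧ u.length = m}) := by
            gcongr
            exact sum_le_Wt P (fun v hv => (hcl v hv).2)
        _ ≤ z * (Wt z (FD p q e L) + Wt z {u | u ∈ Sr p q (L + e) ∧ u.length = m}) := by
            gcongr
            exact Wt_union_le _ _
        _ = z * Wt z (FD p q e L) + z * Wt z {u | u ∈ Sr p q (L + e) ∧ u.length = m} := by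
            ring
        _ ≤ 1 + z * 1 := by
            gcongr
            exact FD_le hz0 hbc hd he hL0
        _ = 1 + z := by ring
    have e2 : ∑ v ∈ P, z ^ (v.length + 1) = ENNReal.ofReal (∑ v ∈ P, b ^ (v.length + 1)) := by
      rw [ENNReal.ofReal_sum_of_nonneg (fun v _ => by positivity)]
      apply Finset.sum_congr rfl
      intro v _
      rw [hz, ENNReal.ofReal_pow hb.le]
    rw [e2] at e1
    have e3 : (1 : ℝ≥0∞) + z = ENNReal.ofReal (1 + b) := by
      rw [ENNReal.ofReal_add (by norm_num) hb.le, ENNReal.ofReal_one]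
    rw [e3] at e1
    exact (ENNReal.ofReal_le_ofReal_iff (by positivity)).mp e1
  have hcs : (∑ v ∈ P, θ v) ^ 2 ≤ (∑ v ∈ P, θ v ^ 2 / b ^ (v.length + 1)) *
      (∑ v ∈ P, b ^ (v.length + 1)) := by
    apply Finset.sum_sq_le_sum_mul_sum_of_sq_le_mul
    · intro v _; positivity
    · intro v _; positivity
    · intro v _
      apply le_of_eq
      field_simp
  rw [hP2] at hcs
  have hdis : Disjoint P s := by
    rw [Finset.disjoint_left]
    intro v hv hvs
    have h2 := (hcl v hv).1
    have h3 : v.length ≤ N := Finset.le_sup (f := List.length) hvs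
    omega
  have htail := hs P hdis
  have hnn : 0 ≤ ∑ v ∈ P, θ v ^ 2 / b ^ (v.length + 1) :=
    Finset.sum_nonneg (fun v _ => by positivity)
  rw [Real.norm_of_nonneg hnn] at htail
  have h5 : (∑ v ∈ P, θ v ^ 2 / b ^ (v.length + 1)) * (∑ v ∈ P, b ^ (v.length + 1))
      ≤ (1 / (2 * K)) * K := by
    apply mul_le_mul htail.le hw2 _ (by positivity)
    exact Finset.sum_nonneg (fun v _ => by positivity)
  have h6 : (1 / (2 * K)) * K = 1 / 2 := by field_simp
  rw [h6] at h5
  norm_num at hcs
  linarith

lemma hh_swp (p q : ℝ) (u : Wd) : hh p q (u.map swp) = hh q p u := by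
  simp only [hh, X_swp, Y_swp]; ring

/-- the same for every direction -/
theorem no_flowE {b p q e : ℝ} {d : Fin 4} (hb : 0 < b) (hbc : ENNReal.ofReal b ≤ crit)
    (hd : e < hh p q [d]) (he : 0 ≤ e) (θ : Wd → ℝ)
    (h0 : ∀ u, ¬ Dp p q e u → θ u = 0) (h1 : θ [] = 1)
    (hflow : ∀ u, Dp p q e u → θ u = ∑ d : Fin 4, θ (u ++ [d]))
    (hsum : Summable (fun u : Wd => θ u ^ 2 / b ^ (u.length + 1))) : False := by
  classical
  by_cases hq : q = 0
  · have hp : p ≠ 0 := by
      intro hp
      subst hp; subst hq
      simp [hh] at hd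
      linarith
    have hD : ∀ u : Wd, Dp q p e u ↔ Dp p q e (u.map swp) := by
      intro u
      constructor
      · rintro ⟨g1, g2⟩
        refine ⟨g1.swp', ?_⟩
        intro a c hac
        have := g2 (a.map swp) (c.map swp) (by rw [← swp_swp u, hac]; simp)
        rwa [hh_swp] at this
      · rintro ⟨g1, g2⟩
        refine ⟨?_, ?_⟩
        · have := g1.swp'
          rwa [swp_swp] at this
        · intro a c hac
          have := g2 (a.map swp) (c.map swp) (by rw [hac]; simp)
          rwa [hh_swp] at this
    have hinv : Function.Involutive swp := by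
      intro d; fin_cases d <;> rfl
    have hd' : e < hh q p [swp d] := by
      have : hh q p ([d].map swp) = hh p q [d] := hh_swp q p [d]
      simp only [List.map_cons, List.map_nil] at this
      rw [this]; exact hd
    refine no_flowD (p := q) (q := p) (e := e) (d := swp d) hb hbc hp hd' he
      (fun u => θ (u.map swp)) ?_ ?_ ?_ ?_
    · intro u hu
      exact h0 _ (fun h => hu ((hD u).mpr h))
    · simpa using h1
    · intro u hu
      show θ (u.map swp) = ∑ d : Fin 4, θ ((u ++ [d]).map swp)
      rw [hflow _ ((hD u).mp hu)]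
      have : ∀ d : Fin 4, θ ((u ++ [d]).map swp) = θ (u.map swp ++ [swp d]) := by
        intro d; simp
      simp_rw [this]
      exact (Equiv.sum_comp (hinv.toPerm swp) (fun d => θ (u.map swp ++ [d]))).symm
    · have hinj : Function.Injective (fun u : Wd => u.map swp) := by
        intro u v h
        have h' : u.map swp = v.map swp := h
        rw [← swp_swp u, h', swp_swp]
      refine (hsum.comp_injective hinj).congr ?_
      intro u
      simp only [Function.comp, List.length_map]
  · exact no_flowD hb hbc hq hd he θ h0 h1 hflow hsum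

end Pool.Agent.SawHalf
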