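import Pool.Agent.SawTree.Trans
import Pool.Agent.SawTree.Bridge

open scoped ENNReal
open Filter Topology
open Pool.Agent.SawTree

namespace Pool.Agent.SawHalf

/-- central reflection of steps -/
def ng : Fin 4 → Fin 4 := ![1, 0, 3, 2]

lemma ng_ng (u : Wd) : (u.map ng).map ng = u := by
  rw [List.map_map]
  have : ng ∘ ng = id := by funext i; fin_cases i <;> rfl
  rw [this, List.map_id]

@[simp] lemma X_ng (u : Wd) : X (u.map ng) = - X u := by
  induction u with
  | nil => simp
  | cons a u ih =>
    simp only [List.map_cons, X_cons, ih]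
    have : vx (ng a) = - vx a := by fin_cases a <;> rfl
    rw [this]; ring

@[simp] lemma Y_ng (u : Wd) : Y (u.map ng) = - Y u := by
  induction u with
  | nil => simp
  | cons a u ih =>
    simp only [List.map_cons, Y_cons, ih]
    have : vy (ng a) = - vy a := by fin_cases a <;> rfl
    rw [this]; ring

lemma saw_ng {u : Wd} (h : Saw u) : Saw (u.map ng) := by
  intro a b c e hb
  have e' : u = a.map ng ++ b.map ng ++ c.map ng := by
    rw [← ng_ng u, e]; simp
  have := h _ _ _ e' (by simpa using hb)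
  rw [X_ng, Y_ng] at this
  intro hh
  exact this ⟨by omega, by omega⟩

/-- classes of words closed under the operations used in unfolding -/
structure Cl (E : Wd → Prop) : Prop where
  fac : ∀ u a b c : Wd, E u → u = a ++ b ++ c → E b
  rev : ∀ u : Wd, E u → E u.reverse
  neg : ∀ u : Wd, E u → E (u.map ng)

lemma Cl.left {E : Wd → Prop} (hE : Cl E) {u a b : Wd} (h : E u) (e : u = a ++ b) : E a :=
  hE.fac u [] a b h (by simpa using e)

lemma Cl.right {E : Wd → Prop} (hE : Cl E) {u a b : Wd} (h : E u) (e : u = a ++ b) : E b :=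
  hE.fac u a b [] h (by simpa using e)

/-- half-space words of the class, with maximal abscissa at most `A` -/
def HsE (E : Wd → Prop) (A : ℕ) : Set Wd :=
  {u | Saw u ∧ E u ∧ (∀ a b, u = a ++ b → a ≠ [] → 0 < X a) ∧ (∀ a b, u = a ++ b → X a ≤ A)}

/-- bridges of the class -/
def BrE (E : Wd → Prop) : Set Wd := {u | Br u ∧ E u}

/-- bridges of the class of span `A` -/
def BrEA (E : Wd → Prop) (A : ℕ) : Set Wd := {u | u ∈ BrE E ∧ X u = A}

lemma HsE_step (z : ℝ≥0∞) {E : Wd → Prop} (hE : Cl E) (A : ℕ) :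
    Wt z (HsE E (A + 1)) ≤ Wt z (HsE E A) * (1 + Wt z (BrEA E (A + 1))) := by
  classical
  set R : Set Wd := {u | u ∈ HsE E (A + 1) ∧ ∃ a b, u = a ++ b ∧ X a = ((A + 1 : ℕ) : ℤ)} with hR
  have h1 : HsE E (A + 1) ⊆ HsE E A ∪ R := by
    intro u hu
    by_cases h : ∃ a b, u = a ++ b ∧ X a = ((A + 1 : ℕ) : ℤ)
    · right; exact ⟨hu, h⟩
    · left
      refine ⟨hu.1, hu.2.1, hu.2.2.1, ?_⟩
      intro a b hab
      have h2 := hu.2.2.2 a b hab
      have h3 : X a ≠ ((A + 1 : ℕ) : ℤ) := fun h4 => h ⟨a, b, hab, h4⟩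
      push_cast at h2 h3 ⊢
      omega
  have h2 : Wt z R ≤ Wt z (BrEA E (A + 1)) * Wt z (HsE E A) := by
    have hch : ∀ u : Wd, ∃ p : Wd × Wd, u ∈ R → u = p.1 ++ p.2 ∧ X p.1 = ((A + 1 : ℕ) : ℤ) ∧
        ∀ r s, p.2 = r ++ s → r ≠ [] → X (p.1 ++ r) ≠ ((A + 1 : ℕ) : ℤ) := by
      intro u
      by_cases hu : u ∈ R
      · obtain ⟨a, b, e1, e2, e3⟩ := exists_last_prefix u (fun a => X a = ((A + 1 : ℕ) : ℤ)) hu.2
        exact ⟨(a, b), fun _ => ⟨e1, e2, e3⟩⟩
      · exact ⟨([], []), fun h => absurd h hu⟩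
    choose f hf using hch
    apply Wt_le_mul (fun u => ((f u).1.reverse, (f u).2.map ng))
    · intro u hu
      obtain ⟨e1, e2, e3⟩ := hf u hu
      set a := (f u).1
      set b := (f u).2
      obtain ⟨⟨hS, hEu, hP, hM⟩, _⟩ := hu
      have hSa := hS.left e1
      have hSb := hS.right e1
      have hEa := hE.left hEu e1
      have hEb := hE.right hEu e1
      refine ⟨⟨⟨⟨hSa.rev', ?_, ?_⟩, hE.rev _ hEa⟩, ?_⟩, ⟨saw_ng hSb, hE.neg _ hEb, ?_, ?_⟩, ?_⟩
      · intro p q hpq
        have hpq : a.reverse = p ++ q := hpq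
        have e4 : a = q.reverse ++ p.reverse := by
          rw [← List.reverse_reverse a, hpq]; simp
        have h5 := hM q.reverse (p.reverse ++ b) (by rw [e1, e4]; simp)
        have h6 : X a = X q + X p := by rw [e4]; simp
        rw [X_reverse] at h5
        rw [e2] at h6
        omega
      · intro p q hpq hq
        have hpq : a.reverse = p ++ q := hpq
        have e4 : a = q.reverse ++ p.reverse := by
          rw [← List.reverse_reverse a, hpq]; simp
        have h5 := hP q.reverse (p.reverse ++ b) (by rw [e1, e4]; simp) (by simpa using hq)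
        rwa [X_reverse] at h5
      · show X a.reverse = _
        rw [X_reverse, e2]
      · intro p q hpq hp
        have hpq : b.map ng = p ++ q := hpq
        have e4 : b = p.map ng ++ q.map ng := by
          rw [← ng_ng b, hpq]; simp
        have h5 := e3 (p.map ng) (q.map ng) e4 (by simpa using hp)
        have h6 := hM (a ++ p.map ng) (q.map ng) (by rw [e1, e4]; simp)
        rw [X_append, X_ng, e2] at h5 h6
        omega
      · intro p q hpq
        have hpq : b.map ng = p ++ q := hpq
        by_cases hp : p = []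
        · subst hp; simp
        · have e4 : b = p.map ng ++ q.map ng := by
            rw [← ng_ng b, hpq]; simp
          have h6 := hP (a ++ p.map ng) (q.map ng) (by rw [e1, e4]; simp) (by simp [hp])
          rw [X_append, X_ng, e2] at h6
          push_cast at h6
          omega
      · show u.length = a.reverse.length + (b.map ng).length
        conv_lhs => rw [e1]
        simp
    · intro u hu u' hu' he
      obtain ⟨e1, _, _⟩ := hf u hu
      obtain ⟨e1', _, _⟩ := hf u' hu'
      simp only [Prod.mk.injEq, List.reverse_inj] at he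
      have h3 : (f u).2 = (f u').2 := by
        rw [← ng_ng (f u).2, he.2, ng_ng]
      rw [e1, e1', he.1, h3]
  calc Wt z (HsE E (A + 1)) ≤ Wt z (HsE E A ∪ R) := Wt_mono h1
    _ ≤ Wt z (HsE E A) + Wt z R := Wt_union_le _ _
    _ ≤ Wt z (HsE E A) + Wt z (BrEA E (A + 1)) * Wt z (HsE E A) := by gcongr
    _ = Wt z (HsE E A) * (1 + Wt z (BrEA E (A + 1))) := by ring

lemma HsE_zero (z : ℝ≥0∞) (E : Wd → Prop) : Wt z (HsE E 0) ≤ 1 := by
  have h : HsE E 0 ⊆ {[]} := by
    rintro u ⟨_, _, h3, h4⟩
    by_contra hne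
    have h5 := h3 u [] (by simp) hne
    have h6 := h4 u [] (by simp)
    simp at h6
    omega
  calc Wt z (HsE E 0) ≤ Wt z {([] : Wd)} := Wt_mono h
    _ = 1 := by rw [Wt_singleton]; simp

lemma BrEA_sum (z : ℝ≥0∞) (E : Wd → Prop) (n : ℕ) :
    ∑ A ∈ Finset.range n, Wt z (BrEA E (A + 1)) ≤ Wt z (BrE E) := by
  have key : ∑ A ∈ Finset.range n, Wt z (BrEA E (A + 1))
      ≤ Wt z {u | u ∈ BrE E ∧ X u ≤ n} := by
    induction n with
    | zero => simp
    | succ n ih =>
      rw [Finset.sum_range_succ]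
      refine le_trans (add_le_add_left ih _) ?_
      apply Wt_disj
      · rw [Set.disjoint_left]
        rintro u ⟨_, h1⟩ ⟨_, h2⟩
        rw [h2] at h1
        push_cast at h1
        omega
      · rintro u ⟨h1, h2⟩
        refine ⟨h1, ?_⟩
        push_cast
        omega
      · rintro u ⟨h1, h2⟩
        exact ⟨h1, h2.le⟩
  exact le_trans key (Wt_mono (fun u hu => hu.1))

lemma HsE_le (z : ℝ≥0∞) {E : Wd → Prop} (hE : Cl E) (hfin : Wt z (BrE E) ≠ ⊤) (A : ℕ) :
    Wt z (HsE E A) ≤ ENNReal.ofReal (Real.exp (Wt z (BrE E)).toReal) := by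
  have key : ∀ A : ℕ, Wt z (HsE E A) ≤ ENNReal.ofReal
      (Real.exp (∑ k ∈ Finset.range A, Wt z (BrEA E (k + 1))).toReal) := by
    intro A
    induction A with
    | zero => simpa using HsE_zero z E
    | succ A ih =>
      have hsub : Wt z (BrEA E (A + 1)) ≤ Wt z (BrE E) := Wt_mono (fun u hu => hu.1)
      have hg : Wt z (BrEA E (A + 1)) ≠ ⊤ := ne_top_of_le_ne_top hfin hsub
      have hs : ∑ k ∈ Finset.range A, Wt z (BrEA E (k + 1)) ≠ ⊤ :=
        ne_top_of_le_ne_top hfin (BrEA_sum z E A)
      rw [Finset.sum_range_succ, ENNReal.toReal_add hs hg, Real.exp_add,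
        ENNReal.ofReal_mul (Real.exp_nonneg _)]
      refine le_trans (HsE_step z hE A) ?_
      apply mul_le_mul' ih
      have h1 : 1 + Wt z (BrEA E (A + 1))
          = ENNReal.ofReal (1 + (Wt z (BrEA E (A + 1))).toReal) := by
        rw [ENNReal.ofReal_add (by norm_num) ENNReal.toReal_nonneg, ENNReal.ofReal_one,
          ENNReal.ofReal_toReal hg]
      rw [h1]
      apply ENNReal.ofReal_le_ofReal
      have := Real.add_one_le_exp (Wt z (BrEA E (A + 1))).toReal
      linarith
  refine le_trans (key A) ?_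
  apply ENNReal.ofReal_le_ofReal
  apply Real.exp_le_exp.mpr
  exact ENNReal.toReal_mono hfin (BrEA_sum z E A)

/-- half-space words of the class -/
def HsUE (E : Wd → Prop) : Set Wd :=
  {u | Saw u ∧ E u ∧ (∀ a b, u = a ++ b → a ≠ [] → 0 < X a)}

lemma HsUE_fin (z : ℝ≥0∞) {E : Wd → Prop} (hE : Cl E) (hfin : Wt z (BrE E) ≠ ⊤) :
    Wt z (HsUE E) ≠ ⊤ := by
  apply ne_top_of_le_ne_top (ENNReal.ofReal_ne_top (r := Real.exp (Wt z (BrE E)).toReal))
  apply Wt_le_of_finite
  intro F hF
  set A := F.sup List.length with hA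
  refine le_trans (sum_le_Wt F (S := HsE E A) ?_) (HsE_le z hE hfin A)
  intro u hu
  obtain ⟨h1, h2, h3⟩ := hF u hu
  refine ⟨h1, h2, h3, ?_⟩
  intro a b hab
  have h4 := X_le_length a
  have h5 : u.length ≤ A := Finset.le_sup (f := List.length) hu
  have h6 : a.length ≤ u.length := by rw [hab]; simp
  have h7 := le_abs_self (X a)
  have h8 : (a.length : ℤ) ≤ A := by exact_mod_cast le_trans h6 h5
  omega

/-- If the bridges of the enlarged class have finite weight, so have all self-avoiding words of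
the class. -/
theorem StE_fin {z : ℝ≥0∞} (hz0 : 0 < z) {E E' : Wd → Prop} (hE : Cl E) (hE' : Cl E')
    (hsub : ∀ u, E u → E' u) (hcons : ∀ u, E u → E' (0 :: u))
    (hfin : Wt z (BrE E') ≠ ⊤) : Wt z {u | Saw u ∧ E u} ≠ ⊤ := by
  classical
  have hH := HsUE_fin z hE' hfin
  have hch : ∀ u : Wd, ∃ p : Wd × Wd, u = p.1 ++ p.2 ∧
      (∀ a b, u = a ++ b → X p.1 ≤ X a) ∧
      ∀ r s, p.2 = r ++ s → r ≠ [] → X (p.1 ++ r) ≠ X p.1 := by
    intro u
    obtain ⟨m, hm1, hm2⟩ : ∃ m : ℤ, (∃ a b, u = a ++ b ∧ X a = m) ∧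
        ∀ a b, u = a ++ b → m ≤ X a := by
      have hfin : (Set.range (fun k : Fin (u.length + 1) => X (u.take k))).Finite :=
        Set.finite_range _
      obtain ⟨m, hm, hmin⟩ := Set.exists_min_image _ (fun x : ℤ => x) hfin
        ⟨_, ⟨0, rfl⟩⟩
      obtain ⟨k, hk⟩ := hm
      refine ⟨m, ⟨u.take k, u.drop k, by simp, hk⟩, ?_⟩
      intro a b hab
      apply hmin
      refine ⟨⟨a.length, ?_⟩, ?_⟩
      · have : u.length = a.length + b.length := by rw [hab]; simp
        omega
      · simp only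
        rw [hab]; simp
    obtain ⟨a, b, e1, e2, e3⟩ := exists_last_prefix u (fun a => X a = m) hm1
    refine ⟨(a, b), e1, ?_, ?_⟩
    · intro a' b' h
      show X a ≤ X a'
      rw [e2]; exact hm2 a' b' h
    · intro r s hrs hr
      show X (a ++ r) ≠ X a
      rw [e2]; exact e3 r s hrs hr
  choose f hf using hch
  set St' : Set Wd := {w | ∃ u ∈ {u | Saw u ∧ E u}, w = 0 :: u} with hSt'
  have h1 : z * Wt z {u | Saw u ∧ E u} ≤ Wt z St' := by
    have : z = Wt z {([0] : Wd)} := by rw [Wt_singleton]; simp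
    calc z * Wt z {u | Saw u ∧ E u} = Wt z {([0] : Wd)} * Wt z {u | Saw u ∧ E u} := by
          rw [← this]
      _ ≤ Wt z St' := by
        apply Wt_mul_le
        · intro u hu v hv
          have : u = [0] := hu
          rw [this]
          exact ⟨v, hv, rfl⟩
        · intro u hu v hv u' hu' v' hv' h
          have h1 : u = [0] := hu
          have h2 : u' = [0] := hu'
          rw [h1, h2] at h
          simp at h
          exact ⟨by rw [h1, h2], h⟩
  have h2 : Wt z St' ≤ Wt z (HsUE E') * Wt z (HsUE E') := by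
    apply Wt_le_mul (fun w => (0 :: ((f w.tail).1.reverse.map ng), (f w.tail).2))
    · rintro w ⟨u, ⟨hS, hEu⟩, rfl⟩
      simp only [List.tail_cons]
      obtain ⟨e1, e2, e3⟩ := hf u
      set a := (f u).1
      set b := (f u).2
      have hSa := hS.left e1
      have hSb := hS.right e1
      have hEa := hE.left hEu e1
      have hEb := hE.right hEu e1
      have hpre : ∀ p q, a.reverse.map ng = p ++ q → 0 ≤ X p := by
        intro p q hpq
        have e4 : a = (q.map ng).reverse ++ (p.map ng).reverse := by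
          have : a.reverse = p.map ng ++ q.map ng := by
            rw [← ng_ng a.reverse, hpq]; simp
          rw [← List.reverse_reverse a, this]; simp
        have h5 := e2 (q.map ng).reverse ((p.map ng).reverse ++ b) (by rw [e1, e4]; simp)
        have h6 : X a = - X q + - X p := by rw [e4]; simp
        rw [X_reverse, X_ng] at h5
        omega
      refine ⟨⟨?_, hcons _ (hE.neg _ (hE.rev _ hEa)), ?_⟩, ⟨hSb, hsub _ hEb, ?_⟩, ?_⟩
      · intro p m q h hm
        rcases List.cons_eq_append_iff.mp (by rw [List.append_assoc] at h; exact h) with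
          ⟨h3, h4⟩ | ⟨p', h3, h4⟩
        · rcases List.append_eq_cons_iff.mp h4 with ⟨h5, _⟩ | ⟨m', h5, h6⟩
          · exact absurd h5 hm
          · have h7 := hpre m' q h6
            rintro ⟨hx, _⟩
            rw [h5, X_cons] at hx
            simp [vx] at hx
            omega
        · have h5 : a.reverse.map ng = p' ++ m ++ q := by
            rw [List.append_assoc]; exact h4
          exact (saw_ng hSa.rev') p' m q h5 hm
      · intro p q h hp
        rcases List.append_eq_cons_iff.mp h.symm with ⟨h5, _⟩ | ⟨p', h5, h6⟩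
        · exact absurd h5 hp
        · have h7 := hpre p' q h6
          rw [h5, X_cons]
          simp [vx]
          omega
      · intro p q hpq hp
        have h5 := e3 p q hpq hp
        have h6 := e2 (a ++ p) q (by rw [e1, hpq]; simp)
        rw [X_append] at h5 h6
        omega
      · conv_lhs => rw [e1]
        simp
        ring
    · rintro w ⟨u, hu, rfl⟩ w' ⟨u', hu', rfl⟩ he
      simp only [List.tail_cons, Prod.mk.injEq, List.cons.injEq, true_and] at he
      obtain ⟨h3, h4⟩ := he
      have h5 : (f u).1.reverse = (f u').1.reverse := by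
        rw [← ng_ng (f u).1.reverse, h3, ng_ng]
      have h6 : (f u).1 = (f u').1 := List.reverse_injective h5
      have e1 := (hf u).1
      have e1' := (hf u').1
      rw [e1, e1', h6, h4]
  have h3 : z * Wt z {u | Saw u ∧ E u} ≠ ⊤ :=
    ne_top_of_le_ne_top (ENNReal.mul_ne_top hH hH) (le_trans h1 h2)
  intro htop
  rw [htop, ENNReal.mul_top hz0.ne'] at h3
  exact h3 rfl

lemma cl_true : Cl (fun _ => True) := ⟨fun _ _ _ _ _ _ => trivial, fun _ _ => trivial,
  fun _ _ => trivial⟩

/-- Below the critical point of the bridge series all self-avoiding words have finite weight. -/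
theorem Saw_fin {z : ℝ≥0∞} (hz0 : 0 < z) (hz : z < crit) : Wt z {u | Saw u} ≠ ⊤ := by
  have h := StE_fin (z := z) hz0 cl_true cl_true (fun _ _ => trivial) (fun _ _ => trivial)
    (by
      apply ne_top_of_le_ne_top (fin_of_lt_crit hz)
      apply Wt_mono
      intro u hu
      exact hu.1)
  apply ne_top_of_le_ne_top h
  apply Wt_mono
  intro u hu
  exact ⟨hu, trivial⟩

end Pool.Agent.SawHalf
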