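import Pool.Agent.SawHalf.Crit

open scoped ENNReal
open Filter Topology
open Pool.Agent.SawTree

namespace Pool.Agent.SawHalf

/-- self-avoiding infinite words -/
def SawRay (γ : ℕ → Fin 4) : Prop := ∀ n, Saw (pc γ n)

lemma SawRay.shift {γ : ℕ → Fin 4} (h : SawRay γ) (k : ℕ) : SawRay (fun i => γ (k + i)) := by
  intro n
  have := h (k + n)
  rw [pc_add] at this
  exact this.right rfl

section
variable {p q : ℝ} {z : ℝ≥0∞}

lemma nul_strip (hz0 : 0 < z) (hz : z ≤ crit) (hq : q ≠ 0) (L : ℝ) :
    Nul z {γ | ∀ n, pc γ n ∈ Sr p q L} := by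
  classical
  refine ⟨fun w => if w ∈ Sr p q L then 1 else 0, ?_, ?_⟩
  · apply ne_top_of_le_ne_top (Sr_fin (p := p) hz0 hz hq L)
    apply le_of_eq
    unfold Wt
    rw [tsum_subtype (Sr p q L) (fun w : Wd => z ^ w.length)]
    apply tsum_congr
    intro w
    by_cases hw : w ∈ Sr p q L
    · simp [hw]
    · simp [hw]
  · intro γ hγ
    have : ∀ n, (if pc γ n ∈ Sr p q L then (1 : ℝ≥0∞) else 0) = 1 := by
      intro n
      rw [if_pos (hγ n)]
    simp_rw [this]
    rw [ENNReal.tsum_const_eq_top_of_ne_zero one_ne_zero]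

lemma harm_top : ∑' j : ℕ, (((1 / ((j : ℝ≥0∞) + 1)))) = ⊤ := by
  have h1 : ¬ Summable (fun n : ℕ => 1 / ((n : ℝ) + 1)) := by
    have := Real.not_summable_one_div_natCast
    rw [← summable_nat_add_iff 1] at this
    simpa using this
  by_contra hcon
  apply h1
  have h2 : ∀ j : ℕ, (1 / ((j : ℝ≥0∞) + 1)) = ENNReal.ofReal (1 / ((j : ℝ) + 1)) := by
    intro j
    rw [ENNReal.ofReal_div_of_pos (by positivity), ENNReal.ofReal_one,
      ENNReal.ofReal_add (by positivity) (by norm_num), ENNReal.ofReal_natCast,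
      ENNReal.ofReal_one]
  simp_rw [h2] at hcon
  have h3 := ENNReal.summable_toReal hcon
  refine h3.congr ?_
  intro j
  rw [ENNReal.toReal_ofReal (by positivity)]

lemma sq_fin : ∑' j : ℕ, (1 / ((j : ℝ≥0∞) + 1)) ^ 2 ≠ ⊤ := by
  have h1 : Summable (fun n : ℕ => (1 / ((n : ℝ) + 1)) ^ 2) := by
    have := Real.summable_one_div_nat_pow.mpr (show 1 < 2 by norm_num)
    rw [← summable_nat_add_iff 1] at this
    refine this.congr ?_
    intro n
    push_cast
    rw [one_div_pow]
  have h2 : ∀ j : ℕ, (1 / ((j : ℝ≥0∞) + 1)) ^ 2 = ENNReal.ofReal ((1 / ((j : ℝ) + 1)) ^ 2) := by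
    intro j
    rw [ENNReal.ofReal_pow (by positivity), ENNReal.ofReal_div_of_pos (by positivity),
      ENNReal.ofReal_one, ENNReal.ofReal_add (by positivity) (by norm_num),
      ENNReal.ofReal_natCast, ENNReal.ofReal_one]
  simp_rw [h2]
  exact h1.tsum_ofReal_ne_top

/-- infinite words of small depth, unbounded above -/
lemma nul_up (hz0 : 0 < z) (hz : z ≤ crit) {e : ℝ} {d : Fin 4} (hd : e < hh p q [d])
    (he : 0 ≤ e) :
    Nul z {γ | SawRay γ ∧ (∀ n, -e ≤ hh p q (pc γ n)) ∧ ∀ L : ℝ, ∃ n, L ≤ hh p q (pc γ n)} := by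
  classical
  have hzt : z ≠ ⊤ := ne_top_of_le_ne_top crit_ne_top hz
  set J : ℝ := |p| + |q| with hJ
  have hJ0 : 0 < J := by
    have h1 := abs_step (p := p) (q := q) d
    have h2 := le_abs_self (hh p q [d])
    rw [← hJ] at h1
    linarith
  set Lv : ℕ → ℝ := fun j => (j + 1) * (J + 1) with hLv
  have hLpos : ∀ j, 0 < Lv j := fun j => by rw [hLv]; positivity
  set c : ℕ → ℝ≥0∞ := fun j => 1 / ((j : ℝ≥0∞) + 1) with hc
  refine ⟨fun w => (∑' j, if w ∈ FD p q e (Lv j) then c j ^ 2 else 0) ^ (1 / 2 : ℝ), ?_, ?_⟩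
  · have e1 : ∑' w : Wd, ((∑' j, if w ∈ FD p q e (Lv j) then c j ^ 2 else 0) ^ (1 / 2 : ℝ)) ^ 2 *
        z ^ w.length = ∑' j, c j ^ 2 * Wt z (FD p q e (Lv j)) := by
      calc _ = ∑' w : Wd, ∑' j, (if w ∈ FD p q e (Lv j) then c j ^ 2 else 0) * z ^ w.length := by
            apply tsum_congr
            intro w
            rw [sqrt_sq', ENNReal.tsum_mul_right]
        _ = ∑' j, ∑' w : Wd, (if w ∈ FD p q e (Lv j) then c j ^ 2 else 0) * z ^ w.length :=
            ENNReal.tsum_comm
        _ = _ := by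
            apply tsum_congr
            intro j
            unfold Wt
            rw [tsum_subtype (FD p q e (Lv j)) (fun w : Wd => z ^ w.length),
              ← ENNReal.tsum_mul_left]
            apply tsum_congr
            intro w
            by_cases hw : w ∈ FD p q e (Lv j)
            · simp [hw]
            · simp [hw]
    rw [e1]
    have e2 : ∑' j, c j ^ 2 * Wt z (FD p q e (Lv j)) ≤ ∑' j, c j ^ 2 * z⁻¹ := by
      apply ENNReal.tsum_le_tsum
      intro j
      gcongr
      have h1 := FD_le (p := p) (q := q) hz0 hz hd he (hLpos j)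
      rw [mul_comm] at h1
      exact ENNReal.le_inv_iff_mul_le.mpr h1
    apply ne_top_of_le_ne_top _ e2
    rw [ENNReal.tsum_mul_right]
    apply ENNReal.mul_ne_top sq_fin
    rw [ENNReal.inv_ne_top]
    exact hz0.ne'
  · rintro γ ⟨h1, h2, h3⟩
    have hex : ∀ j, ∃ n, Lv j ≤ hh p q (pc γ n) := fun j => h3 (Lv j)
    set n : ℕ → ℕ := fun j => Nat.find (hex j) with hn
    have hn1 : ∀ j, Lv j ≤ hh p q (pc γ (n j)) := fun j => Nat.find_spec (hex j)
    have hn2 : ∀ j m, m < n j → hh p q (pc γ m) < Lv j := by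
      intro j m hm
      have := Nat.find_min (hex j) hm
      push Not at this
      exact this
    have hn3 : ∀ j, hh p q (pc γ (n j)) < Lv j + (J + 1) := by
      intro j
      rcases Nat.eq_zero_or_pos (n j) with h0 | h0
      · rw [h0, pc_zero, hh_nil]
        have := hLpos j
        linarith
      · obtain ⟨m, hm⟩ := Nat.exists_eq_succ_of_ne_zero h0.ne'
        have g1 := hn2 j m (by omega)
        rw [hm, Nat.succ_eq_add_one, pc_succ, hh_append]
        have g2 := abs_step (p := p) (q := q) (γ m)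
        have g3 := le_abs_self (hh p q [γ m])
        rw [← hJ] at g2
        linarith
    have hinj : Function.Injective n := by
      have key : ∀ i j, i < j → n i ≠ n j := by
        intro i j hij hne
        have g1 := hn3 i
        have g2 := hn1 j
        rw [hne] at g1
        have g3 : Lv i + (J + 1) ≤ Lv j := by
          rw [hLv]
          simp only
          have : (i : ℝ) + 1 ≤ j := by exact_mod_cast hij
          nlinarith
        linarith
      intro i j hne
      rcases lt_trichotomy i j with h | h | h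
      · exact absurd hne (key i j h)
      · exact h
      · exact absurd hne.symm (key j i h)
    have hmem : ∀ j, pc γ (n j) ∈ FD p q e (Lv j) := by
      intro j
      refine ⟨⟨h1 _, ?_⟩, hn1 j, ?_⟩
      · intro a b hab
        have hl : a.length ≤ n j := by
          have := congrArg List.length hab
          rw [pc_length, List.length_append] at this
          omega
        have : a = pc γ a.length := by
          rw [← pc_take γ hl, hab]; simp
        rw [this]
        exact h2 _
      · intro a b hab hb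
        have hl : a.length < n j := by
          have := congrArg List.length hab
          rw [pc_length, List.length_append] at this
          have := List.length_pos_iff.mpr hb
          omega
        have : a = pc γ a.length := by
          rw [← pc_take γ hl.le, hab]; simp
        rw [this]
        exact hn2 j _ hl
    rw [eq_top_iff, ← harm_top]
    refine le_trans ?_ (ENNReal.tsum_comp_le_tsum_of_injective hinj
      (fun m => (∑' j, if pc γ m ∈ FD p q e (Lv j) then c j ^ 2 else 0) ^ (1 / 2 : ℝ)))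
    apply ENNReal.tsum_le_tsum
    intro j
    have g1 : c j = (c j ^ 2) ^ (1 / 2 : ℝ) := (sq_sqrt' _).symm
    have g2 : (if pc γ (n j) ∈ FD p q e (Lv j) then c j ^ 2 else 0) = c j ^ 2 := if_pos (hmem j)
    show c j ≤ _
    rw [g1, ← g2]
    apply ENNReal.rpow_le_rpow _ (by norm_num)
    exact ENNReal.le_tsum (f := fun i => if pc γ (n j) ∈ FD p q e (Lv i) then c i ^ 2 else 0) j

/-- infinite words of small depth -/
lemma nul_depth (hz0 : 0 < z) (hz : z ≤ crit) (hq : q ≠ 0) {e : ℝ} {d : Fin 4}
    (hd : e < hh p q [d]) (he : 0 ≤ e) :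
    Nul z {γ | SawRay γ ∧ ∀ n, -e ≤ hh p q (pc γ n)} := by
  refine ((Nul.iUnion (fun L : ℕ => nul_strip (p := p) hz0 hz hq L)).union
    (nul_up (p := p) (q := q) hz0 hz hd he)).mono ?_
  rintro γ ⟨h1, h2⟩
  by_cases h3 : ∀ L : ℝ, ∃ n, L ≤ hh p q (pc γ n)
  · right; exact ⟨h1, h2, h3⟩
  · left
    push Not at h3
    obtain ⟨L, hL⟩ := h3
    obtain ⟨N, hN⟩ := exists_nat_ge (L + e)
    refine Set.mem_iUnion.mpr ⟨N, ?_⟩
    intro n
    refine ⟨h1 n, ?_⟩
    intro a b c habc
    have hl : (a ++ b).length ≤ n := by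
      have := congrArg List.length habc
      rw [pc_length, List.length_append] at this
      omega
    have hla : a.length ≤ n := by
      rw [List.length_append] at hl
      omega
    have ea : a = pc γ a.length := by
      rw [← pc_take γ hla, habc]; simp
    have eab : a ++ b = pc γ (a ++ b).length := by
      rw [← pc_take γ hl, habc, List.take_left]
    have g1 := h2 a.length
    have g2 := hL a.length
    have g3 := h2 (a ++ b).length
    have g4 := hL (a ++ b).length
    rw [← ea] at g1 g2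
    rw [← eab, hh_append] at g3 g4
    rw [abs_lt]
    constructor <;> linarith

/-- infinite words bounded below in the direction `(p, q)` -/
lemma nul_bdd (hz0 : 0 < z) (hz : z ≤ crit) (hq : q ≠ 0) :
    Nul z {γ | SawRay γ ∧ ∃ k : ℝ, ∀ n, -k ≤ hh p q (pc γ n)} := by
  have hzt : z ≠ ⊤ := ne_top_of_le_ne_top crit_ne_top hz
  obtain ⟨d, hd⟩ := exists_up p q (fun h => hq h.2)
  refine (Nul.iUnion (fun k : ℕ => (nul_depth (p := p) (q := q) (e := hh p q [d] / 2) (d := d)
    hz0 hz hq (by linarith) (by linarith)).shift hzt k)).mono ?_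
  rintro γ ⟨h1, k, hk⟩
  set Z : Set ℝ := Set.range (fun n => hh p q (pc γ n)) with hZ
  have hne : Z.Nonempty := ⟨_, 0, rfl⟩
  have hbdd : BddBelow Z := ⟨-k, by rintro y ⟨n, rfl⟩; exact hk n⟩
  obtain ⟨y, ⟨m, rfl⟩, hy⟩ := exists_lt_of_csInf_lt hne
    (show sInf Z < sInf Z + hh p q [d] / 2 by linarith)
  refine Set.mem_iUnion.mpr ⟨m, h1.shift m, ?_⟩
  intro n
  have g1 : sInf Z ≤ hh p q (pc γ (m + n)) := csInf_le hbdd ⟨m + n, rfl⟩
  rw [pc_add, hh_append] at g1
  simp only at hy
  linarith

end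

lemma Nul.swap {z : ℝ≥0∞} {C : Set (ℕ → Fin 4)} (h : Nul z C) :
    Nul z {γ | (fun i => swp (γ i)) ∈ C} := by
  obtain ⟨ρ, h1, h2⟩ := h
  have hmap : ∀ (γ : ℕ → Fin 4) n, (pc γ n).map swp = pc (fun i => swp (γ i)) n := by
    intro γ n
    unfold pc
    rw [List.map_ofFn]
    rfl
  have hinj : Function.Injective (fun u : Wd => u.map swp) := by
    intro u v h
    have h' : u.map swp = v.map swp := h
    rw [← swp_swp u, h', swp_swp]
  refine ⟨fun w => ρ (w.map swp), ?_, ?_⟩
  · apply ne_top_of_le_ne_top h1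
    refine le_trans (le_of_eq ?_) (ENNReal.tsum_comp_le_tsum_of_injective hinj
      (fun w : Wd => ρ w ^ 2 * z ^ w.length))
    apply tsum_congr
    intro w
    simp
  · intro γ hγ
    rw [← h2 _ hγ]
    apply tsum_congr
    intro n
    show ρ ((pc γ n).map swp) = _
    rw [hmap]

lemma SawRay.swap {γ : ℕ → Fin 4} (h : SawRay γ) : SawRay (fun i => swp (γ i)) := by
  intro n
  have hmap : (pc γ n).map swp = pc (fun i => swp (γ i)) n := by
    unfold pc
    rw [List.map_ofFn]
    rfl
  rw [← hmap]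
  exact (h n).swp'

/-- The self-avoiding infinite words bounded below in a fixed direction form a null class. -/
theorem nul_half {z : ℝ≥0∞} (hz0 : 0 < z) (hz : z ≤ crit) (p q : ℝ) (hpq : ¬ (p = 0 ∧ q = 0)) :
    Nul z {γ | SawRay γ ∧ ∃ k : ℝ, ∀ n, -k ≤ hh p q (pc γ n)} := by
  by_cases hq : q = 0
  · have hp : p ≠ 0 := fun h => hpq ⟨h, hq⟩
    refine (nul_bdd (p := q) (q := p) hz0 hz hp).swap.mono ?_
    rintro γ ⟨h1, k, hk⟩
    refine ⟨h1.swap, k, ?_⟩
    intro n
    have hmap : (pc γ n).map swp = pc (fun i => swp (γ i)) n := by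
      unfold pc
      rw [List.map_ofFn]
      rfl
    rw [← hmap, hh_swp]
    exact hk n
  · exact nul_bdd hz0 hz hq

end Pool.Agent.SawHalf
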