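import Pool.Agent.SawHalf.Half

open scoped ENNReal
open Filter Topology
open Pool.Agent.SawTree

namespace Pool.Agent.SawHalf

/-- integer height -/
def Hz (P Q : ℤ) (w : Wd) : ℤ := P * X w + Q * Y w

section basic
variable {P Q : ℤ}

@[simp] lemma Hz_nil : Hz P Q [] = 0 := by simp [Hz]
@[simp] lemma Hz_append (u v : Wd) : Hz P Q (u ++ v) = Hz P Q u + Hz P Q v := by
  simp only [Hz, X_append, Y_append]; ring
@[simp] lemma Hz_reverse (u : Wd) : Hz P Q u.reverse = Hz P Q u := by
  simp only [Hz, X_reverse, Y_reverse]
lemma Hz_neg (u : Wd) : Hz (-P) (-Q) u = - Hz P Q u := by simp only [Hz]; ring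
lemma Hz_cast (u : Wd) : ((Hz P Q u : ℤ) : ℝ) = hh (P : ℝ) (Q : ℝ) u := by
  simp only [Hz, hh]; push_cast; ring

end basic

/-- greatest height of the initial parts, for a word read backwards -/
def tp (P Q : ℤ) : Wd → ℤ
  | [] => 0
  | (d :: r) => max (Hz P Q (d :: r)) (tp P Q r)

/-- least height of the initial parts, for a word read backwards -/
def bt (P Q : ℤ) : Wd → ℤ
  | [] => 0
  | (d :: r) => min (Hz P Q (d :: r)) (bt P Q r)

/-- the word of sides on which the range of heights grows, for a word read backwards -/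
def hs (P Q : ℤ) : Wd → List Bool
  | [] => []
  | (d :: r) => hs P Q r ++ (List.replicate (Hz P Q (d :: r) - tp P Q r).toNat true ++
      List.replicate (bt P Q r - Hz P Q (d :: r)).toNat false)

/-- greatest height -/
def Tp (P Q : ℤ) (w : Wd) : ℤ := tp P Q w.reverse
/-- least height -/
def Bt (P Q : ℤ) (w : Wd) : ℤ := bt P Q w.reverse
/-- the word of sides -/
def Hs (P Q : ℤ) (w : Wd) : List Bool := hs P Q w.reverse

section
variable {P Q : ℤ}

@[simp] lemma Tp_nil : Tp P Q [] = 0 := rfl
@[simp] lemma Bt_nil : Bt P Q [] = 0 := rfl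
@[simp] lemma Hs_nil : Hs P Q [] = [] := rfl

lemma Tp_snoc (w : Wd) (d : Fin 4) : Tp P Q (w ++ [d]) = max (Hz P Q (w ++ [d])) (Tp P Q w) := by
  unfold Tp
  rw [List.reverse_append, List.reverse_singleton, List.singleton_append]
  simp only [tp]
  congr 1
  have : Hz P Q (d :: w.reverse) = Hz P Q ((w ++ [d]).reverse) := by simp
  rw [this, Hz_reverse]

lemma Bt_snoc (w : Wd) (d : Fin 4) : Bt P Q (w ++ [d]) = min (Hz P Q (w ++ [d])) (Bt P Q w) := by
  unfold Bt
  rw [List.reverse_append, List.reverse_singleton, List.singleton_append]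
  simp only [bt]
  congr 1
  have : Hz P Q (d :: w.reverse) = Hz P Q ((w ++ [d]).reverse) := by simp
  rw [this, Hz_reverse]

lemma Hs_snoc (w : Wd) (d : Fin 4) : Hs P Q (w ++ [d]) = Hs P Q w ++
    (List.replicate (Hz P Q (w ++ [d]) - Tp P Q w).toNat true ++
      List.replicate (Bt P Q w - Hz P Q (w ++ [d])).toNat false) := by
  have : Hz P Q (d :: w.reverse) = Hz P Q (w ++ [d]) := by
    have h : Hz P Q (d :: w.reverse) = Hz P Q ((w ++ [d]).reverse) := by simp
    rw [h, Hz_reverse]
  unfold Hs Tp Bt
  rw [List.reverse_append, List.reverse_singleton, List.singleton_append]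
  simp only [hs]
  rw [this]

lemma le_Tp (a c : Wd) : Hz P Q a ≤ Tp P Q (a ++ c) := by
  induction c using List.reverseRecOn with
  | nil =>
    rw [List.append_nil]
    induction a using List.reverseRecOn with
    | nil => simp
    | append_singleton a d _ => rw [Tp_snoc]; exact le_max_left _ _
  | append_singleton c d ih =>
    rw [← List.append_assoc, Tp_snoc]
    exact le_trans ih (le_max_right _ _)

lemma Bt_le (a c : Wd) : Bt P Q (a ++ c) ≤ Hz P Q a := by
  induction c using List.reverseRecOn with
  | nil =>
    rw [List.append_nil]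
    induction a using List.reverseRecOn with
    | nil => simp
    | append_singleton a d _ => rw [Bt_snoc]; exact min_le_left _ _
  | append_singleton c d ih =>
    rw [← List.append_assoc, Bt_snoc]
    exact le_trans (min_le_right _ _) ih

lemma Bt_le_Tp (w : Wd) : Bt P Q w ≤ Tp P Q w :=
  le_trans (Bt_le w []|>.trans_eq rfl |> fun h => by simpa using h)
    (by simpa using le_Tp (P := P) (Q := Q) w [])

lemma Hs_length (w : Wd) : ((Hs P Q w).length : ℤ) = Tp P Q w - Bt P Q w := by
  induction w using List.reverseRecOn with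
  | nil => simp
  | append_singleton w d ih =>
    rw [Hs_snoc, Tp_snoc, Bt_snoc]
    simp only [List.length_append, List.length_replicate]
    have := Bt_le_Tp (P := P) (Q := Q) w
    push_cast
    rw [ih]
    omega

/-- words whose last letter enlarges the range of heights -/
def Fr (P Q : ℤ) (w : Wd) : Prop :=
  w = [] ∨ ∃ u d, w = u ++ [d] ∧ (Hs P Q u).length < (Hs P Q w).length

/-- exact record words -/
def Rx (P Q : ℤ) (x : List Bool) : Set Wd := {w | Saw w ∧ Fr P Q w ∧ Hs P Q w = x}

/-- first passage words of a word of sides -/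
def Px (P Q : ℤ) (x : List Bool) : Set Wd :=
  {w | Saw w ∧ ∃ u d, w = u ++ [d] ∧ (Hs P Q u).length < x.length ∧ x <+: Hs P Q w}

/-- bridges of exact height `n` -/
def Bz (P Q : ℤ) (n : ℤ) : Set Wd := {D | Saw D ∧ (∀ a b, D = a ++ b → 0 ≤ Hz P Q a) ∧
  (∀ a b, D = a ++ b → b ≠ [] → 0 < Hz P Q b) ∧ Hz P Q D = n}

lemma rep_snoc (y : List Bool) (k : ℕ) (h : 0 < k) (s : Bool) :
    ∃ y', y ++ List.replicate k s = y' ++ [s] := by
  obtain ⟨j, rfl⟩ := Nat.exists_eq_succ_of_ne_zero h.ne'
  refine ⟨y ++ List.replicate j s, ?_⟩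
  rw [List.replicate_succ']
  simp

/-- cutting at the first visit of the lowest point -/
lemma cut_low (w : Wd) : ∀ (y : List Bool) (k : ℕ), Hs P Q w = y ++ List.replicate k true →
    (y = [] ∨ ∃ y', y = y' ++ [false]) →
    ∃ w1 D, w = w1 ++ D ∧ Hs P Q w1 = y ∧ Fr P Q w1 ∧ Bt P Q w = Hz P Q w1 := by
  induction w using List.reverseRecOn with
  | nil =>
    intro y k h _
    rw [Hs_nil] at h
    have hy : y = [] := by
      have := congrArg List.length h
      simp only [List.length_nil, List.length_append, List.length_replicate] at this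
      exact List.length_eq_zero_iff.mp (by omega)
    exact ⟨[], [], by simp, by rw [hy]; rfl, Or.inl rfl, by simp⟩
  | append_singleton u d ih =>
    intro y k h hy
    have hBT := Bt_le_Tp (P := P) (Q := Q) u
    rcases lt_trichotomy (Hz P Q (u ++ [d])) (Bt P Q u) with hc | hc | hc
    · -- a new lowest point
      have e1 : (Hz P Q (u ++ [d]) - Tp P Q u).toNat = 0 := by omega
      obtain ⟨j, hj⟩ : ∃ j : ℕ, (Bt P Q u - Hz P Q (u ++ [d])).toNat = j + 1 :=
        ⟨(Bt P Q u - Hz P Q (u ++ [d])).toNat - 1, by omega⟩
      have e2 : Hs P Q (u ++ [d]) = Hs P Q u ++ List.replicate (j + 1) false := by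
        rw [Hs_snoc, e1, hj]; simp
      have hk : k = 0 := by
        by_contra hk
        obtain ⟨y', hy'⟩ := rep_snoc y k (Nat.pos_of_ne_zero hk) true
        obtain ⟨y'', hy''⟩ := rep_snoc (Hs P Q u) (j + 1) (by omega) false
        rw [h, hy'] at e2
        rw [hy''] at e2
        have := List.append_inj_right' e2 (by simp)
        simp at this
      subst hk
      refine ⟨u ++ [d], [], by simp, by rw [h]; simp, Or.inr ⟨u, d, rfl, ?_⟩, ?_⟩
      · rw [e2, List.length_append, List.length_replicate]; omega
      · rw [Bt_snoc]; exact min_eq_left hc.le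
    all_goals
      -- no new lowest point
      have e1 : (Bt P Q u - Hz P Q (u ++ [d])).toNat = 0 := by omega
      set j := (Hz P Q (u ++ [d]) - Tp P Q u).toNat with hj
      have e2 : Hs P Q (u ++ [d]) = Hs P Q u ++ List.replicate j true := by
        rw [Hs_snoc, e1, ← hj, List.replicate_zero, List.append_nil]
      have e3 : Bt P Q (u ++ [d]) = Bt P Q u := by
        rw [Bt_snoc]; omega
      -- the word of sides of `u`
      have hkey : ∃ k', Hs P Q u = y ++ List.replicate k' true := by
        rw [e2] at h
        rcases List.append_eq_append_iff.mp h with ⟨a', h3, h4⟩ | ⟨c', h3, h4⟩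
        · -- y = Hs u ++ a', replicate j true = a' ++ replicate k true
          have ha' : a' = [] := by
            rcases hy with hy | ⟨y', hy⟩
            · rw [hy] at h3
              have := congrArg List.length h3
              simp only [List.length_nil, List.length_append] at this
              exact List.length_eq_zero_iff.mp (by omega)
            · by_contra hne
              obtain ⟨a'', s, has⟩ : ∃ a'' s, a' = a'' ++ [s] :=
                ⟨a'.dropLast, a'.getLast hne, (List.dropLast_append_getLast hne).symm⟩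
              have hs1 : s = false := by
                rw [has, hy, ← List.append_assoc] at h3
                have := List.append_inj_right' h3 (by simp)
                simpa using this.symm
              have hs2 : s = true := by
                have : s ∈ List.replicate j true := by rw [h4, has]; simp
                exact (List.mem_replicate.mp this).2
              rw [hs1] at hs2
              exact absurd hs2 (by simp)
          refine ⟨0, ?_⟩
          rw [ha'] at h3
          simpa using h3.symm
        · -- Hs u = y ++ c', replicate k true = c' ++ replicate j true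
          refine ⟨c'.length, ?_⟩
          rw [h3]
          congr 1
          apply List.eq_replicate_iff.mpr
          refine ⟨rfl, ?_⟩
          intro s hs
          have : s ∈ List.replicate k true := by rw [h4]; simp [hs]
          exact (List.mem_replicate.mp this).2
      obtain ⟨k', hk'⟩ := hkey
      obtain ⟨w1, D, g1, g2, g3, g4⟩ := ih y k' hk' hy
      exact ⟨w1, D ++ [d], by rw [g1]; simp, g2, g3, by rw [e3, g4]⟩

/-- maximal final block of `true` -/
lemma block_true (x : List Bool) : ∃ y k, x = y ++ List.replicate k true ∧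
    (y = [] ∨ ∃ y', y = y' ++ [false]) := by
  induction x using List.reverseRecOn with
  | nil => exact ⟨[], 0, by simp, Or.inl rfl⟩
  | append_singleton x s ih =>
    cases s with
    | false => exact ⟨x ++ [false], 0, by simp, Or.inr ⟨x, rfl⟩⟩
    | true =>
      obtain ⟨y, k, h1, h2⟩ := ih
      refine ⟨y, k + 1, ?_, h2⟩
      rw [h1, List.replicate_succ']
      simp

lemma tpbt_neg (r : Wd) : tp (-P) (-Q) r = - bt P Q r ∧ bt (-P) (-Q) r = - tp P Q r := by
  induction r with
  | nil => simp [tp, bt]
  | cons d r ih =>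
    simp only [tp, bt, Hz_neg, ih.1, ih.2]
    omega

lemma Tp_neg (w : Wd) : Tp (-P) (-Q) w = - Bt P Q w := (tpbt_neg _).1
lemma Bt_neg (w : Wd) : Bt (-P) (-Q) w = - Tp P Q w := (tpbt_neg _).2

lemma Hs_neg (w : Wd) : Hs (-P) (-Q) w = (Hs P Q w).map not := by
  induction w using List.reverseRecOn with
  | nil => simp
  | append_singleton w d ih =>
    rw [Hs_snoc, Hs_snoc, ih, Tp_neg, Bt_neg, Hz_neg]
    have hBT := Bt_le_Tp (P := P) (Q := Q) w
    simp only [List.map_append, List.map_replicate, Bool.not_true, Bool.not_false]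
    congr 1
    rcases le_or_gt (Hz P Q (w ++ [d])) (Tp P Q w) with h | h
    · have e1 : (Hz P Q (w ++ [d]) - Tp P Q w).toNat = 0 := by omega
      have e2 : (-Tp P Q w - -Hz P Q (w ++ [d])).toNat = 0 := by omega
      have e3 : (-Hz P Q (w ++ [d]) - -Bt P Q w).toNat = (Bt P Q w - Hz P Q (w ++ [d])).toNat := by
        congr 1; ring
      rw [e1, e2, e3]; simp
    · have e1 : (Bt P Q w - Hz P Q (w ++ [d])).toNat = 0 := by omega
      have e2 : (-Hz P Q (w ++ [d]) - -Bt P Q w).toNat = 0 := by omega
      have e3 : (-Tp P Q w - -Hz P Q (w ++ [d])).toNat = (Hz P Q (w ++ [d]) - Tp P Q w).toNat := by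
        congr 1; ring
      rw [e1, e2, e3]; simp

lemma not_not_map (x : List Bool) : (x.map not).map not = x := by
  rw [List.map_map]
  have : not ∘ not = id := by funext b; simp
  rw [this, List.map_id]

lemma Fr_neg (w : Wd) : Fr (-P) (-Q) w ↔ Fr P Q w := by
  unfold Fr
  simp only [Hs_neg, List.length_map]

lemma Rx_neg (x : List Bool) : Rx (-P) (-Q) (x.map not) = Rx P Q x := by
  ext w
  simp only [Rx, Set.mem_ofPred_eq, Fr_neg, Hs_neg]
  constructor
  · rintro ⟨h1, h2, h3⟩
    refine ⟨h1, h2, ?_⟩
    rw [← not_not_map (Hs P Q w), h3, not_not_map]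
  · rintro ⟨h1, h2, h3⟩
    exact ⟨h1, h2, by rw [h3]⟩

lemma Px_neg (x : List Bool) : Px (-P) (-Q) (x.map not) = Px P Q x := by
  ext w
  simp only [Px, Set.mem_ofPred_eq, Hs_neg, List.length_map]
  constructor
  · rintro ⟨h1, u, d, h2, h3, t, h4⟩
    refine ⟨h1, u, d, h2, h3, t.map not, ?_⟩
    have := congrArg (List.map not) h4
    rw [List.map_append, not_not_map, not_not_map] at this
    exact this
  · rintro ⟨h1, u, d, h2, h3, t, h4⟩
    refine ⟨h1, u, d, h2, h3, t.map not, ?_⟩
    rw [← h4, List.map_append]

end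

end Pool.Agent.SawHalf
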