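import Pool.Agent.SawHalf.Sides

open scoped ENNReal
open Filter Topology
open Pool.Agent.SawTree

namespace Pool.Agent.SawHalf

/-- `a` is the sequence of sides of the height function `H`: at the first time at which the range
of the heights exceeds `L`, the new height is a maximum if and only if `a L` holds. -/
def IsSides (H : ℕ → ℤ) (a : ℕ → Bool) : Prop :=
  ∀ L : ℕ, ∃ n : ℕ, (∃ i ≤ n, ∃ j ≤ n, (L : ℤ) < H i - H j) ∧
    (∀ i < n, ∀ j < n, H i - H j ≤ L) ∧ (a L = true ↔ ∀ i < n, H i < H n)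

lemma IsSides.congr {H H' : ℕ → ℤ} {a : ℕ → Bool} (h : IsSides H a) (c : ℤ)
    (hH : ∀ n, H n = H' n + c) : IsSides H' a := by
  intro L
  obtain ⟨n, ⟨i, hi, j, hj, h1⟩, h2, h3⟩ := h L
  refine ⟨n, ⟨i, hi, j, hj, ?_⟩, ?_, ?_⟩
  · rw [hH, hH] at h1; omega
  · intro i hi j hj
    have := h2 i hi j hj
    rw [hH, hH] at this
    omega
  · rw [h3]
    constructor
    · intro h4 i hi
      have := h4 i hi
      rw [hH, hH] at this
      omega
    · intro h4 i hi
      have := h4 i hi
      rw [hH, hH]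
      omega

section
variable {P Q : ℤ}

lemma exists_Tp (γ : ℕ → Fin 4) (n : ℕ) : ∃ i ≤ n, Hz P Q (pc γ i) = Tp P Q (pc γ n) := by
  induction n with
  | zero => exact ⟨0, le_refl _, by simp⟩
  | succ n ih =>
    obtain ⟨i, hi, h⟩ := ih
    rw [pc_succ, Tp_snoc, ← pc_succ]
    rcases le_total (Hz P Q (pc γ (n + 1))) (Tp P Q (pc γ n)) with h1 | h1
    · exact ⟨i, by omega, by rw [h, max_eq_right h1]⟩
    · exact ⟨n + 1, le_refl _, by rw [max_eq_left h1]⟩

lemma exists_Bt (γ : ℕ → Fin 4) (n : ℕ) : ∃ i ≤ n, Hz P Q (pc γ i) = Bt P Q (pc γ n) := by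
  induction n with
  | zero => exact ⟨0, le_refl _, by simp⟩
  | succ n ih =>
    obtain ⟨i, hi, h⟩ := ih
    rw [pc_succ, Bt_snoc, ← pc_succ]
    rcases le_total (Hz P Q (pc γ (n + 1))) (Bt P Q (pc γ n)) with h1 | h1
    · exact ⟨n + 1, le_refl _, by rw [min_eq_left h1]⟩
    · exact ⟨i, by omega, by rw [h, min_eq_right h1]⟩

lemma Hz_le_Tp (γ : ℕ → Fin 4) {i n : ℕ} (h : i ≤ n) : Hz P Q (pc γ i) ≤ Tp P Q (pc γ n) := by
  obtain ⟨j, rfl⟩ := Nat.exists_eq_add_of_le h
  rw [pc_add]
  exact le_Tp _ _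

lemma Bt_le_Hz (γ : ℕ → Fin 4) {i n : ℕ} (h : i ≤ n) : Bt P Q (pc γ n) ≤ Hz P Q (pc γ i) := by
  obtain ⟨j, rfl⟩ := Nat.exists_eq_add_of_le h
  rw [pc_add]
  exact Bt_le _ _

lemma ip_const (a : ℕ → Bool) (k j : ℕ) (s : Bool) (h : ∀ i < j, a (k + i) = s) :
    ip a (k + j) = ip a k ++ List.replicate j s := by
  rw [ip_add]
  congr 1
  apply List.eq_replicate_iff.mpr
  refine ⟨by simp, ?_⟩
  intro b hb
  unfold ip at hb
  rw [List.mem_ofFn] at hb
  obtain ⟨i, rfl⟩ := hb
  exact h i i.2

/-- the time at which the range exceeds `L` is determined by the word of sides -/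
lemma sides_time {γ : ℕ → Fin 4} {a : ℕ → Bool} (h : IsSides (fun n => Hz P Q (pc γ n)) a)
    (n L : ℕ) (h1 : (Hs P Q (pc γ n)).length ≤ L) (h2 : L < (Hs P Q (pc γ (n + 1))).length) :
    (a L = true ↔ ∀ i < n + 1, Hz P Q (pc γ i) < Hz P Q (pc γ (n + 1))) := by
  obtain ⟨m, ⟨i, hi, j, hj, g1⟩, g2, g3⟩ := h L
  have e1 := Hs_length (P := P) (Q := Q) (pc γ n)
  have e2 := Hs_length (P := P) (Q := Q) (pc γ (n + 1))
  have hm : m = n + 1 := by
    rcases lt_trichotomy m (n + 1) with hlt | heq | hgt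
    · exfalso
      have f1 := Hz_le_Tp (P := P) (Q := Q) γ (show i ≤ n by omega)
      have f2 := Bt_le_Hz (P := P) (Q := Q) γ (show j ≤ n by omega)
      simp only at g1
      have : ((Hs P Q (pc γ n)).length : ℤ) ≤ L := by exact_mod_cast h1
      omega
    · exact heq
    · exfalso
      obtain ⟨i', hi', f1⟩ := exists_Tp (P := P) (Q := Q) γ (n + 1)
      obtain ⟨j', hj', f2⟩ := exists_Bt (P := P) (Q := Q) γ (n + 1)
      have f3 := g2 i' (by omega) j' (by omega)
      simp only at f3
      rw [f1, f2] at f3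
      have : (L : ℤ) < (Hs P Q (pc γ (n + 1))).length := by exact_mod_cast h2
      omega
  subst hm
  exact g3

lemma sd_of_isSides {γ : ℕ → Fin 4} {a : ℕ → Bool}
    (h : IsSides (fun n => Hz P Q (pc γ n)) a) : Sd P Q γ a := by
  refine ⟨?_, ?_⟩
  · intro n
    induction n with
    | zero => simp [ip]
    | succ n ih =>
      have hBT := Bt_le_Tp (P := P) (Q := Q) (pc γ n)
      have hst := sides_time h n
      have hsn : Hs P Q (pc γ (n + 1)) = Hs P Q (pc γ n) ++
          (List.replicate (Hz P Q (pc γ (n + 1)) - Tp P Q (pc γ n)).toNat true ++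
            List.replicate (Bt P Q (pc γ n) - Hz P Q (pc γ (n + 1))).toNat false) := by
        rw [pc_succ, Hs_snoc]
      rcases lt_or_ge (Tp P Q (pc γ n)) (Hz P Q (pc γ (n + 1))) with hc | hc
      · -- a new maximum
        have e1 : (Bt P Q (pc γ n) - Hz P Q (pc γ (n + 1))).toNat = 0 := by omega
        rw [e1, List.replicate_zero, List.append_nil] at hsn
        set j := (Hz P Q (pc γ (n + 1)) - Tp P Q (pc γ n)).toNat with hj
        have hl : (Hs P Q (pc γ (n + 1))).length = (Hs P Q (pc γ n)).length + j := by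
          rw [hsn, List.length_append, List.length_replicate]
        rw [hl, hsn, ip_const a _ j true, ← ih]
        intro i hi
        apply (hst ((Hs P Q (pc γ n)).length + i) (by omega) (by omega)).mpr
        intro i' hi'
        exact lt_of_le_of_lt (Hz_le_Tp γ (by omega)) hc
      · have e1 : (Hz P Q (pc γ (n + 1)) - Tp P Q (pc γ n)).toNat = 0 := by omega
        rw [e1, List.replicate_zero, List.nil_append] at hsn
        set j := (Bt P Q (pc γ n) - Hz P Q (pc γ (n + 1))).toNat with hj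
        have hl : (Hs P Q (pc γ (n + 1))).length = (Hs P Q (pc γ n)).length + j := by
          rw [hsn, List.length_append, List.length_replicate]
        rw [hl, hsn, ip_const a _ j false, ← ih]
        intro i hi
        by_contra hne
        have hne' : a ((Hs P Q (pc γ n)).length + i) = true := by
          cases hb : a ((Hs P Q (pc γ n)).length + i) with
          | true => rfl
          | false => exact absurd hb hne
        have := (hst ((Hs P Q (pc γ n)).length + i) (by omega) (by omega)).mp hne' 0 (by omega)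
        have f2 := Bt_le_Hz (P := P) (Q := Q) γ (show 0 ≤ n by omega)
        omega
  · intro L
    obtain ⟨n, ⟨i, hi, j, hj, g1⟩, _, _⟩ := h L
    refine ⟨n, ?_⟩
    have e1 := Hs_length (P := P) (Q := Q) (pc γ n)
    have f1 := Hz_le_Tp (P := P) (Q := Q) γ hi
    have f2 := Bt_le_Hz (P := P) (Q := Q) γ hj
    simp only at g1
    omega

end

end Pool.Agent.SawHalf
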