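import Pool.Agent.SawHalf.Example

open scoped ENNReal
open Filter Topology MeasureTheory
open Pool.Agent.SawTree

namespace Pool.Agent.SawHalf

/-- `w` is the list of the sites, endpoint first, of a finite self-avoiding walk from the origin -/
def IsWalk (w : List (ℤ × ℤ)) : Prop :=
  w.Nodup ∧ w.getLast? = some ((0 : ℤ), (0 : ℤ)) ∧
    ∀ i : ℕ, i + 1 < w.length →
      |(w.getD i ((0 : ℤ), (0 : ℤ))).1 - (w.getD (i + 1) ((0 : ℤ), (0 : ℤ))).1|
        + |(w.getD i ((0 : ℤ), (0 : ℤ))).2 - (w.getD (i + 1) ((0 : ℤ), (0 : ℤ))).2| = 1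

/-- there is a unit flow of finite energy, for the conductances `b ^ |w|`, on the walks of `S` -/
def HasFlow (S : Set (List (ℤ × ℤ))) (b : ℝ) : Prop :=
  ∃ θ : List (ℤ × ℤ) → ℝ, (∀ w, w ∉ S → θ w = 0) ∧ θ [((0 : ℤ), (0 : ℤ))] = 1 ∧
    (∀ w ∈ S, θ w =
      (([((1 : ℤ), (0 : ℤ)), ((-1 : ℤ), (0 : ℤ)), ((0 : ℤ), (1 : ℤ)), ((0 : ℤ), (-1 : ℤ))]
        : List (ℤ × ℤ)).map (fun d => θ ((w.headD ((0 : ℤ), (0 : ℤ)) + d) :: w))).sum) ∧
    Summable (fun w : List (ℤ × ℤ) => θ w ^ 2 / b ^ w.length)

/-- the list of the sites, endpoint first, of the first `n` steps of an infinite walk -/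
def ini (γ : ℕ → ℤ × ℤ) (n : ℕ) : List (ℤ × ℤ) := ((List.range (n + 1)).map γ).reverse

/-- The infinite walk is bounded below in one of the directions of `V`, or, started from one of its
sites, has in one of the integer directions `v` a sequence of sides that belongs to `A v`. -/
def Thin (V : Set (ℝ × ℝ)) (A : ℤ × ℤ → Set (ℕ → Bool)) (γ : ℕ → ℤ × ℤ) : Prop :=
  (∃ v ∈ V, BddBelow (Set.range fun n => v.1 * ((γ n).1 : ℝ) + v.2 * ((γ n).2 : ℝ))) ∨
    ∃ (v : ℤ × ℤ) (k : ℕ), ∃ a ∈ A v,
      IsSides (fun n => v.1 * (γ (k + n)).1 + v.2 * (γ (k + n)).2) a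

/-! ### walks and words -/

lemma ini_succ (γ : ℕ → ℤ × ℤ) (n : ℕ) : ini γ (n + 1) = γ (n + 1) :: ini γ n := by
  unfold ini
  rw [List.range_succ, List.map_append, List.reverse_append]
  simp

lemma ini_length (γ : ℕ → ℤ × ℤ) (n : ℕ) : (ini γ n).length = n + 1 := by simp [ini]

lemma isWalk_tr {w : List (ℤ × ℤ)} (h : IsWalk w) : ∃ r, w = pr r := by
  induction w with
  | nil => simp [IsWalk] at h
  | cons p w ih =>
    cases w with
    | nil =>
      refine ⟨[], ?_⟩
      have := h.2.1
      simp at this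
      rw [this]; rfl
    | cons q w =>
      have hT : IsWalk (q :: w) := by
        obtain ⟨h1, h2, h3⟩ := h
        refine ⟨(List.nodup_cons.mp h1).2, ?_, ?_⟩
        · rw [List.getLast?_cons_cons] at h2; exact h2
        · intro i hi
          have := h3 (i + 1) (by simp at hi ⊢; omega)
          simpa using this
      obtain ⟨r, hr⟩ := ih hT
      have h0 := h.2.2 0 (by simp)
      simp only [List.getD_cons_zero, List.getD_cons_succ, zero_add] at h0
      obtain ⟨d, hd1, hd2⟩ := step_cases h0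
      refine ⟨d :: r, ?_⟩
      have hq : q = (X r, Y r) := by
        have := pr_head r
        rw [← hr] at this
        simpa using this
      rw [pr_cons, ← hr, X_cons, Y_cons]
      congr 1
      rw [hq] at hd1 hd2
      ext
      · simp only at hd1 ⊢; linarith
      · simp only at hd2 ⊢; linarith

lemma isWalk_pr (r : Wd) : IsWalk (pr r) ↔ Saw r.reverse := by
  unfold IsWalk
  constructor
  · rintro ⟨h1, _, _⟩
    exact ((nodup_pr r).mp h1).rev'
  · intro h1
    refine ⟨?_, getLast_pr r, adj_pr r⟩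
    rw [nodup_pr]
    have := h1.rev'
    rwa [List.reverse_reverse] at this

/-- the infinite word of an infinite walk -/
lemma exists_word {γ : ℕ → ℤ × ℤ} (h : ∀ n, IsWalk (ini γ n)) :
    ∃ g : ℕ → Fin 4, ∀ n, ini γ n = pr (pc g n).reverse := by
  classical
  have hstep : ∀ n, ∃ d : Fin 4, ∀ r, ini γ n = pr r → ini γ (n + 1) = pr (d :: r) := by
    intro n
    obtain ⟨r', hr'⟩ := isWalk_tr (h (n + 1))
    cases r' with
    | nil =>
      have := congrArg List.length hr'
      rw [ini_length, pr_length] at this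
      simp at this
    | cons d r' =>
      refine ⟨d, ?_⟩
      intro r hr
      have h2 : γ (n + 1) :: ini γ n = (X (d :: r'), Y (d :: r')) :: pr r' := by
        rw [← ini_succ, hr', pr_cons]
      have h3 : r' = r := pr_injective ((List.cons.inj h2).2.symm.trans hr)
      rw [hr', h3]
  choose g hg using hstep
  refine ⟨g, ?_⟩
  intro n
  induction n with
  | zero =>
    obtain ⟨r, hr⟩ := isWalk_tr (h 0)
    have hl := congrArg List.length hr
    rw [ini_length, pr_length] at hl
    have : r = [] := List.length_eq_zero_iff.mp (by omega)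
    rw [hr, this]; simp
  | succ n ih =>
    rw [pc_succ, List.reverse_append, List.reverse_singleton, List.singleton_append]
    exact hg n _ ih

lemma site_eq {γ : ℕ → ℤ × ℤ} {g : ℕ → Fin 4} {n : ℕ} (h : ini γ n = pr (pc g n).reverse) :
    γ n = (X (pc g n), Y (pc g n)) := by
  have h1 : (ini γ n).headD (0, 0) = γ n := by
    cases n with
    | zero => simp [ini]
    | succ n => rw [ini_succ]; rfl
  rw [← h1, h, pr_head, X_reverse, Y_reverse]

/-- the null class of the theorem -/
def Cl4 (V : Set (ℝ × ℝ)) (A : ℤ × ℤ → Set (ℕ → Bool)) : Set (ℕ → Fin 4) :=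
  (⋃ v ∈ V, {g | SawRay g ∧ ∃ k : ℝ, ∀ n, -k ≤ hh v.1 v.2 (pc g n)}) ∪
    ⋃ v ∈ (Set.univ : Set ((ℤ × ℤ) × ℕ)),
      {g | (fun i => g (v.2 + i)) ∈ {g | SawRay g ∧ ∃ a ∈ A v.1, Sd v.1.1 v.1.2 g a}}

lemma nul_Cl4 {z : ℝ≥0∞} (hz0 : 0 < z) (hz : z ≤ crit) {V : Set (ℝ × ℝ)} (hV : V.Countable)
    (hV0 : ((0 : ℝ), (0 : ℝ)) ∉ V) {A : ℤ × ℤ → Set (ℕ → Bool)} (hA : ∀ v, LogNull (A v)) :
    Nul z (Cl4 V A) := by
  have hzt : z ≠ ⊤ := ne_top_of_le_ne_top crit_ne_top hz
  apply Nul.union
  · apply Nul.biUnion hV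
    intro v hv
    apply nul_half hz0 hz
    rintro ⟨h1, h2⟩
    apply hV0
    have : v = (0, 0) := Prod.ext h1 h2
    rwa [← this]
  · apply Nul.biUnion (Set.countable_univ)
    rintro ⟨v, k⟩ _
    exact (nul_sides hz0 hz v.1 v.2 (hA v)).shift hzt k

lemma mem_Cl4 {V : Set (ℝ × ℝ)} {A : ℤ × ℤ → Set (ℕ → Bool)} {γ : ℕ → ℤ × ℤ} {g : ℕ → Fin 4}
    (hγ : ∀ n, ini γ n = pr (pc g n).reverse) (hS : SawRay g) (h : Thin V A γ) :
    g ∈ Cl4 V A := by
  have hsite : ∀ n, γ n = (X (pc g n), Y (pc g n)) := fun n => site_eq (hγ n)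
  rcases h with ⟨v, hv, m, hm⟩ | ⟨v, k, a, ha, hsd⟩
  · left
    simp only [Set.mem_iUnion]
    refine ⟨v, hv, hS, -m, ?_⟩
    intro n
    have := hm ⟨n, rfl⟩
    simp only [hsite] at this
    rw [neg_neg]
    exact this
  · right
    simp only [Set.mem_iUnion]
    refine ⟨(v, k), trivial, hS.shift k, a, ha, ?_⟩
    apply sd_of_isSides
    apply hsd.congr (Hz v.1 v.2 (pc g k))
    intro n
    rw [hsite (k + n), pc_add]
    have : v.1 * X (pc g k ++ pc (fun i => g (k + i)) n) +
        v.2 * Y (pc g k ++ pc (fun i => g (k + i)) n)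
        = Hz v.1 v.2 (pc g k ++ pc (fun i => g (k + i)) n) := rfl
    rw [this, Hz_append]
    ring

/-- a bias below which the full tree is recurrent is at most the critical one -/
lemma le_crit {c : ℝ} (hc : 0 < c)
    (hlow : ∀ b : ℝ, 0 < b → b < c → ¬ HasFlow {w | IsWalk w} b) : ENNReal.ofReal c ≤ crit := by
  classical
  by_contra hcrit
  push Not at hcrit
  obtain ⟨y, hy1, hy2⟩ := exists_between hcrit
  have hyt : y ≠ ⊤ := ne_top_of_lt hy2
  set b := y.toReal with hb
  have hyb : y = ENNReal.ofReal b := (ENNReal.ofReal_toReal hyt).symm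
  have hb0 : 0 < b := by
    have : 0 < y := lt_of_le_of_lt zero_le hy1
    exact ENNReal.toReal_pos this.ne' hyt
  have hbc : b < c := by
    rw [hyb] at hy2
    exact (ENNReal.ofReal_lt_ofReal_iff hc).mp hy2
  apply hlow b hb0 hbc
  obtain ⟨φ, g0, g1, g2, g3⟩ := exists_flow hb0 (by rw [← hyb]; exact hy1)
  set θ : List (ℤ × ℤ) → ℝ := fun w =>
    if h : ∃ r, w = pr r then φ h.choose.reverse else 0 with hθ
  have hθpr : ∀ r, θ (pr r) = φ r.reverse := by
    intro r
    have h : ∃ s, pr r = pr s := ⟨r, rfl⟩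
    have h' : θ (pr r) = φ h.choose.reverse := by
      rw [hθ]; simp only; rw [dif_pos h]
    rw [h', ← pr_injective h.choose_spec]
  have hθz : ∀ w, (¬ ∃ r, w = pr r) → θ w = 0 := by
    intro w hw
    rw [hθ]; simp only; rw [dif_neg hw]
  refine ⟨θ, ?_, ?_, ?_, ?_⟩
  · intro w hw
    by_cases h : ∃ r, w = pr r
    · obtain ⟨r, rfl⟩ := h
      rw [hθpr]
      apply g0
      intro hTH
      exact hw ((isWalk_pr r).mpr hTH.1)
    · exact hθz w h
  · have := hθpr []
    rw [pr_nil] at this
    rw [this]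
    simpa using g1
  · intro w hw
    obtain ⟨r, rfl⟩ := isWalk_tr hw
    rw [sum_dirs (fun d => θ (((pr r).headD ((0 : ℤ), (0 : ℤ)) + d) :: pr r)), hθpr]
    have e1 : ∀ d : Fin 4, θ (((pr r).headD ((0 : ℤ), (0 : ℤ)) + (vx d, vy d)) :: pr r)
        = φ (r.reverse ++ [d]) := by
      intro d
      rw [pr_step, hθpr, List.reverse_cons]
    simp_rw [e1]
    by_cases hTH : TH r.reverse
    · exact g2 _ hTH
    · rw [g0 _ hTH]
      symm
      apply Finset.sum_eq_zero
      intro d _
      apply g0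
      intro hTH'
      apply hTH
      exact ⟨hTH'.1.left rfl, fun a b hab => hTH'.2 a (b ++ [d]) (by rw [hab]; simp)⟩
  · have hinj : Function.Injective (fun u : Wd => pr u.reverse) := by
      intro u v h
      exact List.reverse_injective (pr_injective h)
    rw [← hinj.summable_iff]
    · refine g3.congr ?_
      intro u
      simp only [Function.comp]
      rw [hθpr, pr_length, List.length_reverse, List.reverse_reverse]
    · intro w hw
      rw [hθz w]
      · simp
      · rintro ⟨r, rfl⟩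
        apply hw
        exact ⟨r.reverse, by simp⟩

/-- **Subtrees.** -/
theorem subtree_recurrent {c : ℝ} (hc : 0 < c) (hcrit : ENNReal.ofReal c ≤ crit)
    {V : Set (ℝ × ℝ)} (hV : V.Countable)
    (hV0 : ((0 : ℝ), (0 : ℝ)) ∉ V) {A : ℤ × ℤ → Set (ℕ → Bool)} (hA : ∀ v, LogNull (A v))
    {S : Set (List (ℤ × ℤ))} (hS : ∀ w ∈ S, IsWalk w)
    (hT : ∀ (p : ℤ × ℤ) (w : List (ℤ × ℤ)), w ≠ [] → p :: w ∈ S → w ∈ S)
    (hray : ∀ γ : ℕ → ℤ × ℤ, (∀ n, ini γ n ∈ S) → Thin V A γ) : ¬ HasFlow S c := by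
  classical
  rintro ⟨θ, h0, h1, h2, h3⟩
  set T : Wd → Prop := fun u => pr u.reverse ∈ S with hTd
  have hTp : ∀ a d, T (a ++ [d]) → T a := by
    intro a d h
    rw [hTd] at h ⊢
    simp only at h ⊢
    rw [List.reverse_append, List.reverse_singleton, List.singleton_append, pr_cons] at h
    exact hT _ _ (pr_ne_nil _) h
  have hTc : ∀ a c', T (a ++ c') → T a := by
    intro a c'
    induction c' using List.reverseRecOn with
    | nil => intro h; simpa using h
    | append_singleton c' d ih =>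
      intro h
      rw [← List.append_assoc] at h
      exact ih (hTp _ _ h)
  have hinj : Function.Injective (fun u : Wd => pr u.reverse) := by
    intro u v h
    exact List.reverse_injective (pr_injective h)
  refine no_flow_of_nul hc (T := T) hTc (fun u => θ (pr u.reverse)) ?_ ?_ ?_ ?_
    (nul_Cl4 (ENNReal.ofReal_pos.mpr hc) hcrit hV hV0 hA) ?_
  · intro u hu
    exact h0 _ hu
  · simpa using h1
  · intro u hu
    show θ (pr u.reverse) = ∑ d : Fin 4, θ (pr (u ++ [d]).reverse)
    rw [h2 _ hu, sum_dirs (fun d => θ (((pr u.reverse).headD ((0 : ℤ), (0 : ℤ)) + d)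
      :: pr u.reverse))]
    apply Finset.sum_congr rfl
    intro d _
    rw [pr_step, List.reverse_append, List.reverse_singleton, List.singleton_append]
  · refine (h3.comp_injective hinj).congr ?_
    intro u
    simp only [Function.comp]
    rw [pr_length, List.length_reverse]
  · intro g hg
    set γ : ℕ → ℤ × ℤ := fun n => (X (pc g n), Y (pc g n)) with hγ
    have hini : ∀ n, ini γ n = pr (pc g n).reverse := by
      intro n
      induction n with
      | zero => simp [ini, hγ]
      | succ n ih =>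
        rw [ini_succ, ih, pc_succ, List.reverse_append, List.reverse_singleton,
          List.singleton_append, pr_cons]
        congr 1
        rw [hγ]
        simp only
        rw [pc_succ]
        have : g n :: (pc g n).reverse = (pc g n ++ [g n]).reverse := by simp
        rw [this, X_reverse, Y_reverse]
    have hSaw : SawRay g := by
      intro n
      have := (isWalk_pr _).mp (hS _ (hg n))
      rwa [List.reverse_reverse] at this
    apply mem_Cl4 hini hSaw
    apply hray
    intro n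
    rw [hini n]
    exact hg n

/-! ### measures on the infinite walks -/

lemma meas_cyl (l : List (ℤ × ℤ)) :
    MeasurableSet {γ : ℕ → ℤ × ℤ | ∃ n, ini γ n = l} := by
  have h : {γ : ℕ → ℤ × ℤ | ∃ n, ini γ n = l}
      = ⋃ n, {γ : ℕ → ℤ × ℤ | l.length = n + 1 ∧ ∀ i < n + 1, γ i = l.reverse.getD i 0} := by
    ext γ
    simp only [Set.mem_ofPred_eq, Set.mem_iUnion]
    constructor
    · rintro ⟨n, rfl⟩
      refine ⟨n, ini_length γ n, ?_⟩
      intro i hi
      unfold ini
      rw [List.reverse_reverse, List.getD_eq_getElem _ _ (by simpa using hi)]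
      simp
    · rintro ⟨n, h1, h2⟩
      refine ⟨n, ?_⟩
      unfold ini
      rw [← List.reverse_reverse l]
      congr 1
      apply List.ext_getElem
      · simp [h1]
      · intro i hi1 hi2
        have hi : i < n + 1 := by simpa using hi1
        rw [List.getElem_map, List.getElem_range, h2 i hi, List.getD_eq_getElem _ _ hi2]
  rw [h]
  apply MeasurableSet.iUnion
  intro n
  by_cases hl : l.length = n + 1
  · have : {γ : ℕ → ℤ × ℤ | l.length = n + 1 ∧ ∀ i < n + 1, γ i = l.reverse.getD i 0}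
        = ⋂ i ∈ Finset.range (n + 1), {γ : ℕ → ℤ × ℤ | γ i = l.reverse.getD i 0} := by
      ext γ
      simp only [Set.mem_ofPred_eq, Set.mem_iInter, Finset.mem_range]
      exact ⟨fun h => h.2, fun h => ⟨hl, h⟩⟩
    rw [this]
    apply Finset.measurableSet_biInter
    intro i _
    exact (measurable_pi_apply i) (measurableSet_singleton _)
  · have : {γ : ℕ → ℤ × ℤ | l.length = n + 1 ∧ ∀ i < n + 1, γ i = l.reverse.getD i 0} = ∅ := by
      ext γ
      simp only [Set.mem_ofPred_eq, Set.mem_empty_iff_false, iff_false]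
      exact fun h => hl h.1
    rw [this]
    exact MeasurableSet.empty

lemma mul_le_sq (x y s : ℝ≥0∞) (hs : s ≠ 0) (hst : s ≠ ⊤) : x * y ≤ x ^ 2 * s + y ^ 2 * s⁻¹ := by
  set t : ℝ≥0∞ := s ^ (1 / 2 : ℝ) with ht
  have ht2 : t ^ 2 = s := sqrt_sq' s
  have ht0 : t ≠ 0 := by
    intro h
    rw [h] at ht2
    apply hs
    rw [← ht2]; simp
  have htt : t ≠ ⊤ := by
    intro h
    rw [h] at ht2
    apply hst
    rw [← ht2]; simp
  have e1 : x * y = (x * t) * (y * t⁻¹) := by
    calc x * y = x * y * (t * t⁻¹) := by rw [ENNReal.mul_inv_cancel ht0 htt, mul_one]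
      _ = _ := by ring
  have e2 : ∀ a b : ℝ≥0∞, a * b ≤ a ^ 2 + b ^ 2 := by
    intro a b
    rcases le_total a b with h | h
    · calc a * b ≤ b * b := by gcongr
        _ = b ^ 2 := by ring
        _ ≤ _ := le_add_self
    · calc a * b ≤ a * a := by gcongr
        _ = a ^ 2 := by ring
        _ ≤ _ := le_self_add
  rw [e1]
  refine le_trans (e2 _ _) ?_
  apply le_of_eq
  rw [mul_pow, mul_pow, ht2]
  congr 2
  rw [← ENNReal.inv_pow, ht2]

/-- **Measures of finite energy.** -/
theorem ae_not_thin {c : ℝ} (hc : 0 < c) (hcrit : ENNReal.ofReal c ≤ crit)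
    {V : Set (ℝ × ℝ)} (hV : V.Countable)
    (hV0 : ((0 : ℝ), (0 : ℝ)) ∉ V) {A : ℤ × ℤ → Set (ℕ → Bool)} (hA : ∀ v, LogNull (A v))
    (P : Measure (ℕ → ℤ × ℤ)) [IsFiniteMeasure P] (hP : ∀ᵐ γ ∂P, ∀ n, IsWalk (ini γ n))
    (hE : Summable (fun w : List (ℤ × ℤ) => P.real {γ | ∃ n, ini γ n = w} ^ 2 / c ^ w.length)) :
    ∀ᵐ γ ∂P, ¬ Thin V A γ := by
  classical
  obtain ⟨ρ, hρ1, hρ2⟩ := nul_Cl4 (ENNReal.ofReal_pos.mpr hc) hcrit hV hV0 hA
  set z := ENNReal.ofReal c with hz
  have hz0 : z ≠ 0 := (ENNReal.ofReal_pos.mpr hc).ne'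
  have hzt : z ≠ ⊤ := ENNReal.ofReal_ne_top
  set cyl : List (ℤ × ℤ) → Set (ℕ → ℤ × ℤ) := fun l => {γ | ∃ n, ini γ n = l} with hcyl
  -- the expected length
  have hint : ∫⁻ γ, ∑' w : Wd, (cyl (pr w.reverse)).indicator (fun _ => ρ w) γ ∂P ≠ ⊤ := by
    rw [lintegral_tsum]
    · have e1 : ∀ w : Wd, ∫⁻ γ, (cyl (pr w.reverse)).indicator (fun _ => ρ w) γ ∂P
          = ρ w * P (cyl (pr w.reverse)) := by
        intro w
        rw [lintegral_indicator (meas_cyl _), lintegral_const, Measure.restrict_apply_univ]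
      simp_rw [e1]
      have e2 : ∑' w : Wd, ρ w * P (cyl (pr w.reverse))
          ≤ ∑' w : Wd, (ρ w ^ 2 * z ^ (w.length + 1) +
            P (cyl (pr w.reverse)) ^ 2 * (z ^ (w.length + 1))⁻¹) := by
        apply ENNReal.tsum_le_tsum
        intro w
        exact mul_le_sq _ _ _ (pow_ne_zero _ hz0) (ENNReal.pow_ne_top hzt)
      apply ne_top_of_le_ne_top _ e2
      rw [ENNReal.tsum_add]
      apply ENNReal.add_ne_top.mpr
      constructor
      · have e3 : ∑' w : Wd, ρ w ^ 2 * z ^ (w.length + 1)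
            = (∑' w : Wd, ρ w ^ 2 * z ^ w.length) * z := by
          rw [← ENNReal.tsum_mul_right]
          apply tsum_congr
          intro w
          rw [pow_succ]; ring
        rw [e3]
        exact ENNReal.mul_ne_top hρ1 hzt
      · have hinj : Function.Injective (fun u : Wd => pr u.reverse) := by
          intro u v h
          exact List.reverse_injective (pr_injective h)
        have h3 := (hE.comp_injective hinj).tsum_ofReal_ne_top
        apply ne_top_of_le_ne_top h3
        apply ENNReal.tsum_le_tsum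
        intro w
        simp only [Function.comp]
        apply le_of_eq
        rw [pr_length, List.length_reverse, ENNReal.ofReal_div_of_pos (by positivity),
          ENNReal.ofReal_pow measureReal_nonneg, ENNReal.ofReal_pow hc.le,
          ofReal_measureReal, div_eq_mul_inv]
    · intro w
      exact (measurable_const.indicator (meas_cyl _)).aemeasurable
  have hmeas : AEMeasurable (fun γ => ∑' w : Wd,
      (cyl (pr w.reverse)).indicator (fun _ => ρ w) γ) P := by
    apply Measurable.aemeasurable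
    apply Measurable.ennreal_tsum
    intro w
    exact measurable_const.indicator (meas_cyl _)
  have hae := ae_lt_top' hmeas hint
  filter_upwards [hae, hP] with γ h1 h2 hthin
  obtain ⟨g, hg⟩ := exists_word h2
  have hSaw : SawRay g := by
    intro n
    have := h2 n
    rw [hg n] at this
    have := (isWalk_pr _).mp this
    rwa [List.reverse_reverse] at this
  have h3 := hρ2 g (mem_Cl4 hg hSaw hthin)
  have hinj : Function.Injective (fun n => pc g n) := by
    intro a b h
    have := congrArg List.length h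
    simpa using this
  have h4 : ∑' n, ρ (pc g n)
      ≤ ∑' w : Wd, (cyl (pr w.reverse)).indicator (fun _ => ρ w) γ := by
    refine le_trans (le_of_eq ?_) (ENNReal.tsum_comp_le_tsum_of_injective hinj
      (fun w : Wd => (cyl (pr w.reverse)).indicator (fun _ => ρ w) γ))
    apply tsum_congr
    intro n
    rw [Set.indicator_of_mem]
    exact ⟨n, hg n⟩
  rw [h3, top_le_iff] at h4
  rw [h4] at h1
  exact absurd h1 (lt_irrefl _)

end Pool.Agent.SawHalf
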