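import Pool.Agent.SawHalf.Flow

open scoped ENNReal
open Filter Topology
open Pool.Agent.SawTree

namespace Pool.Agent.SawHalf

/-- initial word of an infinite word -/
def pc (γ : ℕ → Fin 4) (n : ℕ) : Wd := List.ofFn fun i : Fin n => γ i

@[simp] lemma pc_length (γ : ℕ → Fin 4) (n : ℕ) : (pc γ n).length = n := by simp [pc]

@[simp] lemma pc_zero (γ : ℕ → Fin 4) : pc γ 0 = [] := by simp [pc]

lemma pc_succ (γ : ℕ → Fin 4) (n : ℕ) : pc γ (n + 1) = pc γ n ++ [γ n] := by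
  unfold pc
  rw [List.ofFn_succ']
  simp

lemma pc_add (γ : ℕ → Fin 4) (k n : ℕ) : pc γ (k + n) = pc γ k ++ pc (fun i => γ (k + i)) n := by
  induction n with
  | zero => simp
  | succ n ih => rw [← add_assoc, pc_succ, ih, pc_succ]; simp

lemma pc_take (γ : ℕ → Fin 4) {k n : ℕ} (h : k ≤ n) : (pc γ n).take k = pc γ k := by
  obtain ⟨j, rfl⟩ := Nat.exists_eq_add_of_le h
  rw [pc_add, List.take_append_of_le_length (by simp)]
  rw [List.take_of_length_le (by simp)]

/-- The class `C` of infinite words is null at `z`: some weights of finite energy give infinite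
length to each of its members. -/
def Nul (z : ℝ≥0∞) (C : Set (ℕ → Fin 4)) : Prop :=
  ∃ ρ : Wd → ℝ≥0∞, ∑' w, ρ w ^ 2 * z ^ w.length ≠ ⊤ ∧ ∀ γ ∈ C, ∑' n, ρ (pc γ n) = ⊤

lemma Nul.mono {z : ℝ≥0∞} {C C' : Set (ℕ → Fin 4)} (h : Nul z C') (hs : C ⊆ C') : Nul z C := by
  obtain ⟨ρ, h1, h2⟩ := h
  exact ⟨ρ, h1, fun γ hγ => h2 γ (hs hγ)⟩

lemma sqrt_sq' (x : ℝ≥0∞) : (x ^ (1 / 2 : ℝ)) ^ 2 = x := by
  rw [← ENNReal.rpow_natCast, ← ENNReal.rpow_mul]
  norm_num

lemma sq_sqrt' (x : ℝ≥0∞) : (x ^ 2) ^ (1 / 2 : ℝ) = x := by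
  rw [← ENNReal.rpow_natCast, ← ENNReal.rpow_mul]
  norm_num

lemma Nul.iUnion {z : ℝ≥0∞} {C : ℕ → Set (ℕ → Fin 4)} (h : ∀ j, Nul z (C j)) :
    Nul z (⋃ j, C j) := by
  choose ρ h1 h2 using h
  set E : ℕ → ℝ≥0∞ := fun j => ∑' w, ρ j w ^ 2 * z ^ w.length with hE
  set c : ℕ → ℝ≥0∞ := fun j => (2⁻¹ : ℝ≥0∞) ^ (j + 1) * (E j + 1)⁻¹ with hc
  have hE1 : ∀ j, E j + 1 ≠ ⊤ := fun j => ENNReal.add_ne_top.mpr ⟨h1 j, ENNReal.one_ne_top⟩
  have hc0 : ∀ j, c j ≠ 0 := by
    intro j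
    apply mul_ne_zero
    · exact pow_ne_zero _ (by simp)
    · exact ENNReal.inv_ne_zero.mpr (hE1 j)
  refine ⟨fun w => (∑' j, c j * ρ j w ^ 2) ^ (1 / 2 : ℝ), ?_, ?_⟩
  · have e1 : ∑' w, ((∑' j, c j * ρ j w ^ 2) ^ (1 / 2 : ℝ)) ^ 2 * z ^ w.length
        = ∑' j, c j * E j := by
      calc ∑' w, ((∑' j, c j * ρ j w ^ 2) ^ (1 / 2 : ℝ)) ^ 2 * z ^ w.length
          = ∑' w : Wd, ∑' j, c j * (ρ j w ^ 2 * z ^ w.length) := by
            apply tsum_congr
            intro w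
            rw [sqrt_sq', ← ENNReal.tsum_mul_right]
            apply tsum_congr
            intro j
            ring
        _ = ∑' j, ∑' w : Wd, c j * (ρ j w ^ 2 * z ^ w.length) := ENNReal.tsum_comm
        _ = ∑' j, c j * E j := by
            apply tsum_congr
            intro j
            rw [ENNReal.tsum_mul_left]
    rw [e1]
    have e2 : ∑' j, c j * E j ≤ ∑' j, (2⁻¹ : ℝ≥0∞) ^ (j + 1) := by
      apply ENNReal.tsum_le_tsum
      intro j
      rw [hc]
      simp only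
      rw [mul_assoc]
      calc (2⁻¹ : ℝ≥0∞) ^ (j + 1) * ((E j + 1)⁻¹ * E j) ≤ (2⁻¹ : ℝ≥0∞) ^ (j + 1) * 1 := by
            gcongr
            calc (E j + 1)⁻¹ * E j ≤ (E j + 1)⁻¹ * (E j + 1) := by
                  gcongr
                  exact le_self_add
              _ = 1 := ENNReal.inv_mul_cancel (by simp) (hE1 j)
        _ = _ := mul_one _
    apply ne_top_of_le_ne_top _ e2
    have e3 : ∑' j, (2⁻¹ : ℝ≥0∞) ^ (j + 1) = 2⁻¹ * ∑' j, (2⁻¹ : ℝ≥0∞) ^ j := by
      rw [← ENNReal.tsum_mul_left]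
      apply tsum_congr
      intro j
      ring
    rw [e3, ENNReal.tsum_geometric]
    apply ENNReal.mul_ne_top (by simp)
    rw [ENNReal.inv_ne_top, ENNReal.one_sub_inv_two]
    simp
  · intro γ hγ
    obtain ⟨j, hj⟩ := Set.mem_iUnion.mp hγ
    have e1 : ∀ w, (c j) ^ (1 / 2 : ℝ) * ρ j w ≤ (∑' j, c j * ρ j w ^ 2) ^ (1 / 2 : ℝ) := by
      intro w
      have e2 : (c j) ^ (1 / 2 : ℝ) * ρ j w = (c j * ρ j w ^ 2) ^ (1 / 2 : ℝ) := by
        rw [ENNReal.mul_rpow_of_nonneg (c j) (ρ j w ^ 2) (by norm_num), sq_sqrt']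
      rw [e2]
      apply ENNReal.rpow_le_rpow _ (by norm_num)
      exact ENNReal.le_tsum (f := fun j => c j * ρ j w ^ 2) j
    rw [eq_top_iff]
    calc ⊤ = (c j) ^ (1 / 2 : ℝ) * ∑' n, ρ j (pc γ n) := by
          rw [h2 j γ hj, ENNReal.mul_top]
          intro h
          rw [ENNReal.rpow_eq_zero_iff] at h
          rcases h with ⟨h, _⟩ | ⟨_, h⟩
          · exact hc0 j h
          · norm_num at h
      _ = ∑' n, (c j) ^ (1 / 2 : ℝ) * ρ j (pc γ n) := by rw [ENNReal.tsum_mul_left]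
      _ ≤ _ := ENNReal.tsum_le_tsum (fun n => e1 _)

lemma Nul.union {z : ℝ≥0∞} {C C' : Set (ℕ → Fin 4)} (h : Nul z C) (h' : Nul z C') :
    Nul z (C ∪ C') := by
  refine (Nul.iUnion (C := fun j : ℕ => if j = 0 then C else C') ?_).mono ?_
  · intro j
    by_cases hj : j = 0 <;> simp [hj, h, h']
  · rintro γ (hγ | hγ)
    · exact Set.mem_iUnion.mpr ⟨0, by simpa using hγ⟩
    · exact Set.mem_iUnion.mpr ⟨1, by simpa using hγ⟩

/-- countable unions over an arbitrary countable set of indices -/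
lemma Nul.biUnion {z : ℝ≥0∞} {ι : Type*} {V : Set ι} (hV : V.Countable)
    {C : ι → Set (ℕ → Fin 4)} (h : ∀ v ∈ V, Nul z (C v)) : Nul z (⋃ v ∈ V, C v) := by
  rcases V.eq_empty_or_nonempty with hV0 | hV1
  · subst hV0
    refine ⟨fun _ => 0, by simp, ?_⟩
    intro γ hγ
    simp at hγ
  · obtain ⟨f, hf⟩ := hV.exists_eq_range hV1
    refine (Nul.iUnion (C := fun j => C (f j)) ?_).mono ?_
    · intro j
      apply h
      rw [hf]; exact ⟨j, rfl⟩
    · intro γ hγ
      simp only [Set.mem_iUnion] at hγ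
      obtain ⟨v, hv, hγ⟩ := hγ
      rw [hf] at hv
      obtain ⟨j, rfl⟩ := hv
      exact Set.mem_iUnion.mpr ⟨j, hγ⟩

/-- deleting finitely many letters -/
lemma Nul.shift {z : ℝ≥0∞} (hz : z ≠ ⊤) {C : Set (ℕ → Fin 4)} (h : Nul z C) (k : ℕ) :
    Nul z {γ | (fun i => γ (k + i)) ∈ C} := by
  classical
  obtain ⟨ρ, h1, h2⟩ := h
  refine ⟨fun w => if k ≤ w.length then ρ (w.drop k) else 0, ?_, ?_⟩
  · show ∑' w : Wd, (if k ≤ w.length then ρ (w.drop k) else 0) ^ 2 * z ^ w.length ≠ ⊤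
    set g : Wd × Wd → ℝ≥0∞ := fun p => (if p.1 ∈ wordsF k then z ^ k else 0) *
      (ρ p.2 ^ 2 * z ^ p.2.length) with hg
    have e1 : ∑' w : Wd, (if k ≤ w.length then ρ (w.drop k) else 0) ^ 2 * z ^ w.length
        ≤ ∑' w : Wd, g (w.take k, w.drop k) := by
      apply ENNReal.tsum_le_tsum
      intro w
      by_cases hw : k ≤ w.length
      · rw [if_pos hw, hg]
        simp only
        rw [if_pos (mem_wordsF.mpr (by simp [hw]))]
        apply le_of_eq
        have : w.length = k + (w.drop k).length := by rw [List.length_drop]; omega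
        conv_lhs => rw [this]
        rw [pow_add]
        ring
      · rw [if_neg hw]
        simp
    have hinj : Function.Injective (fun w : Wd => (w.take k, w.drop k)) := by
      intro w w' hww
      have h3 := congrArg Prod.fst hww
      have h4 := congrArg Prod.snd hww
      simp only at h3 h4
      rw [← List.take_append_drop k w, h3, h4, List.take_append_drop]
    have e2 : ∑' w : Wd, g (w.take k, w.drop k) ≤ ∑' p, g p :=
      ENNReal.tsum_comp_le_tsum_of_injective hinj g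
    have e3 : ∑' p, g p = (∑' u : Wd, if u ∈ wordsF k then z ^ k else 0) *
        ∑' x, ρ x ^ 2 * z ^ x.length := by
      rw [← ENNReal.tsum_mul_right, ENNReal.tsum_prod']
      apply tsum_congr
      intro u
      rw [← ENNReal.tsum_mul_left]
    apply ne_top_of_le_ne_top _ (le_trans e1 e2)
    rw [e3]
    apply ENNReal.mul_ne_top _ h1
    rw [tsum_eq_sum (s := wordsF k)]
    · apply (ENNReal.sum_lt_top.mpr _).ne
      intro u hu
      rw [if_pos hu]
      exact (ENNReal.pow_ne_top hz).lt_top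
    · intro u hu
      rw [if_neg hu]
  · intro γ hγ
    have h3 := h2 _ hγ
    rw [eq_top_iff, ← h3]
    have hinj : Function.Injective (fun n : ℕ => k + n) := fun a b h => by simpa using h
    refine le_trans (le_of_eq ?_) (ENNReal.tsum_comp_le_tsum_of_injective hinj
      (fun n => if k ≤ (pc γ n).length then ρ ((pc γ n).drop k) else 0))
    apply tsum_congr
    intro n
    rw [if_pos (by simp), pc_add, List.drop_append_of_le_length (by simp),
      List.drop_of_length_le (by simp)]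
    simp

end Pool.Agent.SawHalf
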