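import Pool.Agent.SawHalf.Hist

open scoped ENNReal
open Filter Topology
open Pool.Agent.SawTree

namespace Pool.Agent.SawHalf

section
variable {P Q : ℤ} {z : ℝ≥0∞}

lemma Bz_le (hz0 : 0 < z) (hz : z ≤ crit) (n : ℤ) : Wt z (Bz P Q n) ≤ 1 := by
  refine le_trans (Wt_mono ?_) (FR_le (p := (P : ℝ)) (q := (Q : ℝ)) hz0 hz (n : ℝ))
  rintro D ⟨h1, h2, h3, h4⟩
  refine ⟨h1, ?_, ?_, ?_⟩
  · intro a b hab
    rw [← Hz_cast]
    exact_mod_cast h2 a b hab
  · rw [← Hz_cast, h4]
  · intro a b hab hb
    rw [← Hz_cast]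
    have g1 := h3 a b hab hb
    have g2 : Hz P Q a + Hz P Q b = n := by rw [← h4, hab, Hz_append]
    have g3 : Hz P Q a < n := by omega
    exact_mod_cast g3

/-- the last element of the word of sides decides the kind of record -/
lemma top_record {u : Wd} {d : Fin 4} {x : List Bool} (hlen : (Hs P Q u).length < x.length)
    (hx : x <+: Hs P Q (u ++ [d])) {x' : List Bool} (hx' : x = x' ++ [true]) :
    Tp P Q u < Hz P Q (u ++ [d]) := by
  by_contra hcon
  push Not at hcon
  have e1 : (Hz P Q (u ++ [d]) - Tp P Q u).toNat = 0 := by omega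
  have e2 : Hs P Q (u ++ [d]) = Hs P Q u ++
      List.replicate (Bt P Q u - Hz P Q (u ++ [d])).toNat false := by
    rw [Hs_snoc, e1, List.replicate_zero, List.nil_append]
  obtain ⟨t, ht⟩ := hx
  rw [e2] at ht
  rcases List.append_eq_append_iff.mp ht with ⟨a', h3, h4⟩ | ⟨c', h3, h4⟩
  · have := congrArg List.length h3
    rw [List.length_append] at this
    omega
  · -- x = Hs u ++ c', replicate _ false = c' ++ t
    have hc : c' ≠ [] := by
      intro h
      rw [h, List.append_nil] at h3
      rw [h3] at hlen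
      exact lt_irrefl _ hlen
    obtain ⟨c'', s, hs⟩ : ∃ c'' s, c' = c'' ++ [s] :=
      ⟨c'.dropLast, c'.getLast hc, (List.dropLast_append_getLast hc).symm⟩
    have hs1 : s = true := by
      rw [hx', hs, ← List.append_assoc] at h3
      have := List.append_inj_right' h3 (by simp)
      simpa using this.symm
    have hs2 : s = false := by
      have : s ∈ List.replicate (Bt P Q u - Hz P Q (u ++ [d])).toNat false := by
        rw [h4, hs]; simp
      exact (List.mem_replicate.mp this).2
    rw [hs1] at hs2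
    exact absurd hs2 (by simp)

lemma end_true {x x' : List Bool} (hx : x = x' ++ [true]) : ∃ y k, 0 < k ∧
    x = y ++ List.replicate k true ∧ (y = [] ∨ ∃ y', y = y' ++ [false]) := by
  obtain ⟨y, k, h1, h2⟩ := block_true x
  refine ⟨y, k, ?_, h1, h2⟩
  by_contra hk
  have hk0 : k = 0 := by omega
  subst hk0
  rw [List.replicate_zero, List.append_nil] at h1
  rcases h2 with h2 | ⟨y', h2⟩
  · rw [h1, h2] at hx
    simp at hx
  · rw [h1, h2] at hx
    have := List.append_inj_right' hx (by simp)
    simp at this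

/-- the common part of the two decompositions -/
lemma decomp {w u w1 D : Wd} {d : Fin 4} (hS : Saw w) (hw : w = u ++ [d])
    (htop : Tp P Q u < Hz P Q (u ++ [d])) (hwD : w = w1 ++ D) (hB : Bt P Q w = Hz P Q w1) :
    Saw D ∧ (∀ a b, D = a ++ b → 0 ≤ Hz P Q a) ∧
    (∀ a b, D = a ++ b → b ≠ [] → Hz P Q a ≤ Tp P Q u - Bt P Q u) ∧
    (∀ a b, D = a ++ b → b ≠ [] → 0 < Hz P Q b) ∧ Hz P Q D = (Hs P Q w).length := by
  have hBT := Bt_le_Tp (P := P) (Q := Q) u
  have hBu : Bt P Q w = Bt P Q u := by
    rw [hw, Bt_snoc]; omega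
  have hTw : Tp P Q w = Hz P Q w := by
    rw [hw, Tp_snoc]; omega
  have hpre : ∀ a b, D = a ++ b → b ≠ [] → Hz P Q (w1 ++ a) ≤ Tp P Q u := by
    intro a b hab hb
    obtain ⟨b', s, hs⟩ : ∃ b' s, b = b' ++ [s] :=
      ⟨b.dropLast, b.getLast hb, (List.dropLast_append_getLast hb).symm⟩
    have e1 : u ++ [d] = (w1 ++ a ++ b') ++ [s] := by
      rw [← hw, hwD, hab, hs]; simp
    have e2 := (List.append_inj' e1 rfl).1
    rw [e2]
    exact le_Tp (w1 ++ a) b'
  refine ⟨hS.right hwD, ?_, ?_, ?_, ?_⟩
  · intro a b hab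
    have := Bt_le (P := P) (Q := Q) (w1 ++ a) b
    rw [List.append_assoc, ← hab, ← hwD, hB, Hz_append] at this
    omega
  · intro a b hab hb
    have := hpre a b hab hb
    rw [Hz_append] at this
    omega
  · intro a b hab hb
    have g1 := hpre a b hab hb
    have g2 : Hz P Q w = Hz P Q (w1 ++ a) + Hz P Q b := by
      rw [hwD, hab]; simp only [Hz_append]; ring
    rw [← hw] at htop
    omega
  · rw [Hs_length, hTw, hB, hwD, Hz_append]; ring

lemma Rx_sub {x y : List Bool} {k : ℕ} (hk : 0 < k) (hx : x = y ++ List.replicate k true)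
    (hy : y = [] ∨ ∃ y', y = y' ++ [false]) {w : Wd} (hw : w ∈ Rx P Q x) :
    ∃ w1 ∈ Rx P Q y, ∃ D ∈ Bz P Q x.length, w = w1 ++ D := by
  obtain ⟨hS, hF, hH⟩ := hw
  obtain ⟨w1, D, g1, g2, g3, g4⟩ := cut_low w y k (hH.trans hx) hy
  obtain ⟨x', hx'⟩ := rep_snoc y k hk true
  rw [← hx] at hx'
  rcases hF with hF | ⟨u, d, hwu, hlen⟩
  · rw [hF, Hs_nil] at hH
    rw [← hH] at hx'
    simp at hx'
  · rw [hH] at hlen
    have htop : Tp P Q u < Hz P Q (u ++ [d]) :=
      top_record hlen (by rw [← hwu, hH]) hx'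
    obtain ⟨f1, f2, _, f4, f5⟩ := decomp hS hwu htop g1 g4
    refine ⟨w1, ⟨hS.left g1, g3, g2⟩, D, ⟨f1, f2, f4, ?_⟩, g1⟩
    rw [f5, hH]

lemma Px_sub {x y : List Bool} {k : ℕ} (hk : 0 < k) (hx : x = y ++ List.replicate k true)
    (hy : y = [] ∨ ∃ y', y = y' ++ [false]) {w : Wd} (hw : w ∈ Px P Q x) :
    ∃ w1 ∈ Rx P Q y, ∃ D ∈ FR (P : ℝ) (Q : ℝ) (x.length : ℝ), w = w1 ++ D := by
  obtain ⟨hS, u, d, hwu, hlen, hpre⟩ := hw
  obtain ⟨x', hx'⟩ := rep_snoc y k hk true
  rw [← hx] at hx'
  have htop : Tp P Q u < Hz P Q (u ++ [d]) := top_record hlen (by rw [← hwu]; exact hpre) hx'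
  have hBT := Bt_le_Tp (P := P) (Q := Q) u
  have e1 : (Bt P Q u - Hz P Q (u ++ [d])).toNat = 0 := by omega
  have e2 : Hs P Q w = Hs P Q u ++
      List.replicate (Hz P Q (u ++ [d]) - Tp P Q u).toNat true := by
    rw [hwu, Hs_snoc, e1, List.replicate_zero, List.append_nil]
  obtain ⟨t, ht⟩ := hpre
  have e3 : Hs P Q w = y ++ List.replicate (k + t.length) true := by
    have e4 : t = List.replicate t.length true := by
      rw [e2] at ht
      rcases List.append_eq_append_iff.mp ht with ⟨a', h3, h4⟩ | ⟨c', h3, h4⟩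
      · have := congrArg List.length h3
        rw [List.length_append] at this
        omega
      · apply List.eq_replicate_iff.mpr
        refine ⟨rfl, ?_⟩
        intro s hs
        have : s ∈ List.replicate (Hz P Q (u ++ [d]) - Tp P Q u).toNat true := by
          rw [h4]; simp [hs]
        exact (List.mem_replicate.mp this).2
    rw [← ht, e4, hx, List.length_replicate, List.append_assoc, List.replicate_append_replicate]
  obtain ⟨w1, D, g1, g2, g3, g4⟩ := cut_low w y _ e3 hy
  obtain ⟨f1, f2, f3, f4, f5⟩ := decomp hS hwu htop g1 g4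
  refine ⟨w1, ⟨hS.left g1, g3, g2⟩, D, ⟨f1, ?_, ?_, ?_⟩, g1⟩
  · intro a b hab
    rw [← Hz_cast]
    exact_mod_cast f2 a b hab
  · rw [← Hz_cast, f5]
    have : x.length ≤ (Hs P Q w).length := by
      rw [← ht, List.length_append]; omega
    exact_mod_cast this
  · intro a b hab hb
    rw [← Hz_cast]
    have g5 := f3 a b hab hb
    rw [← Hs_length] at g5
    have g6 : Hz P Q a < x.length := by
      have : ((Hs P Q u).length : ℤ) < x.length := by exact_mod_cast hlen
      omega
    exact_mod_cast g6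

lemma Rx_nil_le : Wt z (Rx P Q []) ≤ 1 := by
  have h : Rx P Q [] ⊆ {[]} := by
    rintro w ⟨_, hF, hH⟩
    rcases hF with hF | ⟨u, d, _, hlen⟩
    · exact hF
    · rw [hH] at hlen
      simp at hlen
  calc Wt z (Rx P Q []) ≤ Wt z {([] : Wd)} := Wt_mono h
    _ = 1 := by rw [Wt_singleton]; simp

lemma Rx_le (hz0 : 0 < z) (hz : z ≤ crit) : ∀ (n : ℕ) (P Q : ℤ) (x : List Bool), x.length ≤ n →
    Wt z (Rx P Q x) ≤ 1 := by
  intro n
  induction n with
  | zero =>
    intro P Q x hx
    have : x = [] := List.length_eq_zero_iff.mp (by omega)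
    subst this
    exact Rx_nil_le
  | succ n ih =>
    have aux : ∀ (P Q : ℤ) (x x' : List Bool), x.length ≤ n + 1 → x = x' ++ [true] →
        Wt z (Rx P Q x) ≤ 1 := by
      intro P Q x x' hx hx'
      obtain ⟨y, k, hk, h1, h2⟩ := end_true hx'
      have hyl : y.length ≤ n := by
        have := congrArg List.length h1
        rw [List.length_append, List.length_replicate] at this
        omega
      calc Wt z (Rx P Q x) ≤ Wt z (Rx P Q y) * Wt z (Bz P Q x.length) :=
            Wt_le_append (fun w hw => Rx_sub hk h1 h2 hw)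
        _ ≤ 1 * 1 := mul_le_mul' (ih P Q y hyl) (Bz_le hz0 hz _)
        _ = 1 := one_mul _
    intro P Q x hx
    by_cases hne : x = []
    · subst hne; exact Rx_nil_le
    · obtain ⟨x', s, hs⟩ : ∃ x' s, x = x' ++ [s] :=
        ⟨x.dropLast, x.getLast hne, (List.dropLast_append_getLast hne).symm⟩
      cases s with
      | true => exact aux P Q x x' hx hs
      | false =>
        rw [← Rx_neg]
        apply aux (-P) (-Q) _ (x'.map not) (by simpa using hx)
        rw [hs]; simp

theorem Px_le (hz0 : 0 < z) (hz : z ≤ crit) (P Q : ℤ) (x : List Bool) :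
    Wt z (Px P Q x) ≤ 1 := by
  have aux : ∀ (P Q : ℤ) (x x' : List Bool), x = x' ++ [true] → Wt z (Px P Q x) ≤ 1 := by
    intro P Q x x' hx'
    obtain ⟨y, k, hk, h1, h2⟩ := end_true hx'
    calc Wt z (Px P Q x) ≤ Wt z (Rx P Q y) * Wt z (FR (P : ℝ) (Q : ℝ) (x.length : ℝ)) :=
          Wt_le_append (fun w hw => Px_sub hk h1 h2 hw)
      _ ≤ 1 * 1 := mul_le_mul' (Rx_le hz0 hz _ P Q y (le_refl _)) (FR_le hz0 hz _)
      _ = 1 := one_mul _
  by_cases hne : x = []
  · subst hne
    have : Px P Q [] ⊆ {[]} := by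
      rintro w ⟨_, u, d, _, hlen, _⟩
      simp at hlen
    calc Wt z (Px P Q []) ≤ Wt z {([] : Wd)} := Wt_mono this
      _ = 1 := by rw [Wt_singleton]; simp
  · obtain ⟨x', s, hs⟩ : ∃ x' s, x = x' ++ [s] :=
      ⟨x.dropLast, x.getLast hne, (List.dropLast_append_getLast hne).symm⟩
    cases s with
    | true => exact aux P Q x x' hs
    | false =>
      rw [← Px_neg]
      apply aux (-P) (-Q) _ (x'.map not)
      rw [hs]; simp

lemma Hs_mono (w : Wd) (d : Fin 4) : (Hs P Q w).length ≤ (Hs P Q (w ++ [d])).length ∧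
    (Hs P Q (w ++ [d])).length ≤ (Hs P Q w).length + (P.natAbs + Q.natAbs) := by
  have h1 := Hs_length (P := P) (Q := Q) w
  have h2 := Hs_length (P := P) (Q := Q) (w ++ [d])
  have h3 := le_Tp (P := P) (Q := Q) w []
  have h4 := Bt_le (P := P) (Q := Q) w []
  rw [List.append_nil] at h3 h4
  rw [Tp_snoc, Bt_snoc] at h2
  have h5 : Hz P Q (w ++ [d]) = Hz P Q w + Hz P Q [d] := Hz_append _ _
  have h6 : |Hz P Q [d]| ≤ P.natAbs + Q.natAbs := by
    have : Hz P Q [d] = P * vx d + Q * vy d := by simp [Hz, X, Y]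
    rw [this]
    fin_cases d <;> simp [vx, vy]
  rw [abs_le] at h6
  constructor
  · rw [Hs_snoc]; simp
  · omega

end

/-- first `n` terms of a sequence of sides -/
def ip (a : ℕ → Bool) (n : ℕ) : List Bool := List.ofFn fun i : Fin n => a i

@[simp] lemma ip_length (a : ℕ → Bool) (n : ℕ) : (ip a n).length = n := by simp [ip]

lemma ip_succ (a : ℕ → Bool) (n : ℕ) : ip a (n + 1) = ip a n ++ [a n] := by
  unfold ip
  rw [List.ofFn_succ']
  simp

lemma ip_add (a : ℕ → Bool) (k n : ℕ) : ip a (k + n) = ip a k ++ ip (fun i => a (k + i)) n := by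
  induction n with
  | zero => simp [ip]
  | succ n ih => rw [← add_assoc, ip_succ, ih, ip_succ]; simp

lemma ip_take (a : ℕ → Bool) {k n : ℕ} (h : k ≤ n) : (ip a n).take k = ip a k := by
  obtain ⟨j, rfl⟩ := Nat.exists_eq_add_of_le h
  rw [ip_add, List.take_append_of_le_length (by simp)]
  rw [List.take_of_length_le (by simp)]

/-- sets of zero capacity of the binary tree with unit conductances -/
def LogNull (A : Set (ℕ → Bool)) : Prop :=
  ∃ m : List Bool → ℝ, (∀ x, 0 ≤ m x) ∧ Summable (fun x => m x ^ 2) ∧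
    ∀ a ∈ A, ¬ Summable (fun n : ℕ => m (List.ofFn fun i : Fin n => a i))

/-- `a` is the sequence of sides of the infinite word -/
def Sd (P Q : ℤ) (γ : ℕ → Fin 4) (a : ℕ → Bool) : Prop :=
  (∀ n, Hs P Q (pc γ n) = ip a (Hs P Q (pc γ n)).length) ∧
    ∀ L : ℕ, ∃ n, L ≤ (Hs P Q (pc γ n)).length

/-- The self-avoiding infinite words whose sequence of sides belongs to a set of zero capacity
form a null class. -/
theorem nul_sides {z : ℝ≥0∞} (hz0 : 0 < z) (hz : z ≤ crit) (P Q : ℤ) {A : Set (ℕ → Bool)}
    (hA : LogNull A) : Nul z {γ | SawRay γ ∧ ∃ a ∈ A, Sd P Q γ a} := by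
  classical
  obtain ⟨m, hm0, hm1, hm2⟩ := hA
  set ρ : Wd → ℝ≥0∞ := fun w => if Saw w then
    ∑ L ∈ Finset.Ioc (Hs P Q w.dropLast).length (Hs P Q w).length,
      ENNReal.ofReal (m ((Hs P Q w).take L)) else 0 with hρ
  refine ⟨ρ, ?_, ?_⟩
  · set J : ℕ := P.natAbs + Q.natAbs with hJ
    have hw : ∀ w : Wd, ρ w ^ 2 ≤ (J : ℝ≥0∞) *
        ∑' x, if w ∈ Px P Q x then ENNReal.ofReal (m x) ^ 2 else 0 := by
      intro w
      by_cases hS : Saw w
      swap
      · rw [hρ]; simp only; rw [if_neg hS]; simp
      rw [hρ]; simp only; rw [if_pos hS]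
      induction w using List.reverseRecOn with
      | nil => simp
      | append_singleton u d _ =>
        rw [List.dropLast_concat]
        set s := Finset.Ioc (Hs P Q u).length (Hs P Q (u ++ [d])).length with hs
        have hcard : (s.card : ℝ) ≤ J := by
          have h1 := (Hs_mono (P := P) (Q := Q) u d)
          rw [← hJ] at h1
          have : s.card ≤ J := by
            rw [hs, Nat.card_Ioc]; omega
          exact_mod_cast this
        have e1 : (∑ L ∈ s, ENNReal.ofReal (m ((Hs P Q (u ++ [d])).take L))) ^ 2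
            ≤ (J : ℝ≥0∞) * ∑ L ∈ s, ENNReal.ofReal (m ((Hs P Q (u ++ [d])).take L)) ^ 2 := by
          rw [← ENNReal.ofReal_sum_of_nonneg (fun L _ => hm0 _),
            ← ENNReal.ofReal_pow (Finset.sum_nonneg (fun L _ => hm0 _))]
          have e2 : ∑ L ∈ s, ENNReal.ofReal (m ((Hs P Q (u ++ [d])).take L)) ^ 2
              = ENNReal.ofReal (∑ L ∈ s, m ((Hs P Q (u ++ [d])).take L) ^ 2) := by
            rw [ENNReal.ofReal_sum_of_nonneg (fun L _ => by positivity)]
            apply Finset.sum_congr rfl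
            intro L _
            rw [ENNReal.ofReal_pow (hm0 _)]
          rw [e2, ← ENNReal.ofReal_natCast J, ← ENNReal.ofReal_mul (by positivity)]
          apply ENNReal.ofReal_le_ofReal
          refine le_trans (sq_sum_le_card_mul_sum_sq) ?_
          exact mul_le_mul_of_nonneg_right hcard (Finset.sum_nonneg (fun L _ => by positivity))
        refine le_trans e1 ?_
        gcongr
        -- the finite sum is a part of the series
        have hinj : Set.InjOn (fun L => (Hs P Q (u ++ [d])).take L) (s : Set ℕ) := by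
          intro L hL L' hL' hLL
          rw [hs, Finset.coe_Ioc, Set.mem_Ioc] at hL hL'
          have := congrArg List.length hLL
          simp only [List.length_take] at this
          omega
        calc ∑ L ∈ s, ENNReal.ofReal (m ((Hs P Q (u ++ [d])).take L)) ^ 2
            = ∑ x ∈ s.image (fun L => (Hs P Q (u ++ [d])).take L),
                ENNReal.ofReal (m x) ^ 2 := by
              rw [Finset.sum_image hinj]
          _ = ∑ x ∈ s.image (fun L => (Hs P Q (u ++ [d])).take L),
                if u ++ [d] ∈ Px P Q x then ENNReal.ofReal (m x) ^ 2 else 0 := by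
              apply Finset.sum_congr rfl
              intro x hx
              rw [Finset.mem_image] at hx
              obtain ⟨L, hL, rfl⟩ := hx
              rw [hs, Finset.mem_Ioc] at hL
              rw [if_pos]
              refine ⟨hS, u, d, rfl, ?_, List.take_prefix _ _⟩
              rw [List.length_take]; omega
          _ ≤ _ := ENNReal.sum_le_tsum _
    have e1 : ∑' w, ρ w ^ 2 * z ^ w.length ≤ (J : ℝ≥0∞) *
        ∑' x, ENNReal.ofReal (m x) ^ 2 * Wt z (Px P Q x) := by
      calc ∑' w, ρ w ^ 2 * z ^ w.length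
          ≤ ∑' w : Wd, ((J : ℝ≥0∞) *
            ∑' x, if w ∈ Px P Q x then ENNReal.ofReal (m x) ^ 2 else 0) * z ^ w.length := by
            apply ENNReal.tsum_le_tsum
            intro w
            gcongr
            exact hw w
        _ = (J : ℝ≥0∞) * ∑' w : Wd, ∑' x,
            (if w ∈ Px P Q x then ENNReal.ofReal (m x) ^ 2 else 0) * z ^ w.length := by
            rw [← ENNReal.tsum_mul_left]
            apply tsum_congr
            intro w
            rw [mul_assoc, ENNReal.tsum_mul_right]
        _ = (J : ℝ≥0∞) * ∑' x, ∑' w : Wd,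
            (if w ∈ Px P Q x then ENNReal.ofReal (m x) ^ 2 else 0) * z ^ w.length := by
            rw [ENNReal.tsum_comm]
        _ = _ := by
            congr 1
            apply tsum_congr
            intro x
            unfold Wt
            rw [tsum_subtype (Px P Q x) (fun w : Wd => z ^ w.length), ← ENNReal.tsum_mul_left]
            apply tsum_congr
            intro w
            by_cases hx : w ∈ Px P Q x
            · simp [hx]
            · simp [hx]
    apply ne_top_of_le_ne_top _ e1
    apply ENNReal.mul_ne_top (by simp)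
    have e2 : ∑' x, ENNReal.ofReal (m x) ^ 2 * Wt z (Px P Q x)
        ≤ ∑' x, ENNReal.ofReal (m x ^ 2) := by
      apply ENNReal.tsum_le_tsum
      intro x
      rw [ENNReal.ofReal_pow (hm0 x)]
      calc ENNReal.ofReal (m x) ^ 2 * Wt z (Px P Q x) ≤ ENNReal.ofReal (m x) ^ 2 * 1 := by
            gcongr
            exact Px_le hz0 hz P Q x
        _ = _ := mul_one _
    exact ne_top_of_le_ne_top hm1.tsum_ofReal_ne_top e2
  · rintro γ ⟨hS, a, ha, hSd1, hSd2⟩
    have hdiv : ∑' L : ℕ, ENNReal.ofReal (m (ip a L)) = ⊤ := by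
      by_contra hcon
      apply hm2 a ha
      have h3 := ENNReal.summable_toReal hcon
      refine h3.congr ?_
      intro j
      rw [ENNReal.toReal_ofReal (hm0 _)]
      rfl
    have hpart : ∀ N, ∑ n ∈ Finset.range N, ρ (pc γ (n + 1))
        = ∑ L ∈ Finset.Ioc 0 (Hs P Q (pc γ N)).length, ENNReal.ofReal (m (ip a L)) := by
      intro N
      induction N with
      | zero => simp
      | succ N ih =>
        rw [Finset.sum_range_succ, ih]
        have hle := (Hs_mono (P := P) (Q := Q) (pc γ N) (γ N)).1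
        rw [← pc_succ] at hle
        have e1 : ρ (pc γ (N + 1)) = ∑ L ∈ Finset.Ioc (Hs P Q (pc γ N)).length
            (Hs P Q (pc γ (N + 1))).length, ENNReal.ofReal (m (ip a L)) := by
          rw [hρ]
          simp only
          rw [if_pos (hS _)]
          have : (pc γ (N + 1)).dropLast = pc γ N := by
            rw [pc_succ, List.dropLast_concat]
          rw [this]
          apply Finset.sum_congr rfl
          intro L hL
          rw [Finset.mem_Ioc] at hL
          have e2 : (Hs P Q (pc γ (N + 1))).take L = ip a L := by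
            conv_lhs => rw [hSd1 (N + 1)]
            exact ip_take a hL.2
          rw [e2]
        rw [e1]
        rw [← Finset.sum_union]
        · congr 1
          rw [Finset.Ioc_union_Ioc_eq_Ioc (Nat.zero_le _) hle]
        · rw [Finset.disjoint_left]
          intro L h1 h2
          rw [Finset.mem_Ioc] at h1 h2
          omega
    have hge : ∀ n, ∑ L ∈ Finset.range n, ENNReal.ofReal (m (ip a L))
        ≤ ENNReal.ofReal (m (ip a 0)) + ∑' n, ρ (pc γ n) := by
      intro n
      obtain ⟨N, hN⟩ := hSd2 n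
      have hinj : Function.Injective (fun n : ℕ => n + 1) := fun a b h => by simpa using h
      calc ∑ L ∈ Finset.range n, ENNReal.ofReal (m (ip a L))
          ≤ ∑ L ∈ insert 0 (Finset.Ioc 0 (Hs P Q (pc γ N)).length),
              ENNReal.ofReal (m (ip a L)) := by
            apply Finset.sum_le_sum_of_subset
            intro L hL
            rw [Finset.mem_range] at hL
            rw [Finset.mem_insert, Finset.mem_Ioc]
            omega
        _ = ENNReal.ofReal (m (ip a 0)) + ∑ L ∈ Finset.Ioc 0 (Hs P Q (pc γ N)).length,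
              ENNReal.ofReal (m (ip a L)) := by
            rw [Finset.sum_insert (by simp)]
        _ ≤ _ := by
            gcongr
            rw [← hpart N]
            exact le_trans (ENNReal.sum_le_tsum _)
              (ENNReal.tsum_comp_le_tsum_of_injective hinj (fun n => ρ (pc γ n)))
    have hge' : ∑' L : ℕ, ENNReal.ofReal (m (ip a L))
        ≤ ENNReal.ofReal (m (ip a 0)) + ∑' n, ρ (pc γ n) :=
      ENNReal.tsum_le_of_sum_range_le hge
    rw [hdiv, top_le_iff, ENNReal.add_eq_top] at hge'
    rcases hge' with h | h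
    · exact absurd h ENNReal.ofReal_ne_top
    · exact h

end Pool.Agent.SawHalf
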